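import Pool.Agent.C90.State

/-!
# Arcs of lifted cycles (MP_c90cf1_co)
-/

namespace C90

open Finset

variable {G : Type*} [AddCommGroup G] {I : Type*} {V V' : AddSubgroup G} [Finite G] [Finite I]

namespace Lab

variable {L : Lab V I}

theorem Pos.mk_of {a b : Slot V I} {m n : ℕ} (h1 : (L.σ ^ (m + 1)) a = b)
    (h3 : m + n + 2 = L.N a) : L.Pos a b m n := by
  refine ⟨h1, ?_, h3⟩
  rw [← h1, ← Equiv.Perm.mul_apply, ← pow_add]
  have : n + 1 + (m + 1) = L.N a := by omega
  rw [this, pow_N]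

/-- arcs of a closed cycle are copied -/
theorem Arc.lift_closed (hV : V' ≤ V) {a b : Slot V I} {d : G} (h : L.Arc a b d)
    {a' b' : Slot V' I} (ha : qs hV a' = a) (hb : qs hV b' = b) (hc : L.W a ∈ V')
    (hs : (L.lift hV).σ.SameCycle a' b') : (L.lift hV).Arc a' b' d := by
  obtain ⟨m, n, hp, e⟩ := h
  subst ha
  have h1 : ((L.lift hV).σ ^ (m + 1)) a' = b' := by
    apply L.eq_of_closed hV hc ⟨((m + 1 : ℕ) : ℤ), by rw [zpow_natCast]⟩ hs
    rw [qs_pow, hb]
    exact hp.1
  have h2 : (L.lift hV).Pos a' b' m n := by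
    apply Pos.mk_of h1
    rw [L.N_closed hV hc]
    exact hp.2.2
  refine ⟨m, n, h2, ?_⟩
  rw [lift_S, lift_S, qs_σ, qs_σ, hb]
  exact e

/-- the two lifts of one slot of an open cycle, index two -/
theorem arc_vertical (D : Ind V V' 2) {a' : Slot V' I} (ho : L.W (qs D.le a') ∉ V') :
    (L.lift D.le).Arc a' (tr (L.W (qs D.le a')) a') 0 := by
  have : Fact (Nat.Prime 2) := ⟨Nat.prime_two⟩
  have hN := L.N_pos (qs D.le a')
  have hN' := L.N_open D ho
  refine ⟨L.N (qs D.le a') - 1, L.N (qs D.le a') - 1, ?_, ?_⟩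
  · apply Pos.mk_of
    · rw [Nat.sub_add_cancel hN, pow_N_lift]
    · rw [hN']; omega
  · rw [lift_S, lift_S, qs_σ, qs_σ, qs_tr D.le (L.W_mem _), sub_self]

theorem Pos.ne {a b : Slot V I} {m n : ℕ} (h : L.Pos a b m n) : a ≠ b := by
  intro e
  obtain ⟨h1, -, h3⟩ := h
  rw [← e] at h1
  have := L.pow_inj (h := a) (m := m + 1) (n := 0) (by omega) (by omega) (by simpa using h1)
  omega

/-- odd index: designated lifts of the two slots of a symmetric open edge -/
theorem arc_open {p : ℕ} [Fact p.Prime] (D : Ind V V' p) {a b : Slot V I}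
    (h : L.Arc a b 0) {a' b' : Slot V' I} (ha : qs D.le a' = a) (hb : qs D.le b' = b)
    (ho : L.W a ∉ V') (hR : (L.lift D.le).R a' = (L.lift D.le).R b') :
    (L.lift D.le).Arc a' b' 0 := by
  obtain ⟨m, n, hp, e⟩ := h
  have hab : L.σ.SameCycle (qs D.le a') (qs D.le b') := by
    rw [ha, hb, ← hp.1]; exact ⟨((m+1 : ℕ) : ℤ), by rw [zpow_natCast]⟩
  have hs : (L.lift D.le).σ.SameCycle a' b' := by
    apply L.sameCycle_open D _ hab
    rw [ha]; exact ho
  obtain ⟨k, hk, e1⟩ := ((L.lift D.le).sameCycle_iff a' b').1 hs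
  have hN' : (L.lift D.le).N a' = p * L.N a := by
    have := L.N_open D (h := a') (by rw [ha]; exact ho)
    rw [this, ha]
  have hNpos := L.N_pos a
  have e2 : (L.σ ^ k) a = b := by rw [← ha, ← qs_pow, e1, hb]
  have e3 : k % L.N a = m + 1 := by
    apply L.pow_inj (h := a) (Nat.mod_lt _ hNpos) (by have := hp.2.2; omega)
    rw [hp.1, ← e2]
    conv_rhs => rw [← Nat.mod_add_div k (L.N a)]
    rw [pow_add, Equiv.Perm.mul_apply]
    congr 1
    symm
    rw [pow_eq_iff]
    exact Dvd.intro _ rfl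
  set t := k / L.N a with ht
  have e4 : k = m + 1 + t * L.N a := by
    rw [← e3, ht, mul_comm]; exact (Nat.mod_add_div k (L.N a)).symm
  have htp : t < p := by
    rw [hN'] at hk
    rw [ht, Nat.div_lt_iff_lt_mul hNpos]
    exact hk
  have h5 := hp.R_lift D.le t ha
  rw [← e4, e1, e, ← hR, add_zero] at h5
  have h6 : (2 * t + 1) • L.W a ∈ V' := by
    rw [← QuotientAddGroup.eq_zero_iff]
    exact (add_eq_left.1 h5.symm)
  have hW := L.W_mem a
  have h0 : D.f (L.W a) ≠ 0 := fun h0 => ho ((D.ker _ hW).1 h0)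
  rw [← D.ker _ (V.nsmul_mem hW _), D.nsmul hW, nsmul_eq_mul, mul_eq_zero] at h6
  have h7 : p ∣ 2 * t + 1 := by
    rcases h6 with h6 | h6
    · exact (ZMod.natCast_eq_zero_iff _ p).1 h6
    · exact absurd h6 h0
  have h8 : 2 * t + 1 = p := by
    obtain ⟨q, hq⟩ := h7
    have : q = 1 := by
      rcases q with _ | _ | q
      · omega
      · rfl
      · exfalso
        have : p * (q + 1 + 1) = p * q + 2 * p := by ring
        have : 2 * t + 1 < 2 * p := by omega
        have : 0 ≤ p * q := Nat.zero_le _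
        omega
    rw [this] at hq; omega
  refine ⟨m + t * L.N a, n + t * L.N a, ?_, ?_⟩
  · apply Pos.mk_of
    · have : m + t * L.N a + 1 = k := by rw [e4]; ring
      rw [this]; exact e1
    · rw [hN']
      have := hp.2.2
      have h9 : p * L.N a = (2 * t + 1) * L.N a := by rw [h8]
      rw [h9, ← this]; ring
  · rw [lift_S, lift_S, qs_σ, qs_σ, ha, hb]
    have hNb : L.N b = L.N a := by rw [← hp.1, N_pow]
    have hWb : L.W b = L.W a := by rw [← hp.1, W_pow]
    have e5 : L.S (L.σ a) (m + t * L.N a) = L.S (L.σ a) m + t • L.W a := by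
      rw [← L.N_σ a, S_add_mul_N, W_σ]
    have e6 : L.S (L.σ b) (n + t * L.N a) = L.S (L.σ b) n + t • L.W a := by
      rw [← hNb, ← L.N_σ b, S_add_mul_N, W_σ, hWb]
    rw [e5, e6, add_sub_add_right_eq_sub, e]

theorem R_pow (M : Lab V I) (x : Slot V I) (k : ℕ) :
    M.R ((M.σ ^ (k + 1)) x) = M.R x + ((M.val x + 2 • M.S (M.σ x) k + M.val ((M.σ ^ (k+1)) x) : G)
      : G ⧸ V) := by
  induction k with
  | zero =>
    simp only [zero_add, pow_one, S_zero, smul_zero, add_zero]
    rw [R_σ, QuotientAddGroup.mk_add, add_assoc]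
  | succ k ih =>
    rw [pow_succ', Equiv.Perm.mul_apply, R_σ, ih, S_succ]
    have : (M.σ ^ k) (M.σ x) = (M.σ ^ (k+1)) x := by
      rw [pow_succ, Equiv.Perm.mul_apply]
    rw [this, add_assoc, add_assoc, ← QuotientAddGroup.mk_add, ← QuotientAddGroup.mk_add]
    congr 2
    abel

theorem Arc.R_eq {a b : Slot V I} {d : G} (h : L.Arc a b d) : L.R b = L.R a + ((d : G) : G ⧸ V) := by
  obtain ⟨m, n, hp, e⟩ := h
  have h1 := L.R_pow a m
  rw [hp.1] at h1
  have hW := hp.W_eq
  have e1 : L.val a + 2 • L.S (L.σ a) m + L.val b = L.W a + d := by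
    rw [hW, ← e, two_smul]; abel
  rw [h1, e1, QuotientAddGroup.mk_add, (QuotientAddGroup.eq_zero_iff (L.W a)).2 (L.W_mem a),
    zero_add]

/-- a choice of a slot with a given property in every cycle that has one -/
theorem exists_choice (L : Lab V I) (P : Slot V I → Prop) :
    ∃ T : Slot V I → Slot V I, (∀ h g, L.σ.SameCycle h g → T h = T g) ∧
      ∀ h, (∃ t, L.σ.SameCycle h t ∧ P t) → L.σ.SameCycle h (T h) ∧ P (T h) := by
  classical
  let st := Equiv.Perm.SameCycle.setoid L.σ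
  let q : Slot V I → Quotient st := Quotient.mk st
  have hq : ∀ h, L.σ.SameCycle (q h).out h := fun h => Quotient.exact (Quotient.out_eq (q h))
  have hch : ∀ c : Quotient st, ∃ t : Slot V I, (∃ t, L.σ.SameCycle c.out t ∧ P t) →
      L.σ.SameCycle c.out t ∧ P t := by
    intro c
    by_cases hc : ∃ t, L.σ.SameCycle c.out t ∧ P t
    · obtain ⟨t, ht⟩ := hc
      exact ⟨t, fun _ => ht⟩
    · exact ⟨c.out, fun h => absurd h hc⟩
  choose F hF using hch
  refine ⟨fun h => F (q h), ?_, ?_⟩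
  · intro h g hg
    have : q h = q g := Quotient.sound hg
    simp only [this]
  · rintro h ⟨t, ht, hP⟩
    obtain ⟨h1, h2⟩ := hF (q h) ⟨t, (hq h).trans ht, hP⟩
    exact ⟨(hq h).symm.trans h1, h2⟩

end Lab

end C90
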