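import Mathlib

/-!
# Boolean verification of one loop (MP_c90cf1_co, 2-step lemma)

`i` = vertex in `T1`, `j` = end in `J1`, `m` = end in `J2`, `t` = vertex in `T2`.
-/

namespace C90.TwoStep

/-- number of true values -/
def n3 (a b c : Bool) : ℕ := a.toNat + b.toNat + c.toNat
/-- number of true values -/
def n2 (a b : Bool) : ℕ := a.toNat + b.toNat

/-- label (true = label 1) -/
def lb (i j m : Bool) : Bool := bif i then !m else j
/-- token -/
def tk (i j m t : Bool) : Bool := bif i then (m == t) else !j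

/-- there is a non-unit end inside -/
def x3 (ip iq ir jp jq jr : Bool) : Bool := (ip && !jp) || (iq && !jq) || (ir && !jr)
/-- there is a non-unit end inside -/
def x2 (ip iq jp jq : Bool) : Bool := (ip && !jp) || (iq && !jq)

/-- the end is active in round 2; `e` = number of units of a transport loop -/
def ac (e n : ℕ) (x i : Bool) : Bool := i && (!(n == e) || x)

/-- an active non-unit end at `T2` -/
def y3 (ap aq ar mp mq mr tp tq tr : Bool) : Bool :=
  (ap && !mp && tp) || (aq && !mq && tq) || (ar && !mr && tr)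
/-- an active non-unit end at `T2` -/
def y2 (ap aq mp mq tp tq : Bool) : Bool := (ap && !mp && tp) || (aq && !mq && tq)

/-- implication -/
def im (a b : Bool) : Bool := !a || b
/-- three implications -/
def im3 (a b c a' b' c' : Bool) : Bool := im a a' && im b b' && im c c'
/-- two implications -/
def im2 (a b a' b' : Bool) : Bool := im a a' && im b b'

/-- closed with `c = 0` -/
def cl3 (a b c : Bool) : Bool := !(xor a (xor b c))
/-- closed with `c = 0` -/
def cl2 (a b : Bool) : Bool := !(xor a b)

/-- at least two -/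
def two3 (a b c : Bool) : Bool := (a && b) || (a && c) || (b && c)

/-- hypotheses of round 2 for a loop of kind `E` -/
def hypE (ap aq ar mp mq mr tp tq tr : Bool) : Bool :=
  let k := n3 mp mq mr
  Nat.ble k 2 && im (k == 2) (im (y3 ap aq ar mp mq mr tp tq tr) (im3 mp mq mr tp tq tr)) &&
    im (k == 0) (!two3 (ap && tp) (aq && tq) (ar && tr)) &&
    im (k == 1) (!y3 ap aq ar mp mq mr tp tq tr)

/-- hypotheses of round 2 for a loop of kind `O` -/
def hypO (ap aq ar mp mq mr tp tq tr : Bool) : Bool :=
  let k := n3 mp mq mr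
  Nat.ble k 1 && im (k == 1) (im (y3 ap aq ar mp mq mr tp tq tr) (im3 mp mq mr tp tq tr)) &&
    im (k == 0) (!((ap && tp) || (aq && tq) || (ar && tr)))

/-- hypotheses of round 2 for a loop with two ends -/
def hypD (ap aq mp mq tp tq : Bool) : Bool :=
  let k := n2 mp mq
  Nat.ble k 1 && im (k == 1) (im (y2 ap aq mp mq tp tq) (im2 mp mq tp tq)) &&
    im (k == 0) (!((ap && tp) || (aq && tq)))

/-- hypotheses, three ends, `c = 0` -/
def hyp0 (ip iq ir jp jq jr mp mq mr tp tq tr : Bool) : Bool :=
  let n := n3 jp jq jr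
  let x := x3 ip iq ir jp jq jr
  let ap := ac 1 n x ip
  let aq := ac 1 n x iq
  let ar := ac 1 n x ir
  Nat.ble n 1 && im (n == 0) (!(ip || iq || ir)) &&
    im (n == 1) (im x (im3 jp jq jr ip iq ir)) && im3 mp mq mr ap aq ar &&
    im (ip && iq && ir) (hypE ap aq ar mp mq mr tp tq tr) &&
    im (!(ip && iq && ir)) (hypO ap aq ar mp mq mr tp tq tr)

/-- hypotheses, three ends, `c = 1` -/
def hyp1 (ip iq ir jp jq jr mp mq mr tp tq tr : Bool) : Bool :=
  let n := n3 jp jq jr
  let x := x3 ip iq ir jp jq jr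
  let ap := ac 2 n x ip
  let aq := ac 2 n x iq
  let ar := ac 2 n x ir
  Nat.ble n 2 && im (n == 0) (!two3 ip iq ir) && im (n == 1) (!x) &&
    im (n == 2) (im x (im3 jp jq jr ip iq ir)) && im3 mp mq mr ap aq ar &&
    hypO ap aq ar mp mq mr tp tq tr

/-- hypotheses, two ends -/
def hyp2 (ip iq jp jq mp mq tp tq : Bool) : Bool :=
  let n := n2 jp jq
  let x := x2 ip iq jp jq
  let ap := ac 1 n x ip
  let aq := ac 1 n x iq
  Nat.ble n 1 && im (n == 0) (!(ip || iq)) &&
    im (n == 1) (im x (im2 jp jq ip iq)) && im2 mp mq ap aq &&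
    hypD ap aq mp mq tp tq

/-- conclusions, three ends, `c = 0` -/
def con0 (ip iq ir jp jq jr mp mq mr tp tq tr : Bool) : Bool :=
  let n := n3 jp jq jr
  let x := x3 ip iq ir jp jq jr
  let kp := tk ip jp mp tp
  let kq := tk iq jq mq tq
  let kr := tk ir jr mr tr
  let closed := cl3 (lb ip jp mp) (lb iq jq mq) (lb ir jr mr)
  im (!closed) (kp || kq || kr) && im closed (two3 kp kq kr) &&
    im closed (im (!(kp && kq && kr)) (ac 1 n x ip && ac 1 n x iq && ac 1 n x ir &&
      (n3 mp mq mr == 1) && !(mp && tp) && !(mq && tq) && !(mr && tr) &&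
        (kp == !mp) && (kq == !mq) && (kr == !mr)))

/-- conclusions, three ends, `c = 1` -/
def con1 (ip iq ir jp jq jr mp mq mr tp tq tr : Bool) : Bool :=
  let kp := tk ip jp mp tp
  let kq := tk iq jq mq tq
  let kr := tk ir jr mr tr
  let closed := !cl3 (lb ip jp mp) (lb iq jq mq) (lb ir jr mr)
  im (!closed) (kp || kq || kr) && im closed (two3 kp kq kr) &&
    im closed (im (!(kp && kq && kr)) (!ip && !iq && !ir &&
      (n3 jp jq jr == 1) && (kp == !jp) && (kq == !jq) && (kr == !jr)))

/-- conclusions, two ends -/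
def con2 (ip iq jp jq mp mq tp tq : Bool) : Bool :=
  let n := n2 jp jq
  let x := x2 ip iq jp jq
  let kp := tk ip jp mp tp
  let kq := tk iq jq mq tq
  let closed := cl2 (lb ip jp mp) (lb iq jq mq)
  im (!closed) (kp || kq) && im closed (kp && kq) &&
    im closed ((!ip && !iq && (n == 0)) ||
      (ac 1 n x ip && ac 1 n x iq && (n2 mp mq == 0)))

theorem chk2_true : ∀ ip iq jp jq mp mq tp tq : Bool,
    im (hyp2 ip iq jp jq mp mq tp tq) (con2 ip iq jp jq mp mq tp tq) = true := by
  decide

set_option maxRecDepth 100000 in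
theorem chk0_true : ∀ ip iq ir jp jq jr mp mq mr tp tq tr : Bool,
    im (hyp0 ip iq ir jp jq jr mp mq mr tp tq tr)
      (con0 ip iq ir jp jq jr mp mq mr tp tq tr) = true := by
  decide

set_option maxRecDepth 100000 in
theorem chk1_true : ∀ ip iq ir jp jq jr mp mq mr tp tq tr : Bool,
    im (hyp1 ip iq ir jp jq jr mp mq mr tp tq tr)
      (con1 ip iq ir jp jq jr mp mq mr tp tq tr) = true := by
  decide

end C90.TwoStep
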