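import Pool.Agent.C90.Lift
import Pool.Agent.CA.IndexDef

/-!
# Existence of a subgroup of prime index (MP_c90cf1_co)
-/

set_option autoImplicit false

namespace C90

/-- a subgroup of order divisible by `p` has a refinement of index `p` -/
theorem exists_Ind {G : Type*} [AddCommGroup G] [Finite G] (V : AddSubgroup G) (p : ℕ)
    [Fact p.Prime] (hp : p ∣ Nat.card V) :
    ∃ V' : AddSubgroup G, Nonempty (Ind V V' p) ∧ Nat.card V' * p = Nat.card V := by
  classical
  obtain ⟨φ, a, ha⟩ := Pool.Agent.CA.exists_hom_zmod (K := V) p hp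
  let V' : AddSubgroup G := φ.ker.map V.subtype
  have hmem : ∀ x, x ∈ V' ↔ ∃ h : x ∈ V, φ ⟨x, h⟩ = 0 := by
    intro x
    constructor
    · rintro ⟨z, hz, rfl⟩
      exact ⟨z.2, hz⟩
    · rintro ⟨h, hx⟩
      exact ⟨⟨x, h⟩, hx, rfl⟩
  have hle : V' ≤ V := by
    rintro x hx
    exact ((hmem x).1 hx).1
  refine ⟨V', ⟨?_⟩, ?_⟩
  · refine ⟨hle, fun x => if h : x ∈ V then φ ⟨x, h⟩ else 0, ?_, ?_, ?_⟩
    · intro b hb c hc
      have hbc : b + c ∈ V := V.add_mem hb hc
      simp only [hb, hc, hbc, dif_pos]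
      rw [← map_add]
      rfl
    · intro b hb
      simp only [hb, dif_pos]
      rw [hmem]
      exact ⟨fun h => ⟨hb, h⟩, fun ⟨_, h⟩ => h⟩
    · refine ⟨a.1, a.2, ?_⟩
      have : a.1 ∈ V := a.2
      simp only [this, dif_pos]
      exact ha
  · have h1 : Nat.card V' = Nat.card φ.ker :=
      Nat.card_congr (φ.ker.equivMapOfInjective V.subtype
        (Subtype.val_injective)).symm.toEquiv
    have h2 : Function.Surjective φ := by
      intro z
      refine ⟨z.val • a, ?_⟩
      rw [map_nsmul, ha, nsmul_one, ZMod.natCast_zmod_val]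
    have h3 : Nat.card φ.ker * Nat.card φ.range = Nat.card V := by
      rw [← AddSubgroup.card_mul_index φ.ker, AddSubgroup.index_ker]
    have h4 : Nat.card φ.range = p := by
      rw [AddMonoidHom.range_eq_top.2 h2, AddSubgroup.card_top, Nat.card_zmod]
    rw [h1, ← h3, h4]

end C90
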