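import Pool.Agent.C90.Steps
import Pool.Agent.C90.ExistsInd

/-!
# Descent to the trivial subgroup (MP_c90cf1_co)
-/

namespace C90

open Finset

variable {G : Type*} [AddCommGroup G] {I : Type*} {V V' V'' : AddSubgroup G}

theorem qm_qm (h : V' ≤ V) (h' : V'' ≤ V') (x : G ⧸ V'') :
    qm h (qm h' x) = qm (h'.trans h) x := by
  obtain ⟨g, rfl⟩ := QuotientAddGroup.mk_surjective x
  rfl

theorem qs_qs (h : V' ≤ V) (h' : V'' ≤ V') (x : Slot V'' I) :
    qs h (qs h' x) = qs (h'.trans h) x := by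
  unfold qs
  simp only [qm_qm]

variable [Finite G] [Finite I]

theorem Refines.refl {lab0 : I × Bool → G} {odd bal : Prop} (s : St V lab0 odd bal) :
    Refines (le_refl V) s s := by
  have h1 : ∀ x : G ⧸ V, qm (le_refl V) x = x := by
    intro x
    obtain ⟨g, rfl⟩ := QuotientAddGroup.mk_surjective x
    rfl
  have h2 : ∀ x : Slot V I, qs (le_refl V) x = x := fun x => Prod.ext (h1 x.1) rfl
  refine ⟨fun g hg => ?_, fun x => ?_, fun g _ => ?_⟩
  · rw [h2]; exact hg
  · rw [h1, h1]
  · rw [h2]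

theorem Refines.trans {lab0 : I × Bool → G} {o1 o2 o3 b1 b2 b3 : Prop} {hV : V' ≤ V}
    {hV' : V'' ≤ V'} {s : St V lab0 o1 b1} {s' : St V' lab0 o2 b2} {s'' : St V'' lab0 o3 b3}
    (h' : Refines hV' s'' s') (h : Refines hV s' s) : Refines (hV'.trans hV) s'' s := by
  refine ⟨fun g hg => ?_, fun x => ?_, fun g hg => ?_⟩
  · rw [← qs_qs hV hV']
    exact h.1 _ (h'.1 _ hg)
  · rw [← qm_qm hV hV', h'.2.1, h.2.1, qm_qm]
  · rw [← qs_qs hV hV'] at hg
    rw [h'.2.2 g (fun h1 => hg (h.1 _ h1)), h.2.2 _ hg, qs_qs]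

/-- the odd phase -/
theorem phase_odd {lab0 : I × Bool → G} {bal : Prop} (n : ℕ) :
    ∀ (V : AddSubgroup G), Nat.card V = n → ∀ s : St V lab0 True bal,
    ∃ (V' : AddSubgroup G) (hV : V' ≤ V), (∃ k, Nat.card V' = 2 ^ k) ∧
      ∃ s' : St V' lab0 True bal, Refines hV s' s := by
  induction n using Nat.strong_induction_on with
  | _ n ih =>
    intro V hn s
    rcases Nat.eq_two_pow_or_exists_odd_prime_and_dvd (Nat.card V) with hk | ⟨p, hp, hpd, hpo⟩
    · exact ⟨V, le_refl V, hk, s, Refines.refl s⟩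
    · have : Fact p.Prime := ⟨hp⟩
      obtain ⟨V', ⟨D⟩, hc⟩ := exists_Ind V p hpd
      have hp2 : p ≠ 2 := by
        rintro rfl
        exact absurd hpo (by decide)
      obtain ⟨s', hs'⟩ := odd_step s hp2 D
      have hpos : 0 < Nat.card V' := Nat.card_pos
      have hlt : Nat.card V' < n := by
        rw [← hn, ← hc]
        have := hp.one_lt
        nlinarith
      obtain ⟨V'', hV'', hk, s'', hs''⟩ := ih _ hlt V' rfl s'
      exact ⟨V'', hV''.trans D.le, hk, s'', hs''.trans hs'⟩

/-- the phase of index two -/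
theorem phase_two {lab0 : I × Bool → G} (k : ℕ) :
    ∀ (V : AddSubgroup G), Nat.card V = 2 ^ k → ∀ s : St V lab0 False True,
    ∃ s' : St (⊥ : AddSubgroup G) lab0 False True, Refines bot_le s' s := by
  induction k with
  | zero =>
    intro V hn s
    have hV : V = ⊥ := by
      rw [pow_zero] at hn
      exact AddSubgroup.eq_bot_of_card_eq V hn
    subst hV
    exact ⟨s, Refines.refl s⟩
  | succ k ih =>
    intro V hn s
    have : Fact (Nat.Prime 2) := ⟨Nat.prime_two⟩
    obtain ⟨V', ⟨D⟩, hc⟩ := exists_Ind V 2 (by rw [hn]; exact dvd_pow_self 2 (by omega))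
    obtain ⟨s', hs'⟩ := two_step_state s D
    have hV' : Nat.card V' = 2 ^ k := by
      rw [hn, pow_succ] at hc
      omega
    obtain ⟨s'', hs''⟩ := ih V' hV' s'
    exact ⟨s'', hs''.trans hs'⟩

/-- from the odd phase to the other phase -/
def St.weaken {lab0 : I × Bool → G} {bal : Prop} (s : St V lab0 True bal) (hb : bal) :
    St V lab0 False True :=
  { s with
    delodd := fun h => h.elim
    loops := fun h => by
      rcases s.loops h with ⟨a, b, hab, hd, hA, -⟩ | ⟨a, b, c, hab, hac, hbc, hd, -⟩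
      · left; exact ⟨a, b, hab, hd, fun _ => hA hb, fun h => h.elim⟩
      · right; exact ⟨a, b, c, hab, hac, hbc, hd, fun h => h.elim⟩ }

/-- descent to the trivial subgroup -/
theorem descend_bot {lab0 : I × Bool → G} {bal : Prop} (s : St V lab0 True bal)
    (hbal : Even (Nat.card V) → bal) :
    ∃ (odd' bal' : Prop) (s' : St (⊥ : AddSubgroup G) lab0 odd' bal'), Refines bot_le s' s := by
  obtain ⟨V', hV, ⟨k, hk⟩, s', hs'⟩ := phase_odd (Nat.card V) V rfl s
  rcases k with _ | k
  · have hV' : V' = ⊥ := by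
      rw [pow_zero] at hk
      exact AddSubgroup.eq_bot_of_card_eq V' hk
    subst hV'
    exact ⟨True, bal, s', hs'⟩
  · have hb : bal := by
      apply hbal
      have h1 : Nat.card V' ∣ Nat.card V := AddSubgroup.card_dvd_of_le hV
      have h2 : 2 ∣ Nat.card V' := by rw [hk]; exact dvd_pow_self 2 (by omega)
      exact even_iff_two_dvd.2 (h2.trans h1)
    obtain ⟨s'', hs''⟩ := phase_two (k + 1) V' hk (s'.weaken hb)
    refine ⟨False, True, s'', ?_⟩
    have h1 : Refines hV (s'.weaken hb) s := hs'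
    exact hs''.trans h1

omit [Finite G] in
theorem mk_bot_inj {a b : G} (h : ((a : G) : G ⧸ (⊥ : AddSubgroup G)) = b) : a = b := by
  rw [QuotientAddGroup.eq, AddSubgroup.mem_bot] at h
  have : b = a := by
    have := congrArg (fun z => a + z) h
    simpa using this
  exact this.symm

theorem eqvGen_of_pow (L : Lab (⊥ : AddSubgroup G) I) (x : G) (i : I) (b0 : Bool) (n : ℕ) :
    ∀ (y : G) (b : Bool), (L.σ ^ n) ((x : G ⧸ (⊥ : AddSubgroup G)), (i, b0)) =
      ((y : G ⧸ (⊥ : AddSubgroup G)), (i, b)) →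
      Relation.EqvGen (fun u v : G => u + L.lab ((u : G ⧸ (⊥ : AddSubgroup G)), (i, true)) =
        v + L.lab ((v : G ⧸ (⊥ : AddSubgroup G)), (i, false))) x y := by
  induction n with
  | zero =>
    intro y b h
    simp only [pow_zero, Equiv.Perm.coe_one, id_eq, Prod.mk.injEq] at h
    rw [mk_bot_inj h.1]
    exact Relation.EqvGen.refl _
  | succ n ih =>
    intro y b h
    rw [pow_succ', Equiv.Perm.mul_apply] at h
    set g := (L.σ ^ n) ((x : G ⧸ (⊥ : AddSubgroup G)), (i, b0)) with hg
    obtain ⟨z, hz⟩ := QuotientAddGroup.mk_surjective g.1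
    have hi : g.2.1 = i := L.pow_snd_fst _ n
    have hgz : g = ((z : G ⧸ (⊥ : AddSubgroup G)), (i, g.2.2)) := by
      apply Prod.ext hz.symm
      exact Prod.ext hi rfl
    have h1 := ih z g.2.2 hgz
    have h2 := L.tail_σ g
    rw [← Lab.head_eq, h] at h2
    have h3 := L.σ_snd g
    rw [h] at h3
    have h4 : b = !g.2.2 := congrArg Prod.snd h3
    rcases hb : g.2.2 with _ | _
    · -- incoming slot, then outgoing slot at the same vertex
      rw [hb] at h4
      simp only [Bool.not_false] at h4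
      subst h4
      unfold Lab.tail Lab.head at h2
      rw [hb] at h2
      simp only [Bool.false_eq_true, if_true, if_false] at h2
      rw [← hz] at h2
      rw [mk_bot_inj h2]
      exact h1
    · rw [hb] at h4
      simp only [Bool.not_true] at h4
      subst h4
      unfold Lab.tail Lab.head at h2
      rw [hb] at h2
      simp only [Bool.false_eq_true, if_true, if_false] at h2
      refine h1.trans _ _ _ (Relation.EqvGen.symm _ _ (Relation.EqvGen.symm _ _
        (Relation.EqvGen.rel _ _ ?_)))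
      apply mk_bot_inj
      rw [QuotientAddGroup.mk_add, QuotientAddGroup.mk_add, h2]
      rw [hgz, hb]

theorem descend {lab0 : I × Bool → G} {bal : Prop} (s : St V lab0 True bal)
    (hbal : Even (Nat.card V) → bal) :
    ∃ (lab : G → I × Bool → G) (nu : G → G) (Des : Set (G × (I × Bool))),
      (∀ x, ∃ r : Equiv.Perm (I × Bool), ∀ k, lab x k = lab0 (r k)) ∧
      (∀ k, Function.Injective fun x => x + lab x k) ∧
      (Function.Injective fun x => x + nu x) ∧
      (∀ x k, (x, k) ∈ Des → lab x k = nu x ∧ ((x : G ⧸ V), k) ∈ s.Des) ∧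
      (∀ x : G, ((nu x : G) : G ⧸ V) = s.nu (x : G ⧸ V)) ∧
      (∀ (x : G) k, ((x : G ⧸ V), k) ∉ s.Des → lab x k = s.lab ((x : G ⧸ V), k)) ∧
      (∀ i x, ∃ y b y' b', (y, (i, b)) ∈ Des ∧ (y', (i, b')) ∈ Des ∧ (y, b) ≠ (y', b') ∧
        Relation.EqvGen (fun u v => u + lab u (i, true) = v + lab v (i, false)) x y ∧
        Relation.EqvGen (fun u v => u + lab u (i, true) = v + lab v (i, false)) x y') := by
  obtain ⟨odd', bal', s', h1, h2, h3⟩ := descend_bot s hbal
  let mk : G → G ⧸ (⊥ : AddSubgroup G) := fun x => (x : G ⧸ (⊥ : AddSubgroup G))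
  have hout : ∀ x : G ⧸ (⊥ : AddSubgroup G), mk x.out = x := fun x => Quotient.out_eq' x
  refine ⟨fun x k => s'.lab (mk x, k), fun x => (s'.nu (mk x)).out,
    {h | (mk h.1, h.2) ∈ s'.Des}, ?_, ?_, ?_, ?_, ?_, ?_, ?_⟩
  · intro x
    exact s'.perm (mk x)
  · intro k x y e
    apply mk_bot_inj
    apply s'.inj k
    simp only at e ⊢
    change mk x + mk _ = mk y + mk _
    have := congrArg mk e
    exact this
  · intro x y e
    apply mk_bot_inj
    apply s'.nuinj
    simp only at e ⊢
    have h4 := congrArg mk e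
    have h5 : mk (x + (s'.nu (mk x)).out) = mk x + s'.nu (mk x) := by
      conv_rhs => rw [← hout (s'.nu (mk x))]
      rfl
    have h6 : mk (y + (s'.nu (mk y)).out) = mk y + s'.nu (mk y) := by
      conv_rhs => rw [← hout (s'.nu (mk y))]
      rfl
    rw [h5, h6] at h4
    exact h4
  · intro x k hx
    refine ⟨?_, h1 _ hx⟩
    apply mk_bot_inj
    have h4 := s'.desnu _ hx
    change mk _ = mk _
    rw [hout]
    exact h4
  · intro x
    have h4 := h2 (mk x)
    rw [← hout (s'.nu (mk x))] at h4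
    exact h4
  · intro x k hx
    exact h3 (mk x, k) hx
  · intro i x
    have key : ∀ a : Slot (⊥ : AddSubgroup G) I, a ∈ s'.Des →
        s'.σ.SameCycle (mk x, (i, true)) a →
        (a.1.out, (i, a.2.2)) ∈ {h : G × (I × Bool) | (mk h.1, h.2) ∈ s'.Des} ∧
        Relation.EqvGen (fun u v => u + s'.lab (mk u, (i, true)) =
          v + s'.lab (mk v, (i, false))) x a.1.out := by
      intro a ha hs
      obtain ⟨n, -, hn⟩ := (s'.toLab.sameCycle_iff _ _).1 hs
      have hi : a.2.1 = i := by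
        rw [← hn]; exact s'.toLab.pow_snd_fst _ n
      have ha' : a = (mk a.1.out, (i, a.2.2)) := by
        apply Prod.ext (hout a.1).symm
        exact Prod.ext hi rfl
      refine ⟨?_, ?_⟩
      · change (mk a.1.out, (i, a.2.2)) ∈ s'.Des
        rw [← ha']; exact ha
      · exact eqvGen_of_pow s'.toLab x i true n a.1.out a.2.2 (hn.trans ha')
    have hdist : ∀ a b : Slot (⊥ : AddSubgroup G) I, a ≠ b → a.2.1 = i → b.2.1 = i →
        (a.1.out, a.2.2) ≠ (b.1.out, b.2.2) := by
      intro a b hab hai hbi e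
      apply hab
      have e1 := congrArg Prod.fst e
      have e2 := congrArg Prod.snd e
      simp only at e1 e2
      have e3 : a.1 = b.1 := by rw [← hout a.1, ← hout b.1, e1]
      exact Prod.ext e3 (Prod.ext (hai.trans hbi.symm) e2)
    have hidx : ∀ a : Slot (⊥ : AddSubgroup G) I, s'.σ.SameCycle (mk x, (i, true)) a →
        a.2.1 = i := by
      intro a hs
      obtain ⟨n, -, hn⟩ := (s'.toLab.sameCycle_iff _ _).1 hs
      rw [← hn]; exact s'.toLab.pow_snd_fst _ n
    rcases s'.loops (mk x, (i, true)) with ⟨a, b, hab, hd, -, -⟩ | ⟨a, b, c, hab, -, -, hd, -⟩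
    · have ha := (hd a).2 (Or.inl rfl)
      have hb := (hd b).2 (Or.inr rfl)
      exact ⟨a.1.out, a.2.2, b.1.out, b.2.2, (key a ha.1 ha.2).1, (key b hb.1 hb.2).1,
        hdist a b hab (hidx a ha.2) (hidx b hb.2), (key a ha.1 ha.2).2, (key b hb.1 hb.2).2⟩
    · have ha := (hd a).2 (Or.inl rfl)
      have hb := (hd b).2 (Or.inr (Or.inl rfl))
      exact ⟨a.1.out, a.2.2, b.1.out, b.2.2, (key a ha.1 ha.2).1, (key b hb.1 hb.2).1,
        hdist a b (fun e => hab (congrArg Prod.fst e)) (hidx a ha.2) (hidx b hb.2),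
        (key a ha.1 ha.2).2, (key b hb.1 hb.2).2⟩

end C90
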