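import Mathlib

set_option linter.unusedSectionVars false

/-!
# The exchange lemma for the 2-step (MP_c90cf1_co)

Author: helper71.

`H` = half-edges (ends), `v : H → X` their vertices, `l : H → L` their loops, `A` the active ends.
A configuration is a set `J ⊆ A` of ends (the *units*): at most one unit on every loop, at most two
units on the loops of kind `E` (which have exactly three active ends), and at most `u x` units at
the vertex `x`.  `exch` produces an optimal configuration and a set `T` of vertices such that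
flipping the types at `T` is harmless.
-/

namespace C90.TwoStep

open Finset Relation

variable {X L H : Type*} [Fintype X] [DecidableEq X] [Fintype L] [DecidableEq L]
  [Fintype H] [DecidableEq H]

/-- the number of elements of `J` in the fibre of `f` over `a` -/
def cnt {α : Type*} [DecidableEq α] (f : H → α) (J : Finset H) (a : α) : ℕ :=
  (J.filter fun h => f h = a).card

lemma cnt_insert {α : Type*} [DecidableEq α] (f : H → α) {J : Finset H} {h : H} (hh : h ∉ J)
    (a : α) : cnt f (insert h J) a = cnt f J a + if f h = a then 1 else 0 := by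
  unfold cnt
  rw [filter_insert]
  split_ifs with h1
  · rw [card_insert_of_notMem]
    simp [hh]
  · simp

lemma cnt_erase {α : Type*} [DecidableEq α] (f : H → α) {J : Finset H} {h : H} (hh : h ∈ J)
    (a : α) : cnt f (J.erase h) a + (if f h = a then 1 else 0) = cnt f J a := by
  have := cnt_insert f (J := J.erase h) (h := h) (by simp) a
  rw [insert_erase hh] at this
  exact this.symm

lemma cnt_congr {α : Type*} [DecidableEq α] (f : H → α) {J J' : Finset H} (a : α)
    (h : ∀ h, f h = a → (h ∈ J ↔ h ∈ J')) : cnt f J a = cnt f J' a := by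
  unfold cnt
  congr 1
  ext x
  simp only [mem_filter]
  constructor
  · rintro ⟨h1, h2⟩; exact ⟨(h x h2).1 h1, h2⟩
  · rintro ⟨h1, h2⟩; exact ⟨(h x h2).2 h1, h2⟩

lemma cnt_pos {α : Type*} [DecidableEq α] (f : H → α) {J : Finset H} {h : H} (hh : h ∈ J) :
    0 < cnt f J (f h) := by
  unfold cnt
  exact card_pos.2 ⟨h, by simp [hh]⟩

lemma cnt_eq_one {α : Type*} [DecidableEq α] (f : H → α) {J : Finset H} {a : α}
    (h1 : cnt f J a = 1) {k k' : H} (hk : k ∈ J) (hk' : k' ∈ J) (ha : f k = a) (ha' : f k' = a) :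
    k = k' := by
  unfold cnt at h1
  obtain ⟨x, hx⟩ := card_eq_one.1 h1
  have e1 : k ∈ ({x} : Finset H) := hx ▸ (by simp [hk, ha])
  have e2 : k' ∈ ({x} : Finset H) := hx ▸ (by simp [hk', ha'])
  rw [mem_singleton] at e1 e2
  rw [e1, e2]

lemma cnt_sum {α : Type*} [DecidableEq α] [Fintype α] (f : H → α) (J : Finset H) :
    ∑ a, cnt f J a = J.card := by
  unfold cnt
  exact (card_eq_sum_card_fiberwise (f := f) (t := univ) (by simp)).symm

lemma cnt_sdiff {α : Type*} [DecidableEq α] (f : H → α) {J A : Finset H} (h : J ⊆ A) (a : α) :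
    cnt f (A \ J) a + cnt f J a = cnt f A a := by
  unfold cnt
  rw [← card_union_of_disjoint]
  · congr 1
    ext x
    simp only [mem_union, mem_filter, mem_sdiff]
    constructor
    · rintro (⟨⟨h1, _⟩, h2⟩ | ⟨h1, h2⟩)
      · exact ⟨h1, h2⟩
      · exact ⟨h h1, h2⟩
    · rintro ⟨h1, h2⟩
      by_cases hx : x ∈ J
      · right; exact ⟨hx, h2⟩
      · left; exact ⟨⟨h1, hx⟩, h2⟩
  · rw [disjoint_left]
    intro x hx hx'
    simp only [mem_filter, mem_sdiff] at hx hx'
    exact hx.1.2 hx'.1

section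

variable (v : H → X) (l : H → L) (A : Finset H) (E D : L → Prop) (u : X → ℕ) (J : Finset H)

/-- the loops through which units can be transported -/
def Trans (a : L) : Prop := (¬ E a ∧ cnt l J a = 1) ∨ (E a ∧ cnt l J a = 2)

/-- one transport step -/
def Step (x y : X) : Prop :=
  ∃ h ∈ A, h ∉ J ∧ ∃ k ∈ J, l h = l k ∧ Trans l E J (l h) ∧ v h = x ∧ v k = y

/-- walks with a given number of steps -/
def Walk (z : X) : ℕ → X → Prop
  | 0, y => y = z
  | n + 1, y => ∃ x, Walk z n x ∧ Step v l A E J x y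

/-- shifting a unit along a shortest walk -/
theorem shift (hE3 : ∀ a, E a → cnt l A a = 3) (hJA : J ⊆ A) (z : X) :
    ∀ n y, Walk v l A E J z n y → (∀ m < n, ¬ Walk v l A E J z m y) →
    ∃ J' ⊆ A, (∀ a, cnt l J' a = cnt l J a) ∧
      (∀ x, cnt v J' x + (if y = x then 1 else 0) = cnt v J x + (if z = x then 1 else 0)) ∧
      ∀ a, (∀ h, l h = a → (h ∈ J' ↔ h ∈ J)) ∨ (Trans l E J a ∧
        (¬ E a → ∀ k ∈ J, l k = a → ∃ m ≤ n, Walk v l A E J z m (v k)) ∧
        (E a → ∀ k ∈ A, k ∉ J → l k = a → ∃ m < n, Walk v l A E J z m (v k))) := by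
  intro n
  induction n with
  | zero =>
    intro y hy _
    have hy' : y = z := hy
    subst hy'
    exact ⟨J, hJA, fun _ => rfl, fun _ => rfl, fun a => Or.inl fun h _ => Iff.rfl⟩
  | succ n ih =>
    intro y hy hmin
    obtain ⟨x, hx, h, hhA, hhJ, k, hkJ, hl, htr, hvh, hvk⟩ := hy
    have hxmin : ∀ m < n, ¬ Walk v l A E J z m x := by
      intro m hm hmx
      exact hmin (m + 1) (by omega) ⟨x, hmx, h, hhA, hhJ, k, hkJ, hl, htr, hvh, hvk⟩
    obtain ⟨J0, hJ0A, hJ0l, hJ0v, hJ0u⟩ := ih x hx hxmin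
    -- the loop of the last step is unchanged so far
    have hun : ∀ g, l g = l h → (g ∈ J0 ↔ g ∈ J) := by
      rcases hJ0u (l h) with h1 | ⟨_, h2, h3⟩
      · exact h1
      · exfalso
        by_cases hEa : E (l h)
        · obtain ⟨m, hm, hw⟩ := h3 hEa h hhA hhJ rfl
          exact hxmin m hm (hvh ▸ hw)
        · obtain ⟨m, hm, hw⟩ := h2 hEa k hkJ hl.symm
          exact hmin m (by omega) (hvk ▸ hw)
    have hhJ0 : h ∉ J0 := fun hc => hhJ ((hun h rfl).1 hc)
    have hkJ0 : k ∈ J0 := (hun k hl.symm).2 hkJ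
    have hne : h ≠ k := fun hc => hhJ (hc ▸ hkJ)
    have hh1 : h ∉ J0.erase k := fun hc => hhJ0 (mem_of_mem_erase hc)
    refine ⟨insert h (J0.erase k), ?_, ?_, ?_, ?_⟩
    · intro g hg
      rcases mem_insert.1 hg with rfl | hg
      · exact hhA
      · exact hJ0A (mem_of_mem_erase hg)
    · intro a
      rw [cnt_insert l hh1, ← hJ0l a, ← cnt_erase l hkJ0 a, hl]
    · intro w
      rw [cnt_insert v hh1]
      have e1 := hJ0v w
      have e2 := cnt_erase v hkJ0 w
      rw [hvh]
      rw [hvk] at e2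
      omega
    · intro a
      by_cases ha : l h = a
      · right
        subst ha
        refine ⟨htr, ?_, ?_⟩
        · intro hEa k' hk' hlk'
          have h1 : cnt l J (l h) = 1 := by
            rcases htr with ⟨_, h1⟩ | ⟨h1, _⟩
            · exact h1
            · exact absurd h1 hEa
          have : k' = k := cnt_eq_one l h1 hk' hkJ hlk' hl.symm
          subst this
          exact ⟨n + 1, le_rfl, x, hx, h, hhA, hhJ, k', hkJ, hl, htr, hvh, rfl⟩
        · intro hEa k' hk'A hk'J hlk'
          have h2 : cnt l J (l h) = 2 := by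
            rcases htr with ⟨h1, _⟩ | ⟨_, h2⟩
            · exact absurd hEa h1
            · exact h2
          have h1 : cnt l (A \ J) (l h) = 1 := by
            have := cnt_sdiff l hJA (l h)
            rw [hE3 _ hEa, h2] at this
            omega
          have : k' = h := cnt_eq_one l h1 (by simp [hk'A, hk'J]) (by simp [hhA, hhJ]) hlk' rfl
          subst this
          exact ⟨n, by omega, hvh ▸ hx⟩
      · rcases hJ0u a with h1 | ⟨h0, h2, h3⟩
        · left
          intro g hg
          have g1 : g ≠ h := fun hc => ha (hc ▸ hg)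
          have g2 : g ≠ k := fun hc => ha (by rw [hl, ← hc, hg])
          simp only [mem_insert, mem_erase]
          rw [← h1 g hg]
          tauto
        · right
          refine ⟨h0, ?_, ?_⟩
          · intro hEa k' hk' hlk'
            obtain ⟨m, hm, hw⟩ := h2 hEa k' hk' hlk'
            exact ⟨m, by omega, hw⟩
          · intro hEa k' hk' hk'' hlk'
            obtain ⟨m, hm, hw⟩ := h3 hEa k' hk' hk'' hlk'
            exact ⟨m, by omega, hw⟩

/-- reachability -/
def Reach (z y : X) : Prop := ∃ n, Walk v l A E J z n y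

lemma Reach.refl (z : X) : Reach v l A E J z z := ⟨0, rfl⟩

lemma Reach.step {z x y : X} (h : Reach v l A E J z x) (hs : Step v l A E J x y) :
    Reach v l A E J z y := by
  obtain ⟨n, hn⟩ := h
  exact ⟨n + 1, x, hn, hs⟩

theorem shift' (hE3 : ∀ a, E a → cnt l A a = 3) (hJA : J ⊆ A) {z y : X}
    (hr : Reach v l A E J z y) :
    ∃ J' ⊆ A, (∀ a, cnt l J' a = cnt l J a) ∧
      (∀ x, cnt v J' x + (if y = x then 1 else 0) = cnt v J x + (if z = x then 1 else 0)) ∧
      ∀ h, ¬ Trans l E J (l h) → (h ∈ J' ↔ h ∈ J) := by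
  classical
  obtain ⟨J', h1, h2, h3, h4⟩ := shift v l A E J hE3 hJA z (Nat.find hr) y (Nat.find_spec hr)
    (fun m hm => Nat.find_min hr hm)
  refine ⟨J', h1, h2, h3, fun h hh => ?_⟩
  rcases h4 (l h) with h5 | ⟨h5, _⟩
  · exact h5 h rfl
  · exact absurd h5 hh

/-- configurations -/
structure Cfg : Prop where
  sub : J ⊆ A
  one : ∀ a, ¬ E a → cnt l J a ≤ 1
  two : ∀ a, E a → cnt l J a ≤ 2
  deg : ∀ x, cnt v J x ≤ u x

/-- bad loops -/
def Bad (a : L) : Prop := E a ∧ cnt l J a = 1

/-- the edges of the graph -/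
def Link (a : L) (x y : X) : Prop :=
  ∃ h ∈ A, ∃ k ∈ A, h ∉ J ∧ k ∉ J ∧ h ≠ k ∧ l h = a ∧ l k = a ∧ v h = x ∧ v k = y ∧
    ((D a ∧ cnt l J a = 0) ∨ Bad l E J a)

/-- connectedness using the loops with `P` only -/
def Cn (P : L → Prop) : X → X → Prop :=
  EqvGen fun x y => ∃ a, P a ∧ Link v l A E D J a x y

lemma Link.symm {a : L} {x y : X} (h : Link v l A E D J a x y) : Link v l A E D J a y x := by
  obtain ⟨h, hA, k, kA, hJ, kJ, hne, h1, h2, h3, h4, h5⟩ := h
  exact ⟨k, kA, h, hA, kJ, hJ, hne.symm, h2, h1, h4, h3, h5⟩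

lemma eqvGen_exists {α : Type*} {r : α → α → Prop} (hs : ∀ x y, r x y → r y x) {x y : α}
    (h : EqvGen r x y) : x = y ∨ (∃ z, r x z) ∧ ∃ z, r y z := by
  induction h with
  | rel x y h => exact Or.inr ⟨⟨y, h⟩, ⟨x, hs _ _ h⟩⟩
  | refl x => exact Or.inl rfl
  | symm x y _ ih =>
    rcases ih with h | ⟨h1, h2⟩
    · exact Or.inl h.symm
    · exact Or.inr ⟨h2, h1⟩
  | trans x y z _ _ ih1 ih2 =>
    rcases ih1 with rfl | ⟨h1, h2⟩
    · exact ih2
    · rcases ih2 with rfl | ⟨h3, h4⟩
      · exact Or.inr ⟨h1, h2⟩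
      · exact Or.inr ⟨h1, h4⟩

lemma eqvGen_mono' {α : Type*} {r s : α → α → Prop} (hs : ∀ x y, r x y → EqvGen s x y) {x y : α}
    (h : EqvGen r x y) : EqvGen s x y := by
  induction h with
  | rel x y h => exact hs _ _ h
  | refl x => exact EqvGen.refl _
  | symm x y _ ih => exact EqvGen.symm _ _ ih
  | trans x y z _ _ ih1 ih2 => exact EqvGen.trans _ _ _ ih1 ih2

/-- the number of bad loops -/
noncomputable def nb : ℕ := by
  classical exact ((univ : Finset L).filter fun a => Bad l E J a).card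

/-- the size of the connectedness relation -/
noncomputable def cc : ℕ := by
  classical exact ((univ : Finset (X × X)).filter fun p =>
    Cn v l A E D J (fun _ => True) p.1 p.2).card

/-- optimal configurations -/
structure Opt : Prop where
  cfg : Cfg v l A E u J
  max : ∀ J', Cfg v l A E u J' → J'.card ≤ J.card
  bad : ∀ J', Cfg v l A E u J' → J'.card = J.card → nb l E J ≤ nb l E J'
  con : ∀ J', Cfg v l A E u J' → J'.card = J.card → nb l E J' = nb l E J →
    cc v l A E D J' ≤ cc v l A E D J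

theorem exists_opt : ∃ J, Opt v l A E D u J := by
  classical
  have h0 : Cfg v l A E u (∅ : Finset H) := by
    refine ⟨empty_subset _, ?_, ?_, ?_⟩ <;> intros <;> simp [cnt]
  obtain ⟨J1, hJ1, hmax⟩ := exists_max_image
    ((univ : Finset (Finset H)).filter fun J => Cfg v l A E u J) (fun J => J.card)
    ⟨∅, by simp [h0]⟩
  simp only [mem_filter, mem_univ, true_and] at hJ1 hmax
  obtain ⟨J2, hJ2, hbad⟩ := exists_min_image
    ((univ : Finset (Finset H)).filter fun J => Cfg v l A E u J ∧ J.card = J1.card)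
    (fun J => nb l E J) ⟨J1, by simp [hJ1]⟩
  simp only [mem_filter, mem_univ, true_and, and_imp] at hJ2 hbad
  obtain ⟨J3, hJ3, hcon⟩ := exists_max_image
    ((univ : Finset (Finset H)).filter fun J => Cfg v l A E u J ∧ J.card = J1.card ∧
      nb l E J = nb l E J2)
    (fun J => cc v l A E D J) ⟨J2, by simp [hJ2.1, hJ2.2]⟩
  simp only [mem_filter, mem_univ, true_and, and_imp] at hJ3 hcon
  obtain ⟨h1, h2, h3⟩ := hJ3
  refine ⟨J3, h1, ?_, ?_, ?_⟩
  · intro J' hJ'
    rw [h2]; exact hmax J' hJ'
  · intro J' hJ' hc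
    rw [h3]; exact hbad J' hJ' (by rw [hc, h2])
  · intro J' hJ' hc hn
    exact hcon J' hJ' (by rw [hc, h2]) (by rw [hn, h3])

variable {v l A E D u J}

lemma not_trans_of_zero {a : L} (h : cnt l J a = 0) : ¬ Trans l E J a := by
  rintro (⟨_, h1⟩ | ⟨_, h1⟩) <;> omega

lemma not_trans_of_E {a : L} (hE : E a) (h : cnt l J a ≤ 1) : ¬ Trans l E J a := by
  rintro (⟨h0, _⟩ | ⟨_, h1⟩)
  · exact h0 hE
  · omega

lemma Bad.not_trans {a : L} (h : Bad l E J a) : ¬ Trans l E J a :=
  not_trans_of_E h.1 h.2.le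

lemma card_eq_of_cnt {J' : Finset H} (h : ∀ a, cnt l J' a = cnt l J a) : J'.card = J.card := by
  rw [← cnt_sum l J', ← cnt_sum l J]
  exact sum_congr rfl fun a _ => h a

/-- moving a deficiency -/
lemma optA1 (hopt : Opt v l A E D u J) (hE3 : ∀ a, E a → cnt l A a = 3) {z : X}
    (hz : cnt v J z < u z) {h : H} (hhA : h ∈ A) (hhJ : h ∉ J)
    (hr : Reach v l A E J z (v h))
    (hc : (¬ E (l h) ∧ cnt l J (l h) = 0) ∨ (E (l h) ∧ cnt l J (l h) ≤ 1)) : False := by
  obtain ⟨J', hJ'A, h1, h2, h3⟩ := shift' v l A E J hE3 hopt.cfg.sub hr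
  have hnt : ¬ Trans l E J (l h) := by
    rcases hc with ⟨_, h4⟩ | ⟨h4, h5⟩
    · exact not_trans_of_zero h4
    · exact not_trans_of_E h4 h5
  have hhJ' : h ∉ J' := fun hh => hhJ ((h3 h hnt).1 hh)
  have hcfg : Cfg v l A E u (insert h J') := by
    refine ⟨?_, ?_, ?_, ?_⟩
    · intro g hg
      rcases mem_insert.1 hg with rfl | hg
      · exact hhA
      · exact hJ'A hg
    · intro a ha
      rw [cnt_insert l hhJ', h1 a]
      split_ifs with hla
      · subst hla
        rcases hc with ⟨_, h4⟩ | ⟨h4, _⟩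
        · omega
        · exact absurd h4 ha
      · exact hopt.cfg.one a ha
    · intro a ha
      rw [cnt_insert l hhJ', h1 a]
      split_ifs with hla
      · subst hla
        rcases hc with ⟨h4, _⟩ | ⟨_, h4⟩
        · exact absurd ha h4
        · omega
      · exact hopt.cfg.two a ha
    · intro x
      rw [cnt_insert v hhJ', h2 x]
      split_ifs with hzx
      · subst hzx; omega
      · exact hopt.cfg.deg x
  have := hopt.max _ hcfg
  rw [card_insert_of_notMem hhJ', card_eq_of_cnt h1] at this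
  omega

/-- the configuration obtained by moving the unit `k` of a bad loop to `h` -/
lemma optMove (hopt : Opt v l A E D u J) (hE3 : ∀ a, E a → cnt l A a = 3) {k : H}
    (hkJ : k ∈ J) (hkb : Bad l E J (l k)) {h : H} (hhA : h ∈ A) (hhJ : h ∉ J)
    (hr : Reach v l A E J (v k) (v h)) (hnt : ¬ Trans l E J (l h))
    (hc : l h = l k ∨ (¬ E (l h) ∧ cnt l J (l h) = 0) ∨ (E (l h) ∧ cnt l J (l h) ≤ 1)) :
    ∃ J', Cfg v l A E u J' ∧ J'.card = J.card ∧ h ∈ J' ∧
      (∀ a, cnt l J' a + (if l k = a then 1 else 0) = cnt l J a + (if l h = a then 1 else 0)) ∧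
      (∀ g, g ≠ h → g ≠ k → ¬ Trans l E J (l g) → (g ∈ J' ↔ g ∈ J)) := by
  obtain ⟨J', hJ'A, h1, h2, h3⟩ := shift' v l A E J hE3 hopt.cfg.sub hr
  have hhJ' : h ∉ J' := fun hh => hhJ ((h3 h hnt).1 hh)
  have hkJ' : k ∈ J' := (h3 k hkb.not_trans).2 hkJ
  have hhk : h ≠ k := fun hh => hhJ (hh ▸ hkJ)
  have hh1 : h ∉ J'.erase k := fun hc => hhJ' (mem_of_mem_erase hc)
  have hl : ∀ a, cnt l (insert h (J'.erase k)) a + (if l k = a then 1 else 0) =
      cnt l J a + (if l h = a then 1 else 0) := by
    intro a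
    rw [cnt_insert l hh1]
    have := cnt_erase l hkJ' a
    rw [h1 a] at this
    omega
  have hv : ∀ x, cnt v (insert h (J'.erase k)) x = cnt v J x := by
    intro x
    rw [cnt_insert v hh1]
    have := cnt_erase v hkJ' x
    have := h2 x
    omega
  refine ⟨insert h (J'.erase k), ⟨?_, ?_, ?_, ?_⟩, ?_, mem_insert_self _ _, hl, ?_⟩
  · intro g hg
    rcases mem_insert.1 hg with rfl | hg
    · exact hhA
    · exact hJ'A (mem_of_mem_erase hg)
  · intro a ha
    have e := hl a
    have e1 := hopt.cfg.one a ha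
    by_cases hla : l h = a
    · subst hla
      rcases hc with hc | ⟨_, hc⟩ | ⟨hc, _⟩
      · exact absurd (hc ▸ hkb.1) ha
      · simp only [if_true] at e
        omega
      · exact absurd hc ha
    · rw [if_neg hla] at e
      omega
  · intro a ha
    have e := hl a
    have e1 := hopt.cfg.two a ha
    by_cases hla : l h = a
    · subst hla
      rcases hc with hc | ⟨hc, _⟩ | ⟨_, hc⟩
      · rw [if_pos rfl, if_pos hc.symm] at e
        omega
      · exact absurd ha hc
      · simp only [if_true] at e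
        omega
    · rw [if_neg hla] at e
      omega
  · intro x
    rw [hv x]; exact hopt.cfg.deg x
  · rw [← cnt_sum v (insert h (J'.erase k)), ← cnt_sum v J]
    exact sum_congr rfl fun x _ => hv x
  · intro g hgh hgk hgt
    simp only [mem_insert, mem_erase]
    rw [h3 g hgt]
    tauto

lemma optA2 (hopt : Opt v l A E D u J) (hE3 : ∀ a, E a → cnt l A a = 3) {k : H}
    (hkJ : k ∈ J) (hkb : Bad l E J (l k)) {h : H} (hhA : h ∈ A) (hhJ : h ∉ J)
    (hr : Reach v l A E J (v k) (v h)) (hne : l h ≠ l k)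
    (hc : (¬ E (l h) ∧ cnt l J (l h) = 0) ∨ Bad l E J (l h)) : False := by
  classical
  have hnt : ¬ Trans l E J (l h) := by
    rcases hc with ⟨_, h4⟩ | h4
    · exact not_trans_of_zero h4
    · exact h4.not_trans
  obtain ⟨J', hcfg, hcard, hhJ', hl, -⟩ := optMove hopt hE3 hkJ hkb hhA hhJ hr hnt
    (by rcases hc with h4 | h4
        · exact Or.inr (Or.inl h4)
        · exact Or.inr (Or.inr ⟨h4.1, h4.2.le⟩))
  have h1 := hopt.bad J' hcfg hcard
  have h2 : nb l E J' < nb l E J := by
    unfold nb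
    apply card_lt_card
    rw [ssubset_iff_of_subset]
    · refine ⟨l k, by simp [hkb], ?_⟩
      simp only [mem_filter, mem_univ, true_and]
      intro hb
      have e := hl (l k)
      rw [if_pos rfl, if_neg hne] at e
      have := hb.2
      have := hkb.2
      omega
    · intro a ha
      simp only [mem_filter, mem_univ, true_and] at ha ⊢
      have e := hl a
      have e1 := ha.2
      by_cases hk : l k = a
      · subst hk; exact hkb
      · by_cases hha : l h = a
        · subst hha
          rcases hc with ⟨h4, _⟩ | h4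
          · exact absurd ha.1 h4
          · exact h4
        · rw [if_neg hk, if_neg hha] at e
          exact ⟨ha.1, by omega⟩
  omega

lemma two_elems {α : Type*} [DecidableEq α] {f : H → α} {S : Finset H} {a : α}
    (h2 : cnt f S a = 2) {g g' h k : H} (hg : g ∈ S) (hg' : g' ∈ S) (hh : h ∈ S) (hk : k ∈ S)
    (e1 : f g = a) (e2 : f g' = a) (e3 : f h = a) (e4 : f k = a) (hne : g ≠ g') (hne' : h ≠ k) :
    (h = g ∧ k = g') ∨ (h = g' ∧ k = g) := by
  unfold cnt at h2
  have hs : ({g, g'} : Finset H) = S.filter fun h => f h = a := by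
    apply eq_of_subset_of_card_le
    · intro x hx
      rcases mem_insert.1 hx with rfl | hx
      · simp [hg, e1]
      · rw [mem_singleton.1 hx]; simp [hg', e2]
    · rw [h2, card_pair hne]
  have m1 : h ∈ ({g, g'} : Finset H) := hs ▸ (by simp [hh, e3])
  have m2 : k ∈ ({g, g'} : Finset H) := hs ▸ (by simp [hk, e4])
  simp only [mem_insert, mem_singleton] at m1 m2
  rcases m1 with rfl | rfl <;> rcases m2 with rfl | rfl
  · exact absurd rfl hne'
  · exact Or.inl ⟨rfl, rfl⟩
  · exact Or.inr ⟨rfl, rfl⟩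
  · exact absurd rfl hne'

lemma third_elem {α : Type*} [DecidableEq α] {f : H → α} {S : Finset H} {a : α}
    (h3 : cnt f S a = 3) (h k : H) : ∃ g ∈ S, f g = a ∧ g ≠ h ∧ g ≠ k := by
  unfold cnt at h3
  by_contra hcon
  push Not at hcon
  have hs : (S.filter fun h => f h = a) ⊆ {h, k} := by
    intro x hx
    simp only [mem_filter] at hx
    simp only [mem_insert, mem_singleton]
    by_cases hxh : x = h
    · exact Or.inl hxh
    · exact Or.inr (hcon x hx.1 hx.2 hxh)
  have := card_le_card hs
  have := card_le_two (a := h) (b := k)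
  omega

/-- non-bridges among the bad loops -/
def NB (v : H → X) (l : H → L) (A : Finset H) (E D : L → Prop) (J : Finset H) (b : L) : Prop :=
  ∃ g ∈ A, ∃ g' ∈ A, g ∉ J ∧ g' ∉ J ∧ g ≠ g' ∧ l g = b ∧ l g' = b ∧
    Cn v l A E D J (fun a => a ≠ b) (v g) (v g')

lemma link_not_trans (hDE : ∀ a, D a → ¬ E a) {a : L} {x y : X} (h : Link v l A E D J a x y) :
    ¬ Trans l E J a := by
  obtain ⟨_, _, _, _, _, _, _, _, _, _, _, h5⟩ := h
  rcases h5 with ⟨_, h5⟩ | h5
  · exact not_trans_of_zero h5
  · exact h5.not_trans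

lemma optA3 (hopt : Opt v l A E D u J) (hE3 : ∀ a, E a → cnt l A a = 3)
    (hDE : ∀ a, D a → ¬ E a) {k : H}
    (hkJ : k ∈ J) (hkb : Bad l E J (l k)) (hnb : NB v l A E D J (l k)) {h : H} (hhA : h ∈ A)
    (hhJ : h ∉ J) (hr : Reach v l A E J (v k) (v h))
    (hc : l h = l k ∨ (E (l h) ∧ cnt l J (l h) = 0)) {g1 g2 : H} (hg1 : g1 ∈ A) (hg2 : g2 ∈ A)
    (hg1h : g1 ≠ h) (hg2h : g2 ≠ h) (hg12 : g1 ≠ g2) (hl1 : l g1 = l h) (hl2 : l g2 = l h) :
    Cn v l A E D J (fun a => a ≠ l k) (v g1) (v g2) := by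
  classical
  have hEh : E (l h) := by
    rcases hc with h4 | ⟨h4, _⟩
    · rw [h4]; exact hkb.1
    · exact h4
  have hch : cnt l J (l h) ≤ 1 := by
    rcases hc with h4 | ⟨_, h4⟩
    · rw [h4]; exact hkb.2.le
    · omega
  have hnt : ¬ Trans l E J (l h) := not_trans_of_E hEh hch
  obtain ⟨J', hcfg, hcard, hhJ', hl, hg⟩ := optMove hopt hE3 hkJ hkb hhA hhJ hr hnt
    (Or.inr (Or.inr ⟨hEh, hch⟩))
  have hch' : cnt l J' (l h) = 1 := by
    have e := hl (l h)
    rw [if_pos rfl] at e
    rcases hc with h4 | ⟨_, h4⟩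
    · rw [if_pos h4.symm, h4, hkb.2] at e
      rw [h4]; omega
    · have : l k ≠ l h := fun hh => by
        have := hkb.2
        rw [hh] at this; omega
      rw [if_neg this] at e
      omega
  have hbad' : Bad l E J' (l h) := ⟨hEh, hch'⟩
  -- the number of bad loops
  have hnbc : nb l E J' = nb l E J := by
    apply le_antisymm _ (hopt.bad J' hcfg hcard)
    rcases hc with h4 | ⟨_, h4⟩
    · unfold nb
      apply card_le_card
      intro a ha
      simp only [mem_filter, mem_univ, true_and] at ha ⊢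
      have e := hl a
      rw [h4] at e
      exact ⟨ha.1, by have := ha.2; omega⟩
    · have hne : l k ≠ l h := fun hh => by
        have := hkb.2
        rw [hh] at this; omega
      unfold nb
      have hsub : (univ.filter fun a => Bad l E J' a) ⊆
          insert (l h) ((univ.filter fun a => Bad l E J a).erase (l k)) := by
        intro a ha
        simp only [mem_filter, mem_univ, true_and] at ha
        simp only [mem_insert, mem_erase, mem_filter, mem_univ, true_and]
        have e := hl a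
        by_cases hha : l h = a
        · exact Or.inl hha.symm
        · right
          rw [if_neg hha] at e
          have e1 := ha.2
          by_cases hka : l k = a
          · exfalso
            rw [if_pos hka] at e
            have e2 := hkb.2
            rw [hka] at e2
            omega
          · rw [if_neg hka] at e
            exact ⟨fun hh => hka hh.symm, ha.1, by omega⟩
      have h1 := card_le_card hsub
      rw [card_insert_of_notMem, card_erase_of_mem] at h1
      · have : 0 < (univ.filter fun a => Bad l E J a).card :=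
          card_pos.2 ⟨l k, by simp [hkb]⟩
        omega
      · simp [hkb]
      · simp only [mem_erase, mem_filter, mem_univ, true_and, not_and]
        intro _ hb
        have := hb.2
        omega
  -- comparison of the graphs
  have hmono1 : ∀ x y, Cn v l A E D J (fun _ => True) x y →
      Cn v l A E D J (fun a => a ≠ l k) x y := by
    intro x y hxy
    refine eqvGen_mono' ?_ hxy
    rintro x y ⟨a, -, hlk⟩
    by_cases ha : a = l k
    · subst ha
      obtain ⟨g, hgA, g', hgA', hgJ, hgJ', hgg, hgl, hgl', hcn⟩ := hnb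
      obtain ⟨p, hpA, q, hqA, hpJ, hqJ, hpq, hp, hq, rfl, rfl, -⟩ := hlk
      have h2 : cnt l (A \ J) (l k) = 2 := by
        have := cnt_sdiff l hopt.cfg.sub (l k)
        rw [hE3 _ hkb.1, hkb.2] at this
        omega
      rcases two_elems h2 (g := g) (g' := g') (h := p) (k := q) (by simp [hgA, hgJ])
        (by simp [hgA', hgJ']) (by simp [hpA, hpJ]) (by simp [hqA, hqJ]) hgl hgl' hp hq hgg hpq
        with ⟨rfl, rfl⟩ | ⟨rfl, rfl⟩
      · exact hcn
      · exact EqvGen.symm _ _ hcn
    · exact EqvGen.rel _ _ ⟨a, ha, hlk⟩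
  have hmono2 : ∀ x y, Cn v l A E D J (fun a => a ≠ l k) x y →
      Cn v l A E D J' (fun _ => True) x y := by
    intro x y hxy
    refine eqvGen_mono' ?_ hxy
    rintro x y ⟨a, ha, hlk⟩
    apply EqvGen.rel
    refine ⟨a, trivial, ?_⟩
    have hta := link_not_trans hDE hlk
    obtain ⟨p, hpA, q, hqA, hpJ, hqJ, hpq, hp, hq, hx, hy, h5⟩ := hlk
    have hah : a ≠ l h := by
      rintro rfl
      rcases hc with h4 | ⟨h4, h4'⟩
      · exact ha h4
      · rcases h5 with ⟨h5, _⟩ | h5
        · exact hDE _ h5 h4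
        · have := h5.2
          omega
    have hcn : cnt l J' a = cnt l J a := by
      have e := hl a
      rw [if_neg (Ne.symm ha), if_neg (Ne.symm hah)] at e
      omega
    refine ⟨p, hpA, q, hqA, ?_, ?_, hpq, hp, hq, hx, hy, ?_⟩
    · rw [hg p (fun hh => hah (by rw [← hp, hh])) (fun hh => ha (by rw [← hp, hh]))
        (hp ▸ hta)]
      exact hpJ
    · rw [hg q (fun hh => hah (by rw [← hq, hh])) (fun hh => ha (by rw [← hq, hh]))
        (hq ▸ hta)]
      exact hqJ
    · rcases h5 with ⟨h5, h6⟩ | h5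
      · exact Or.inl ⟨h5, by rw [hcn]; exact h6⟩
      · exact Or.inr ⟨h5.1, by rw [hcn]; exact h5.2⟩
  by_contra hcon
  have hlink : Link v l A E D J' (l h) (v g1) (v g2) := by
    refine ⟨g1, hg1, g2, hg2, ?_, ?_, hg12, hl1, hl2, rfl, rfl, Or.inr hbad'⟩
    · intro hh
      exact hg1h (cnt_eq_one l hch' hh hhJ' hl1 rfl)
    · intro hh
      exact hg2h (cnt_eq_one l hch' hh hhJ' hl2 rfl)
  have hlt : cc v l A E D J < cc v l A E D J' := by
    unfold cc
    apply card_lt_card
    rw [ssubset_iff_of_subset]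
    · refine ⟨(v g1, v g2), ?_, ?_⟩
      · simp only [mem_filter, mem_univ, true_and]
        exact EqvGen.rel _ _ ⟨l h, trivial, hlink⟩
      · simp only [mem_filter, mem_univ, true_and]
        intro hh
        exact hcon (hmono1 _ _ hh)
    · intro p hp
      simp only [mem_filter, mem_univ, true_and] at hp ⊢
      exact hmono2 _ _ (hmono1 _ _ hp)
  have := hopt.con J' hcfg hcard hnbc
  omega

end

end C90.TwoStep
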