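import Pool.Agent.C90.Exch

set_option linter.unusedSectionVars false

/-!
# The packaged exchange lemma (MP_c90cf1_co)
-/

namespace C90.TwoStep

open Finset Relation

variable {X L H : Type*} [Fintype X] [DecidableEq X] [Fintype L] [DecidableEq L]
  [Fintype H] [DecidableEq H]

variable {v : H → X} {l : H → L} {A : Finset H} {E D : L → Prop} {u : X → ℕ} {J : Finset H}

/-- the start vertices -/
def Start (v : H → X) (l : H → L) (A : Finset H) (E D : L → Prop) (u : X → ℕ) (J : Finset H)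
    (z : X) : Prop :=
  cnt v J z < u z ∨ ∃ k ∈ J, v k = z ∧ Bad l E J (l k) ∧ NB v l A E D J (l k)

/-- the set to be flipped -/
def TT (v : H → X) (l : H → L) (A : Finset H) (E D : L → Prop) (u : X → ℕ) (J : Finset H)
    (y : X) : Prop :=
  ∃ z, Start v l A E D u J z ∧ Reach v l A E J z y

lemma TT.a (hopt : Opt v l A E D u J) (hE3 : ∀ a, E a → cnt l A a = 3) {h : H} (hhA : h ∈ A)
    (hE : ¬ E (l h)) (hc : cnt l J (l h) = 0) (hT : TT v l A E D u J (v h)) : False := by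
  have hhJ : h ∉ J := fun hh => by
    have := cnt_pos l hh
    omega
  obtain ⟨z, hz | ⟨k, hk, rfl, hb, -⟩, hr⟩ := hT
  · exact optA1 hopt hE3 hz hhA hhJ hr (Or.inl ⟨hE, hc⟩)
  · exact optA2 hopt hE3 hk hb hhA hhJ hr (fun hh => hE (hh ▸ hb.1)) (Or.inl ⟨hE, hc⟩)

lemma link_from (hopt : Opt v l A E D u J) (hE3 : ∀ a, E a → cnt l A a = 3)
    {b : L} {x y : X} (hxy : x ≠ y)
    (h : Cn v l A E D J (fun a => a ≠ b) x y) :
    ∃ h ∈ A, h ∉ J ∧ v h = x ∧ l h ≠ b ∧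
      ((D (l h) ∧ cnt l J (l h) = 0) ∨ Bad l E J (l h)) := by
  have hs : ∀ x y, (∃ a, a ≠ b ∧ Link v l A E D J a x y) →
      ∃ a, a ≠ b ∧ Link v l A E D J a y x := by
    rintro x y ⟨a, ha, hl⟩
    exact ⟨a, ha, hl.symm⟩
  rcases eqvGen_exists hs h with h1 | ⟨⟨z, a, ha, hl⟩, -⟩
  · exact absurd h1 hxy
  · obtain ⟨p, hpA, q, hqA, hpJ, hqJ, hpq, hp, hq, hx, hy, h5⟩ := hl
    subst hp
    exact ⟨p, hpA, hpJ, hx, ha, h5⟩

lemma TT.b (hopt : Opt v l A E D u J) (hE3 : ∀ a, E a → cnt l A a = 3)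
    (hEi : ∀ h ∈ A, ∀ h' ∈ A, E (l h) → l h = l h' → v h = v h' → h = h')
    (hDE : ∀ a, D a → ¬ E a) {h : H} (hhA : h ∈ A)
    (hhJ : h ∉ J) (hB : Bad l E J (l h)) (hT : TT v l A E D u J (v h)) : False := by
  obtain ⟨z, hz | ⟨k, hk, rfl, hb, hnb⟩, hr⟩ := hT
  · exact optA1 hopt hE3 hz hhA hhJ hr (Or.inr ⟨hB.1, hB.2.le⟩)
  · by_cases hlk : l h = l k
    · obtain ⟨g, hg, hgl, hgk, hgh⟩ := third_elem (hE3 _ hb.1) k h
      have hkh : k ≠ h := fun hh => hhJ (hh ▸ hk)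
      have h3 := optA3 hopt hE3 hDE hk hb hnb hhA hhJ hr (Or.inl hlk)
        (g1 := k) (g2 := g) (hopt.cfg.sub hk) hg hkh hgh hgk.symm hlk.symm
        (by rw [hgl, hlk])
      have hvne : v k ≠ v g := fun hh =>
        hgk (hEi k (hopt.cfg.sub hk) g hg hb.1 hgl.symm hh).symm
      obtain ⟨p, hpA, hpJ, hvp, hlp, h5⟩ := link_from hopt hE3 hvne h3
      refine optA2 hopt hE3 hk hb hpA hpJ (hvp ▸ Reach.refl v l A E J _) hlp ?_
      rcases h5 with ⟨h5, h6⟩ | h5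
      · exact Or.inl ⟨hDE _ h5, h6⟩
      · exact Or.inr h5
    · exact optA2 hopt hE3 hk hb hhA hhJ hr hlk (Or.inr hB)

lemma TT.c (hopt : Opt v l A E D u J) (hE3 : ∀ a, E a → cnt l A a = 3)
    (hEi : ∀ h ∈ A, ∀ h' ∈ A, E (l h) → l h = l h' → v h = v h' → h = h')
    (hDE : ∀ a, D a → ¬ E a) {h h' : H} (hhA : h ∈ A) (hhA' : h' ∈ A) (hne : h ≠ h')
    (hl : l h = l h') (hE : E (l h)) (hc : cnt l J (l h) = 0)
    (hT : TT v l A E D u J (v h)) (hT' : TT v l A E D u J (v h')) : False := by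
  have hhJ : h ∉ J := fun hh => by
    have := cnt_pos l hh
    omega
  obtain ⟨z, hz | ⟨k, hk, rfl, hb, hnb⟩, hr⟩ := hT
  · exact optA1 hopt hE3 hz hhA hhJ hr (Or.inr ⟨hE, by omega⟩)
  · obtain ⟨g, hg, hgl, hgh, hgh'⟩ := third_elem (hE3 _ hE) h h'
    have h3 := optA3 hopt hE3 hDE hk hb hnb hhA hhJ hr (Or.inr ⟨hE, hc⟩)
      (g1 := h') (g2 := g) hhA' hg hne.symm hgh hgh'.symm hl.symm hgl
    have hvne : v h' ≠ v g := fun hh =>
      hgh' (hEi h' hhA' g hg (hl ▸ hE) (by rw [hgl, hl]) hh).symm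
    obtain ⟨p, hpA, hpJ, hvp, hlp, h5⟩ := link_from hopt hE3 hvne h3
    rw [← hvp] at hT'
    rcases h5 with ⟨h5, h6⟩ | h5
    · exact TT.a hopt hE3 hpA (hDE _ h5) h6 hT'
    · exact TT.b hopt hE3 hEi hDE hpA hpJ h5 hT'

/-- potentials exist if the bad loops in `S` are bridges -/
theorem potential {G : Type*} [AddCommGroup G] (hDE : ∀ a, D a → ¬ E a)
    (hJA : J ⊆ A) (hE3 : ∀ a, E a → cnt l A a = 3)
    (g : H → H → G) (hg : ∀ h k, g k h = - g h k) (S : Finset L)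
    (hS : ∀ b ∈ S, Bad l E J b ∧ ¬ NB v l A E D J b) :
    ∃ δ : X → G, (∀ a x y, D a → Link v l A E D J a x y → δ x = δ y) ∧
      ∀ h ∈ A, ∀ k ∈ A, h ∉ J → k ∉ J → h ≠ k → l h = l k → l h ∈ S →
        δ (v k) - δ (v h) = g h k := by
  classical
  induction S using Finset.induction_on with
  | empty =>
    exact ⟨fun _ => 0, fun _ _ _ _ _ => rfl, by intro h _ k _ _ _ _ _ h7; simp at h7⟩
  | insert b S hbS ih =>
    obtain ⟨δ, h1, h2⟩ := ih fun a ha => hS a (mem_insert_of_mem ha)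
    obtain ⟨hb, hnb⟩ := hS b (mem_insert_self _ _)
    have h2c : cnt l (A \ J) b = 2 := by
      have := cnt_sdiff l hJA b
      rw [hE3 _ hb.1, hb.2] at this
      omega
    obtain ⟨p, q, hpq, hpqs⟩ := card_eq_two.1 (show ((A \ J).filter fun h => l h = b).card = 2
      from h2c)
    have hp : p ∈ (A \ J).filter fun h => l h = b := hpqs ▸ (by simp)
    have hq : q ∈ (A \ J).filter fun h => l h = b := hpqs ▸ (by simp)
    simp only [mem_filter, mem_sdiff] at hp hq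
    -- the relation generated by the other loops
    let R : X → X → Prop := EqvGen fun x y => ∃ a, (a ∈ S ∨ D a) ∧ Link v l A E D J a x y
    have hR : ¬ R (v p) (v q) := by
      intro hr
      apply hnb
      refine ⟨p, hp.1.1, q, hq.1.1, hp.1.2, hq.1.2, hpq, hp.2, hq.2, ?_⟩
      refine eqvGen_mono' ?_ hr
      rintro x y ⟨a, ha, hl⟩
      refine EqvGen.rel _ _ ⟨a, ?_, hl⟩
      rintro rfl
      rcases ha with ha | ha
      · exact hbS ha
      · exact hDE _ ha hb.1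
    let t : G := g p q - (δ (v q) - δ (v p))
    refine ⟨fun x => δ x + if R (v q) x then t else 0, ?_, ?_⟩
    · intro a x y ha hl
      have e : R (v q) x ↔ R (v q) y := by
        have hxy : R x y := EqvGen.rel _ _ ⟨a, Or.inr ha, hl⟩
        exact ⟨fun h => EqvGen.trans _ _ _ h hxy, fun h => EqvGen.trans _ _ _ h (EqvGen.symm _ _ hxy)⟩
      simp only [e, h1 a x y ha hl]
    · intro h hhA k hkA hhJ hkJ hhk hlk hhS
      rcases mem_insert.1 hhS with hhb | hhS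
      · have hkb : l k = b := hlk ▸ hhb
        rcases two_elems h2c (g := p) (g' := q) (h := h) (k := k) (by simp [hp.1])
          (by simp [hq.1]) (by simp [hhA, hhJ]) (by simp [hkA, hkJ]) hp.2 hq.2 hhb hkb hpq hhk
          with ⟨rfl, rfl⟩ | ⟨rfl, rfl⟩
        · have e1 : R (v k) (v k) := EqvGen.refl _
          have e2 : ¬ R (v k) (v h) := fun hh => hR (EqvGen.symm _ _ hh)
          simp only [if_pos e1, if_neg e2, t]
          abel
        · have e1 : R (v h) (v h) := EqvGen.refl _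
          have e2 : ¬ R (v h) (v k) := fun hh => hR (EqvGen.symm _ _ hh)
          simp only [if_pos e1, if_neg e2, t]
          rw [hg k h]
          abel
      · have hl : Link v l A E D J (l h) (v h) (v k) :=
          ⟨h, hhA, k, hkA, hhJ, hkJ, hhk, rfl, hlk.symm, rfl, rfl,
            Or.inr (hS _ (mem_insert_of_mem hhS)).1⟩
        have e : R (v q) (v h) ↔ R (v q) (v k) := by
          have hxy : R (v h) (v k) := EqvGen.rel _ _ ⟨l h, Or.inl hhS, hl⟩
          exact ⟨fun h => EqvGen.trans _ _ _ h hxy,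
            fun h => EqvGen.trans _ _ _ h (EqvGen.symm _ _ hxy)⟩
        have := h2 h hhA k hkA hhJ hkJ hhk hlk hhS
        simp only [e, ← this]
        abel

/-- **The exchange lemma.** -/
theorem exch {G : Type*} [AddCommGroup G] (v : H → X) (l : H → L) (A : Finset H)
    (E D : L → Prop) (u : X → ℕ) (hE3 : ∀ a, E a → cnt l A a = 3)
    (hEi : ∀ h ∈ A, ∀ h' ∈ A, E (l h) → l h = l h' → v h = v h' → h = h')
    (hDE : ∀ a, D a → ¬ E a) :
    ∃ (J : Finset H) (T : X → Prop), Cfg v l A E u J ∧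
      (∀ J', Cfg v l A E u J' → J'.card ≤ J.card) ∧
      (∀ x, cnt v J x < u x → T x) ∧
      (∀ h ∈ A, h ∉ J → T (v h) → Trans l E J (l h) → ∀ k ∈ J, l k = l h → T (v k)) ∧
      (∀ h ∈ A, ¬ E (l h) → cnt l J (l h) = 0 → ¬ T (v h)) ∧
      (∀ h ∈ A, h ∉ J → Bad l E J (l h) → ¬ T (v h)) ∧
      (∀ h ∈ A, ∀ h' ∈ A, h ≠ h' → l h = l h' → E (l h) → cnt l J (l h) = 0 →
        T (v h) → ¬ T (v h')) ∧
      ∀ g : H → H → G, (∀ h k, g k h = - g h k) → ∃ δ : X → G,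
        (∀ h ∈ A, ∀ k ∈ A, D (l h) → l h = l k → cnt l J (l h) = 0 → δ (v h) = δ (v k)) ∧
        (∀ h ∈ A, ∀ k ∈ A, h ∉ J → k ∉ J → h ≠ k → l h = l k → Bad l E J (l h) →
          (∀ j ∈ J, l j = l h → ¬ T (v j)) → δ (v k) - δ (v h) = g h k) := by
  classical
  obtain ⟨J, hopt⟩ := exists_opt v l A E D u
  refine ⟨J, TT v l A E D u J, hopt.cfg, hopt.max, ?_, ?_, ?_, ?_, ?_, ?_⟩
  · intro x hx
    exact ⟨x, Or.inl hx, Reach.refl v l A E J x⟩
  · rintro h hhA hhJ ⟨z, hz, hr⟩ ht k hk hlk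
    exact ⟨z, hz, hr.step v l A E J ⟨h, hhA, hhJ, k, hk, hlk.symm, ht, rfl, rfl⟩⟩
  · intro h hhA hE hc hT
    exact TT.a hopt hE3 hhA hE hc hT
  · intro h hhA hhJ hB hT
    exact TT.b hopt hE3 hEi hDE hhA hhJ hB hT
  · intro h hhA h' hhA' hne hl hE hc hT hT'
    exact TT.c hopt hE3 hEi hDE hhA hhA' hne hl hE hc hT hT'
  · intro g hg
    obtain ⟨δ, h1, h2⟩ := potential (v := v) (l := l) (A := A) (E := E) (D := D) (J := J)
      hDE hopt.cfg.sub hE3 g hg
      (univ.filter fun b => Bad l E J b ∧ ¬ NB v l A E D J b) (by simp)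
    refine ⟨δ, ?_, ?_⟩
    · intro h hhA k hkA hD hlk hc
      by_cases hhk : h = k
      · rw [hhk]
      · refine h1 (l h) _ _ hD ⟨h, hhA, k, hkA, ?_, ?_, hhk, rfl, hlk.symm, rfl, rfl,
          Or.inl ⟨hD, hc⟩⟩
        · intro hh
          have := cnt_pos l hh
          omega
        · intro hh
          have := cnt_pos l hh
          rw [← hlk] at this
          omega
    · intro h hhA k hkA hhJ hkJ hhk hlk hB hj
      refine h2 h hhA k hkA hhJ hkJ hhk hlk ?_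
      simp only [mem_filter, mem_univ, true_and]
      refine ⟨hB, fun hnb => ?_⟩
      -- the J-end
      have hpos : 0 < cnt l J (l h) := by rw [hB.2]; omega
      obtain ⟨j, hjm⟩ := card_pos.1 hpos
      simp only [mem_filter] at hjm
      apply hj j hjm.1 hjm.2
      refine ⟨v j, Or.inr ⟨j, hjm.1, rfl, ?_, ?_⟩, Reach.refl v l A E J _⟩
      · rw [hjm.2]; exact hB
      · rw [hjm.2]; exact hnb

end C90.TwoStep
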