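import Pool.Agent.C90.Slots

/-!
# Lifting a labelling to a smaller subgroup (MP_c90cf1_co)
-/

namespace C90

open Finset

variable {G : Type*} [AddCommGroup G] {I : Type*} {V V' : AddSubgroup G}

/-- projection `G ⧸ V' → G ⧸ V` -/
def qm (hV : V' ≤ V) : G ⧸ V' →+ G ⧸ V :=
  QuotientAddGroup.map V' V (AddMonoidHom.id G) (by simpa using hV)

@[simp] theorem qm_mk (hV : V' ≤ V) (g : G) : qm hV (g : G ⧸ V') = (g : G ⧸ V) := rfl

theorem qm_eq_zero (hV : V' ≤ V) {x : G ⧸ V'} (h : qm hV x = 0) :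
    ∃ v ∈ V, x = ((v : G) : G ⧸ V') := by
  obtain ⟨g, rfl⟩ := QuotientAddGroup.mk_surjective x
  exact ⟨g, (QuotientAddGroup.eq_zero_iff g).1 h, rfl⟩

/-- projection of slots -/
def qs (hV : V' ≤ V) (h : Slot V' I) : Slot V I := (qm hV h.1, h.2)

@[simp] theorem qs_snd (hV : V' ≤ V) (h : Slot V' I) : (qs hV h).2 = h.2 := rfl
@[simp] theorem qs_fst (hV : V' ≤ V) (h : Slot V' I) : (qs hV h).1 = qm hV h.1 := rfl

/-- deck translations -/
def tr (v : G) (h : Slot V' I) : Slot V' I := (h.1 + ((v : G) : G ⧸ V'), h.2)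

@[simp] theorem tr_snd (v : G) (h : Slot V' I) : (tr v h).2 = h.2 := rfl
@[simp] theorem tr_fst (v : G) (h : Slot V' I) : (tr v h).1 = h.1 + ((v : G) : G ⧸ V') := rfl

theorem tr_tr (v w : G) (h : Slot V' I) : tr v (tr w h) = tr (w + v) h := by
  simp [tr, add_assoc]

theorem tr_congr {v w : G} (h : Slot V' I) (e : v - w ∈ V') : tr v h = tr w h := by
  unfold tr
  congr 2
  have := (QuotientAddGroup.eq_zero_iff (N := V') (v - w)).2 e
  rw [QuotientAddGroup.mk_sub, sub_eq_zero] at this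
  exact this

@[simp] theorem tr_zero (h : Slot V' I) : tr (0 : G) h = h := by simp [tr]

theorem tr_eq_self {v : G} (h : Slot V' I) (e : v ∈ V') : tr v h = h := by
  have := tr_congr (v := v) (w := 0) h (by simpa using e)
  simpa using this

theorem tr_inj {v w : G} {h : Slot V' I} (e : tr v h = tr w h) : v - w ∈ V' := by
  have := congrArg Prod.fst e
  simp only [tr_fst, add_right_inj] at this
  rw [← QuotientAddGroup.eq_zero_iff (N := V'), QuotientAddGroup.mk_sub, this, sub_self]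

theorem qs_tr (hV : V' ≤ V) {v : G} (hv : v ∈ V) (h : Slot V' I) : qs hV (tr v h) = qs hV h := by
  unfold qs tr
  simp only [map_add, qm_mk, Prod.mk.injEq, and_true]
  rw [(QuotientAddGroup.eq_zero_iff v).2 hv, add_zero]

theorem exists_tr (hV : V' ≤ V) {h g : Slot V' I} (e : qs hV h = qs hV g) :
    ∃ v ∈ V, g = tr v h := by
  have h1 : qm hV (g.1 - h.1) = 0 := by
    rw [map_sub, sub_eq_zero]; exact (congrArg Prod.fst e).symm
  obtain ⟨v, hv, e1⟩ := qm_eq_zero hV h1
  refine ⟨v, hv, Prod.ext ?_ ?_⟩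
  · rw [tr_fst, ← e1]; abel
  · exact (congrArg Prod.snd e).symm

theorem qs_surj (hV : V' ≤ V) (h : Slot V I) : ∃ h' : Slot V' I, qs hV h' = h := by
  obtain ⟨g, hg⟩ := QuotientAddGroup.mk_surjective h.1
  exact ⟨((g : G ⧸ V'), h.2), Prod.ext hg rfl⟩

namespace Lab

variable (L : Lab V I) (hV : V' ≤ V)

/-- the lifted labelling -/
def lift : Lab V' I where
  lab h := L.lab (qs hV h)
  inj k := by
    intro x y h
    simp only at h
    have h1 := congrArg (qm hV) h
    simp only [map_add, qm_mk] at h1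
    have h2 : qm hV x = qm hV y := L.inj k h1
    have h3 : qs (I := I) hV (x, k) = qs hV (y, k) := Prod.ext h2 rfl
    rw [h3] at h
    exact add_right_cancel h

@[simp] theorem lift_lab (h : Slot V' I) : (L.lift hV).lab h = L.lab (qs hV h) := rfl

@[simp] theorem lift_val (h : Slot V' I) : (L.lift hV).val h = L.val (qs hV h) := rfl

theorem qm_tail (h : Slot V' I) : qm hV ((L.lift hV).tail h) = L.tail (qs hV h) := by
  unfold tail
  simp only [qs_snd]
  by_cases hk : h.2.2 = true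
  · simp [hk]
  · simp [hk]

theorem tail_tr {v : G} (hv : v ∈ V) (h : Slot V' I) :
    (L.lift hV).tail (tr v h) = (L.lift hV).tail h + ((v : G) : G ⧸ V') := by
  unfold tail
  simp only [tr_snd, tr_fst, lift_lab, qs_tr hV hv]
  split_ifs
  · rfl
  · abel

variable [Finite G] [Finite I]

theorem qs_σ (h : Slot V' I) : qs hV ((L.lift hV).σ h) = L.σ (qs hV h) := by
  symm
  apply L.σ_unique
  · rw [← qm_tail, tail_σ, map_add, qm_tail]
    rfl
  · rw [qs_snd, σ_snd, qs_snd]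

theorem qs_pow (h : Slot V' I) (n : ℕ) :
    qs hV (((L.lift hV).σ ^ n) h) = (L.σ ^ n) (qs hV h) := by
  induction n with
  | zero => simp
  | succ n ih => rw [pow_succ', Equiv.Perm.mul_apply, qs_σ, ih, pow_succ', Equiv.Perm.mul_apply]

theorem lift_S (h : Slot V' I) (n : ℕ) : (L.lift hV).S h n = L.S (qs hV h) n := by
  unfold S
  apply sum_congr rfl
  intro j _
  rw [lift_val, qs_pow]

theorem σ_tr {v : G} (hv : v ∈ V) (h : Slot V' I) :
    (L.lift hV).σ (tr v h) = tr v ((L.lift hV).σ h) := by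
  apply σ_unique
  · rw [tail_tr _ _ hv, tail_tr _ _ hv, tail_σ, lift_val, lift_val, qs_tr hV hv]
    abel
  · simp [σ_snd]

theorem pow_tr {v : G} (hv : v ∈ V) (h : Slot V' I) (n : ℕ) :
    ((L.lift hV).σ ^ n) (tr v h) = tr v (((L.lift hV).σ ^ n) h) := by
  induction n with
  | zero => simp
  | succ n ih =>
    rw [pow_succ', Equiv.Perm.mul_apply, ih, σ_tr _ _ hv]
    rfl

/-- going once around the base cycle translates by the holonomy -/
theorem pow_N_lift (h : Slot V' I) :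
    ((L.lift hV).σ ^ L.N (qs hV h)) h = tr (L.W (qs hV h)) h := by
  have e : qs hV h = qs hV (((L.lift hV).σ ^ L.N (qs hV h)) h) := by
    rw [qs_pow, pow_N]
  have h1 := (L.lift hV).tail_pow h (L.N (qs hV h))
  rw [lift_S] at h1
  obtain ⟨v, hv, e1⟩ := exists_tr hV e
  rw [e1, tail_tr _ _ hv] at h1
  have h2 := add_left_cancel h1
  rw [e1]
  apply tr_congr
  rw [← QuotientAddGroup.eq_zero_iff (N := V'), QuotientAddGroup.mk_sub, h2]
  simp [W]

theorem pow_mul_N_lift (h : Slot V' I) (j : ℕ) :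
    ((L.lift hV).σ ^ (j * L.N (qs hV h))) h = tr (j • L.W (qs hV h)) h := by
  induction j with
  | zero => simp
  | succ j ih =>
    rw [Nat.succ_mul, add_comm, pow_add, Equiv.Perm.mul_apply, ih,
      pow_tr _ _ (V.nsmul_mem (L.W_mem _) _), pow_N_lift, tr_tr, succ_nsmul']

theorem S_mul_N (h : Slot V I) (j : ℕ) : L.S h (j * L.N h) = j • L.W h := by
  induction j with
  | zero => simp
  | succ j ih =>
    rw [Nat.succ_mul, S_add, ih, succ_nsmul]
    congr 1
    have : (L.σ ^ (j * L.N h)) h = h := (L.pow_eq_iff h _).2 (Dvd.intro_left _ rfl)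
    rw [this, W]

/-- initial sums: adding full rounds -/
theorem S_add_mul_N (h : Slot V I) (n j : ℕ) : L.S h (n + j * L.N h) = L.S h n + j • L.W h := by
  rw [add_comm, S_add, S_mul_N]
  have : (L.σ ^ (j * L.N h)) h = h := (L.pow_eq_iff h _).2 (Dvd.intro_left _ rfl)
  rw [this, add_comm]

/-! ### closed cycles -/

theorem N_dvd_lift (h : Slot V' I) : L.N (qs hV h) ∣ (L.lift hV).N h := by
  rw [← pow_eq_iff, ← qs_pow, pow_N]

theorem N_closed {h : Slot V' I} (hc : L.W (qs hV h) ∈ V') : (L.lift hV).N h = L.N (qs hV h) := by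
  apply Nat.dvd_antisymm _ (L.N_dvd_lift hV h)
  rw [← pow_eq_iff, pow_N_lift, tr_eq_self _ hc]

theorem sameCycle_qs {h g : Slot V' I} (hc : (L.lift hV).σ.SameCycle h g) :
    L.σ.SameCycle (qs hV h) (qs hV g) := by
  obtain ⟨n, -, rfl⟩ := ((L.lift hV).sameCycle_iff h g).1 hc
  rw [qs_pow]
  exact ⟨n, by simp⟩

/-- in a closed cycle a lifted slot is determined by its projection -/
theorem eq_of_closed {h g g' : Slot V' I} (hc : L.W (qs hV h) ∈ V')
    (h1 : (L.lift hV).σ.SameCycle h g) (h2 : (L.lift hV).σ.SameCycle h g')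
    (e : qs hV g = qs hV g') : g = g' := by
  obtain ⟨m, hm, rfl⟩ := ((L.lift hV).sameCycle_iff h g).1 h1
  obtain ⟨n, hn, rfl⟩ := ((L.lift hV).sameCycle_iff h g').1 h2
  rw [qs_pow, qs_pow] at e
  rw [L.N_closed hV hc] at hm hn
  rw [L.pow_inj hm hn e]

/-- every slot of the base cycle has a lift in the given cycle -/
theorem exists_lift (h : Slot V' I) {g : Slot V I} (hc : L.σ.SameCycle (qs hV h) g) :
    ∃ g', (L.lift hV).σ.SameCycle h g' ∧ qs hV g' = g := by
  obtain ⟨n, -, rfl⟩ := (L.sameCycle_iff _ _).1 hc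
  refine ⟨((L.lift hV).σ ^ n) h, ⟨n, by simp⟩, L.qs_pow hV h n⟩

end Lab

/-! ### prime index -/

/-- `V'` has index `p` in `V`; the coset of `a ∈ V` is `f a` -/
structure Ind (V V' : AddSubgroup G) (p : ℕ) where
  le : V' ≤ V
  f : G → ZMod p
  add : ∀ a ∈ V, ∀ b ∈ V, f (a + b) = f a + f b
  ker : ∀ a ∈ V, (f a = 0 ↔ a ∈ V')
  one : ∃ a ∈ V, f a = 1

namespace Ind

variable {p : ℕ} (D : Ind V V' p)

include D in
theorem zero : D.f 0 = 0 := (D.ker 0 V.zero_mem).2 V'.zero_mem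

theorem neg {a : G} (ha : a ∈ V) : D.f (-a) = - D.f a := by
  have := D.add a ha (-a) (V.neg_mem ha)
  rw [add_neg_cancel, D.zero] at this
  exact (neg_eq_of_add_eq_zero_right this.symm).symm

theorem sub {a b : G} (ha : a ∈ V) (hb : b ∈ V) : D.f (a - b) = D.f a - D.f b := by
  rw [sub_eq_add_neg, D.add a ha _ (V.neg_mem hb), D.neg hb, sub_eq_add_neg]

theorem nsmul {a : G} (ha : a ∈ V) (n : ℕ) : D.f (n • a) = n • D.f a := by
  induction n with
  | zero => simp [D.zero]
  | succ n ih => rw [succ_nsmul, succ_nsmul, D.add _ (V.nsmul_mem ha n) _ ha, ih]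

theorem sum {α : Type*} (s : Finset α) (F : α → G) (hF : ∀ a ∈ s, F a ∈ V) :
    D.f (∑ a ∈ s, F a) = ∑ a ∈ s, D.f (F a) := by
  classical
  induction s using Finset.induction_on with
  | empty => simp [D.zero]
  | insert a s ha ih =>
    rw [sum_insert ha, sum_insert ha, D.add _ (hF a (mem_insert_self a s)),
      ih fun b hb => hF b (mem_insert_of_mem hb)]
    exact V.sum_mem fun b hb => hF b (mem_insert_of_mem hb)

theorem eq_iff {a b : G} (ha : a ∈ V) (hb : b ∈ V) : D.f a = D.f b ↔ a - b ∈ V' := by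
  rw [← D.ker _ (V.sub_mem ha hb), D.sub ha hb, sub_eq_zero]

theorem exists_rep [NeZero p] (c : ZMod p) : ∃ a ∈ V, D.f a = c := by
  obtain ⟨a, ha, h1⟩ := D.one
  refine ⟨c.val • a, V.nsmul_mem ha _, ?_⟩
  rw [D.nsmul ha, h1]
  simp

end Ind

namespace Lab

variable (L : Lab V I) [Finite G] [Finite I] {p : ℕ} (D : Ind V V' p)

theorem sameCycle_open [Fact p.Prime] {h g : Slot V' I} (ho : L.W (qs D.le h) ∉ V')
    (hc : L.σ.SameCycle (qs D.le h) (qs D.le g)) : (L.lift D.le).σ.SameCycle h g := by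
  obtain ⟨n, -, e⟩ := (L.sameCycle_iff _ _).1 hc
  rw [← qs_pow] at e
  obtain ⟨v, hv, e1⟩ := exists_tr D.le e
  have hW := L.W_mem (qs D.le h)
  have h0 : D.f (L.W (qs D.le h)) ≠ 0 := fun h0 => ho ((D.ker _ hW).1 h0)
  set w := L.W (qs D.le h)
  set j := (D.f v * (D.f w)⁻¹).val with hj
  have h2 : tr (j • w) h = tr v h := by
    apply tr_congr
    rw [← D.eq_iff (V.nsmul_mem hW j) hv, D.nsmul hW, nsmul_eq_mul, hj, ZMod.natCast_val,
      ZMod.cast_id', id, mul_assoc, inv_mul_cancel₀ h0, mul_one]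
  refine ⟨((j * L.N (qs D.le h) + n : ℕ) : ℤ), ?_⟩
  rw [e1, zpow_natCast, add_comm, pow_add, Equiv.Perm.mul_apply, pow_mul_N_lift]
  rw [h2, pow_tr _ _ hv]

theorem N_open [Fact p.Prime] {h : Slot V' I} (ho : L.W (qs D.le h) ∉ V') :
    (L.lift D.le).N h = p * L.N (qs D.le h) := by
  have hW := L.W_mem (qs D.le h)
  have h0 : D.f (L.W (qs D.le h)) ≠ 0 := fun h0 => ho ((D.ker _ hW).1 h0)
  apply Nat.dvd_antisymm
  · rw [← pow_eq_iff, pow_mul_N_lift]
    apply tr_eq_self
    rw [← D.ker _ (V.nsmul_mem hW p), D.nsmul hW]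
    simp
  · obtain ⟨k, hk⟩ := L.N_dvd_lift D.le h
    rw [hk, mul_comm]
    apply Nat.mul_dvd_mul_left
    have h1 := (L.lift D.le).pow_N h
    rw [hk, mul_comm, pow_mul_N_lift] at h1
    have h2 := tr_inj (h1.trans (tr_zero h).symm)
    rw [sub_zero, ← D.ker _ (V.nsmul_mem hW k), D.nsmul hW, nsmul_eq_mul, mul_eq_zero] at h2
    rcases h2 with h2 | h2
    · exact (ZMod.natCast_eq_zero_iff k p).1 h2
    · exact absurd h2 h0

end Lab

end C90
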