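import Pool.Agent.C90.Arcs

/-!
# The odd lift (MP_c90cf1_co)
-/

namespace C90

open Finset

variable {G : Type*} [AddCommGroup G] {I : Type*} {V V' : AddSubgroup G} [Finite G] [Finite I]

/-- From a state of the odd phase at level `V` whose labels satisfy the conclusion of the odd step
lemma one gets a state of the odd phase at level `V'`, `[V : V'] = p`. -/
theorem odd_lift {lab0 : I × Bool → G} {bal : Prop} (s : St V lab0 True bal) {p : ℕ}
    [Fact p.Prime] (hp2 : p ≠ 2)
    (D : Ind V V' p) (r : G ⧸ V → G) (hr : ∀ x, ((r x : G) : G ⧸ V) = s.nu x)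
    (κ : G ⧸ V → Option (ZMod p))
    (hc : ∀ h, s.W h ∈ V' → ∀ g ∈ s.Des, s.σ.SameCycle h g →
      κ g.1 = some (D.f (s.lab g - r g.1)))
    (ho : ∀ h, s.W h ∉ V' → (∃ g ∈ s.Des, s.σ.SameCycle h g ∧
      κ g.1 = some (D.f (s.lab g - r g.1))) ∨ (∀ g ∈ s.Des, s.σ.SameCycle h g → κ g.1 = none)) :
    ∃ s' : St V' lab0 True bal, Refines D.le s' s := by
  classical
  have hpp : p.Prime := Fact.out
  have hp3 : 3 ≤ p := by
    have := hpp.two_le
    omega
  set q := qm D.le with hq
  -- selected predicate
  set P : Slot V I → Prop := fun g => g ∈ s.Des ∧ κ g.1 = some (D.f (s.lab g - r g.1)) with hP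
  obtain ⟨T, hT1, hT2⟩ := s.toLab.exists_choice P
  obtain ⟨a1, ha1, hfa1⟩ := D.one
  have hrep : ∀ c : ZMod p, ∃ a ∈ V, D.f a = c := fun c => D.exists_rep c
  choose rep hrepV hrepf using hrep
  have hlr : ∀ g ∈ s.Des, s.lab g - r g.1 ∈ V := by
    intro g hg
    rw [← QuotientAddGroup.eq_zero_iff (N := V), QuotientAddGroup.mk_sub, s.desnu g hg, hr,
      sub_self]
  -- reflection centre
  let Rh : G ⧸ V → G := fun x => (s.nu x + (x + x)).out
  have hRh : ∀ x, ((Rh x : G) : G ⧸ V) = s.nu x + (x + x) := fun x =>
    Quotient.out_eq' (s.nu x + (x + x))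
  let nu' : G ⧸ V' → G ⧸ V' := fun x' =>
    match κ (q x') with
    | none => ((Rh (q x') : G) : G ⧸ V') - (x' + x')
    | some c => ((r (q x') + rep c : G) : G ⧸ V')
  have hnu_none : ∀ x', κ (q x') = none → nu' x' = ((Rh (q x') : G) : G ⧸ V') - (x' + x') := by
    intro x' h; simp only [nu', h]
  have hnu_some : ∀ x' c, κ (q x') = some c → nu' x' = ((r (q x') + rep c : G) : G ⧸ V') := by
    intro x' c h; simp only [nu', h]
  have hqnu : ∀ x', q (nu' x') = s.nu (q x') := by
    intro x'
    rcases h : κ (q x') with _ | c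
    · rw [hnu_none x' h, map_sub, map_add, hq, qm_mk, hRh, add_sub_cancel_right]
    · rw [hnu_some x' c h, hq, qm_mk, QuotientAddGroup.mk_add, hr,
        (QuotientAddGroup.eq_zero_iff (rep c)).2 (hrepV c), add_zero]
  -- the three standard lifts
  let th : Slot V I → Slot V' I := fun t => (((t.1.out : G) : G ⧸ V'), t.2)
  have hth : ∀ t, qs D.le (th t) = t := by
    intro t
    exact Prod.ext (Quotient.out_eq' t.1) rfl
  let tj : Slot V I → ℕ → Slot V' I := fun t j => tr (j • a1) (th t)
  have htj : ∀ t j, qs D.le (tj t j) = t := by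
    intro t j
    rw [qs_tr D.le (V.nsmul_mem ha1 j), hth]
  let Des' : Set (Slot V' I) := {g' | qs D.le g' ∈ s.Des ∧
    (s.W (qs D.le g') ∈ V' ∨
      (s.W (qs D.le g') ∉ V' ∧ (∃ t, s.σ.SameCycle (qs D.le g') t ∧ P t) ∧
        (g' = tj (T (qs D.le g')) 0 ∨ g' = tj (T (qs D.le g')) 1 ∨ g' = tj (T (qs D.le g')) 2)) ∨
      (s.W (qs D.le g') ∉ V' ∧ (¬ ∃ t, s.σ.SameCycle (qs D.le g') t ∧ P t) ∧
        ((s.lab (qs D.le g') : G) : G ⧸ V') = nu' g'.1))}
  have hlabmk : ∀ g' : Slot V' I, P (qs D.le g') →
      ((s.lab (qs D.le g') : G) : G ⧸ V') = nu' g'.1 := by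
    intro g' hg'
    have h1 := hg'.2
    rw [hnu_some g'.1 _ h1]
    have h2 := hrepf (D.f (s.lab (qs D.le g') - r (qs D.le g').1))
    rw [D.eq_iff (hrepV _) (hlr _ hg'.1)] at h2
    rw [eq_comm, ← sub_eq_zero, ← QuotientAddGroup.mk_sub, QuotientAddGroup.eq_zero_iff]
    have h3 : r (q g'.1) + rep (D.f (s.lab (qs D.le g') - r (qs D.le g').1)) - s.lab (qs D.le g') =
      rep (D.f (s.lab (qs D.le g') - r (qs D.le g').1)) - (s.lab (qs D.le g') - r (qs D.le g').1)
        := by
      simp only [qs_fst]; abel
    rw [h3]; exact h2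
  -- unique designated lift for type I
  have hI : ∀ g ∈ s.Des, κ g.1 = none → ∃ g' : Slot V' I, qs D.le g' = g ∧
      ((s.lab g : G) : G ⧸ V') = nu' g'.1 := by
    intro g hg hk
    set u : G := Rh g.1 - (g.1.out + g.1.out) - s.lab g with hu
    have huV : u ∈ V := by
      rw [← QuotientAddGroup.eq_zero_iff (N := V), hu, QuotientAddGroup.mk_sub,
        QuotientAddGroup.mk_sub, QuotientAddGroup.mk_add, hRh, s.desnu g hg]
      have : ((g.1.out : G) : G ⧸ V) = g.1 := Quotient.out_eq' g.1
      rw [this]; abel
    set v := rep (D.f u * 2⁻¹) with hv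
    have hvV : v ∈ V := hrepV _
    have h2 : (2 : ZMod p) ≠ 0 := by
      intro h
      have : ((2 : ℕ) : ZMod p) = 0 := by exact_mod_cast h
      rw [ZMod.natCast_eq_zero_iff] at this
      have := Nat.le_of_dvd (by norm_num) this
      omega
    have hfv : D.f (v + v) = D.f u := by
      rw [D.add v hvV v hvV, hv, hrepf, ← two_mul, mul_comm, mul_assoc, inv_mul_cancel₀ h2,
        mul_one]
    rw [D.eq_iff (V.add_mem hvV hvV) huV] at hfv
    have hout : ((g.1.out : G) : G ⧸ V) = g.1 := Quotient.out_eq' g.1
    have hqx : q (((g.1.out + v : G) : G ⧸ V')) = g.1 := by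
      rw [hq, qm_mk, QuotientAddGroup.mk_add, (QuotientAddGroup.eq_zero_iff v).2 hvV, add_zero,
        hout]
    refine ⟨(((g.1.out + v : G) : G ⧸ V'), g.2), Prod.ext hqx rfl, ?_⟩
    simp only
    rw [hnu_none _ (by rw [hqx]; exact hk), hqx, ← sub_eq_zero, ← QuotientAddGroup.mk_add,
      ← QuotientAddGroup.mk_sub, ← QuotientAddGroup.mk_sub, QuotientAddGroup.eq_zero_iff]
    have h3 : s.lab g - (Rh g.1 - (g.1.out + v + (g.1.out + v))) = v + v - u := by
      rw [hu]; abel
    rw [h3]; exact hfv
  have hIu : ∀ g' g'' : Slot V' I, qs D.le g' = qs D.le g'' → κ (qs D.le g').1 = none →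
      ((s.lab (qs D.le g') : G) : G ⧸ V') = nu' g'.1 →
      ((s.lab (qs D.le g'') : G) : G ⧸ V') = nu' g''.1 → g' = g'' := by
    intro g' g'' e hk h1 h2
    obtain ⟨w, hw, rfl⟩ := exists_tr D.le e
    rw [← e, h1, hnu_none _ hk, hnu_none _ (by
      have := congrArg Prod.fst e
      simp only [qs_fst] at this
      rw [hq, ← this]; exact hk)] at h2
    have h3 : q (tr w g').1 = q g'.1 := (congrArg Prod.fst e).symm
    rw [h3, sub_right_inj, tr_fst] at h2
    have h4 : ((w + w : G) : G ⧸ V') = 0 := by
      rw [QuotientAddGroup.mk_add]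
      have : g'.1 + ((w : G) : G ⧸ V') + (g'.1 + ((w : G) : G ⧸ V')) =
        (g'.1 + g'.1) + (((w : G) : G ⧸ V') + ((w : G) : G ⧸ V')) := by abel
      rw [this] at h2
      exact add_eq_left.1 h2.symm
    rw [QuotientAddGroup.eq_zero_iff, ← D.ker _ (V.add_mem hw hw), D.add w hw w hw,
      ← two_mul, mul_eq_zero] at h4
    have h2' : (2 : ZMod p) ≠ 0 := by
      intro h
      have : ((2 : ℕ) : ZMod p) = 0 := by exact_mod_cast h
      rw [ZMod.natCast_eq_zero_iff] at this
      have := Nat.le_of_dvd (by norm_num) this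
      omega
    have h5 : w ∈ V' := (D.ker w hw).1 (h4.resolve_left h2')
    exact (tr_eq_self g' h5).symm
  have hpowsame : ∀ {h' : Slot V' I} {g : Slot V' I}, (s.lift D.le).σ.SameCycle h' g →
      s.σ.SameCycle (qs D.le h') (qs D.le g) := fun hh => s.toLab.sameCycle_qs D.le hh
  refine ⟨{
    toLab := s.lift D.le
    perm := fun x => ?_
    nu := nu'
    nuinj := ?_
    Des := Des'
    desnu := ?_
    Del := fun _ => 0
    delodd := fun _ _ => rfl
    eta := fun x' => s.eta (q x')
    loops := ?_ }, ?_, ?_, ?_⟩
  · obtain ⟨ρ, hρ⟩ := s.perm (q x)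
    exact ⟨ρ, fun k => hρ k⟩
  · intro x' y' e
    simp only at e
    have h1 : q x' = q y' := by
      apply s.nuinj
      simp only
      rw [← hqnu, ← hqnu, ← map_add, ← map_add, e]
    rcases h : κ (q x') with _ | c
    · rw [hnu_none x' h, hnu_none y' (by rw [← h1]; exact h), ← h1] at e
      have e1 : x' + (((Rh (q x') : G) : G ⧸ V') - (x' + x')) = ((Rh (q x') : G) : G ⧸ V') - x' := by
        abel
      have e2 : y' + (((Rh (q x') : G) : G ⧸ V') - (y' + y')) = ((Rh (q x') : G) : G ⧸ V') - y' := by
        abel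
      rw [e1, e2] at e
      exact sub_right_injective e
    · rw [hnu_some x' c h, hnu_some y' c (by rw [← h1]; exact h), ← h1] at e
      exact add_right_cancel e
  · rintro g' ⟨hg, h | ⟨h1, h2, h3⟩ | ⟨h1, h2, h3⟩⟩
    · apply hlabmk
      exact ⟨hg, hc _ h _ hg (Equiv.Perm.SameCycle.refl _ _)⟩
    · obtain ⟨h4, h5⟩ := hT2 (qs D.le g') h2
      have h6 : qs D.le g' = T (qs D.le g') := by
        rcases h3 with h3 | h3 | h3
        · conv_lhs => rw [h3]
          exact htj _ _
        · conv_lhs => rw [h3]
          exact htj _ _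
        · conv_lhs => rw [h3]
          exact htj _ _
      apply hlabmk
      rw [h6]; exact h5
    · exact h3
  · intro h'
    set h := qs D.le h' with hh
    by_cases hW : s.W h ∈ V'
    · -- closed
      rcases s.loops h with ⟨a, b, hab, hd, hA, hs⟩ | ⟨a, b, c, hab, hac, hbc, hd, hs⟩
      · left
        obtain ⟨a', ha1', ha'⟩ := s.toLab.exists_lift D.le h' ((hd a).2 (Or.inl rfl)).2
        obtain ⟨b', hb1', hb'⟩ := s.toLab.exists_lift D.le h' ((hd b).2 (Or.inr rfl)).2
        refine ⟨a', b', ?_, ?_, ?_, ?_⟩
        · rintro rfl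
          exact hab (ha'.symm.trans hb')
        · intro g'
          constructor
          · rintro ⟨hg', hg''⟩
            rcases (hd (qs D.le g')).1 ⟨hg'.1, hpowsame hg''⟩ with e | e
            · left; exact s.toLab.eq_of_closed D.le hW hg'' ha1' (e.trans ha'.symm)
            · right; exact s.toLab.eq_of_closed D.le hW hg'' hb1' (e.trans hb'.symm)
          · have key : ∀ (x : Slot V I) (x' : Slot V' I), (x = a ∨ x = b) → qs D.le x' = x →
                (s.lift D.le).σ.SameCycle h' x' → x' ∈ Des' ∧ (s.lift D.le).σ.SameCycle h' x' := by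
              intro x x' hx hxx' hx'
              obtain ⟨h1, h2⟩ := (hd x).2 hx
              refine ⟨⟨by rw [hxx']; exact h1, Or.inl ?_⟩, hx'⟩
              rw [hxx', s.toLab.W_sameCycle h2]
              exact hW
            rintro (rfl | rfl)
            · exact key a _ (Or.inl rfl) ha' ha1'
            · exact key b _ (Or.inr rfl) hb' hb1'
        · intro hbal
          have e0 : (0 : G) - 0 = s.Del b.1 - s.Del a.1 := by
            rw [s.delodd trivial, s.delodd trivial]
          rw [e0]
          apply (hA hbal).lift_closed D.le ha' hb' _ (ha1'.symm.trans hb1')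
          rw [s.toLab.W_sameCycle ((hd a).2 (Or.inl rfl)).2]
          exact hW
        · intro _
          have := hs trivial
          rw [← ha', ← hb'] at this
          exact this
      · right
        obtain ⟨a', ha1', ha'⟩ := s.toLab.exists_lift D.le h' ((hd a).2 (Or.inl rfl)).2
        obtain ⟨b', hb1', hb'⟩ := s.toLab.exists_lift D.le h' ((hd b).2 (Or.inr (Or.inl rfl))).2
        obtain ⟨c', hc1', hc'⟩ := s.toLab.exists_lift D.le h' ((hd c).2 (Or.inr (Or.inr rfl))).2
        refine ⟨a', b', c', ?_, ?_, ?_, ?_, ?_⟩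
        · intro e
          apply hab
          rw [← ha', ← hb', qs_fst, qs_fst, e]
        · intro e
          apply hac
          rw [← ha', ← hc', qs_fst, qs_fst, e]
        · intro e
          apply hbc
          rw [← hb', ← hc', qs_fst, qs_fst, e]
        · intro g'
          constructor
          · rintro ⟨hg', hg''⟩
            rcases (hd (qs D.le g')).1 ⟨hg'.1, hpowsame hg''⟩ with e | e | e
            · left; exact s.toLab.eq_of_closed D.le hW hg'' ha1' (e.trans ha'.symm)
            · right; left; exact s.toLab.eq_of_closed D.le hW hg'' hb1' (e.trans hb'.symm)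
            · right; right; exact s.toLab.eq_of_closed D.le hW hg'' hc1' (e.trans hc'.symm)
          · have key : ∀ (x : Slot V I) (x' : Slot V' I), (x = a ∨ x = b ∨ x = c) →
                qs D.le x' = x →
                (s.lift D.le).σ.SameCycle h' x' → x' ∈ Des' ∧ (s.lift D.le).σ.SameCycle h' x' := by
              intro x x' hx hxx' hx'
              obtain ⟨h1, h2⟩ := (hd x).2 hx
              refine ⟨⟨by rw [hxx']; exact h1, Or.inl ?_⟩, hx'⟩
              rw [hxx', s.toLab.W_sameCycle h2]
              exact hW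
            rintro (rfl | rfl | rfl)
            · exact key a _ (Or.inl rfl) ha' ha1'
            · exact key b _ (Or.inr (Or.inl rfl)) hb' hb1'
            · exact key c _ (Or.inr (Or.inr rfl)) hc' hc1'
        · intro _
          have := hs trivial
          rw [← ha', ← hb', ← hc'] at this
          exact this
    · -- open
      have hWg : ∀ g' : Slot V' I, s.σ.SameCycle h (qs D.le g') → s.W (qs D.le g') ∉ V' := by
        intro g' hg'
        rw [s.toLab.W_sameCycle hg']
        exact hW
      by_cases ht : ∃ t, s.σ.SameCycle h t ∧ P t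
      · -- a selected token: three lifts
        right
        obtain ⟨ht1, ht2⟩ := hT2 h ht
        have hdist : ∀ i j : ℕ, i < 3 → j < 3 → i ≠ j → (tj (T h) i).1 ≠ (tj (T h) j).1 := by
          intro i j hi hj hij e
          have e1 : tj (T h) i = tj (T h) j := Prod.ext e rfl
          have e2 := tr_inj e1
          rw [← D.eq_iff (V.nsmul_mem ha1 i) (V.nsmul_mem ha1 j), D.nsmul ha1, D.nsmul ha1, hfa1,
            nsmul_eq_mul, nsmul_eq_mul, mul_one, mul_one] at e2
          have e3 := (ZMod.natCast_eq_natCast_iff' i j p).1 e2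
          rw [Nat.mod_eq_of_lt (by omega), Nat.mod_eq_of_lt (by omega)] at e3
          exact hij e3
        refine ⟨tj (T h) 0, tj (T h) 1, tj (T h) 2, hdist 0 1 (by norm_num) (by norm_num)
          (by norm_num), hdist 0 2 (by norm_num) (by norm_num) (by norm_num),
          hdist 1 2 (by norm_num) (by norm_num) (by norm_num), ?_, ?_⟩
        rotate_left
        · intro _
          have h1 : ∀ j, q (tj (T h) j).1 = (T h).1 := fun j => congrArg Prod.fst (htj (T h) j)
          rw [h1, h1, h1]
          exact ⟨rfl, rfl⟩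
        intro g'
        constructor
        · rintro ⟨hg', hg''⟩
          have h1 := hpowsame hg''
          rw [← hh] at h1
          rcases hg'.2 with h2 | h2 | h2
          · exact absurd h2 (hWg g' h1)
          · have h3 := h2.2.2
            rw [← hT1 h _ h1] at h3
            exact h3
          · exfalso
            apply h2.2.1
            obtain ⟨t, ht3, ht4⟩ := ht
            exact ⟨t, h1.symm.trans ht3, ht4⟩
        · intro hg'
          have h1 : qs D.le g' = T h := by
            rcases hg' with rfl | rfl | rfl <;> exact htj _ _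
          have h2 : s.σ.SameCycle h (qs D.le g') := by rw [h1]; exact ht1
          refine ⟨⟨by rw [h1]; exact ht2.1, Or.inr (Or.inl ⟨hWg g' h2, ?_, ?_⟩)⟩, ?_⟩
          · obtain ⟨t, ht3, ht4⟩ := ht
            exact ⟨t, h2.symm.trans ht3, ht4⟩
          · rw [← hT1 h _ h2]
            exact hg'
          · exact s.toLab.sameCycle_open D (by rw [← hh]; exact hW) h2
      · -- all ends of type I
        have hnone : ∀ g ∈ s.Des, s.σ.SameCycle h g → κ g.1 = none := by
          rcases ho h hW with ⟨g, hg, h1, h2⟩ | h1
          · exact absurd ⟨g, h1, hg, h2⟩ ht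
          · exact h1
        have hmem : ∀ g ∈ s.Des, s.σ.SameCycle h g → ∃ g' : Slot V' I, qs D.le g' = g ∧
            ((s.lab g : G) : G ⧸ V') = nu' g'.1 ∧ (∀ x' : Slot V' I, (x' ∈ Des' ∧
              (s.lift D.le).σ.SameCycle h' x' ∧ qs D.le x' = g) ↔ x' = g') := by
          intro g hg hgs
          obtain ⟨g', h1, h2⟩ := hI g hg (hnone g hg hgs)
          refine ⟨g', h1, h2, fun x' => ⟨?_, ?_⟩⟩
          · rintro ⟨h3, h4, h5⟩
            have h6 : ((s.lab (qs D.le x') : G) : G ⧸ V') = nu' x'.1 := by
              rcases h3.2 with h7 | h7 | h7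
              · exact absurd h7 (hWg x' (by rw [h5]; exact hgs))
              · exfalso
                obtain ⟨t, ht3, ht4⟩ := h7.2.1
                rw [h5] at ht3
                exact ht ⟨t, hgs.trans ht3, ht4⟩
              · exact h7.2.2
            apply hIu x' g' (h5.trans h1.symm) _ h6 (by rw [h1]; exact h2)
            rw [h5]; exact hnone g hg hgs
          · rintro rfl
            refine ⟨⟨by rw [h1]; exact hg, Or.inr (Or.inr ⟨hWg x' (by rw [h1]; exact hgs), ?_,
              by rw [h1]; exact h2⟩)⟩, ?_, h1⟩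
            · rintro ⟨t, ht3, ht4⟩
              rw [h1] at ht3
              exact ht ⟨t, hgs.trans ht3, ht4⟩
            · exact s.toLab.sameCycle_open D (by rw [← hh]; exact hW) (by rw [h1]; exact hgs)
        have hR' : ∀ (g : Slot V I) (g' : Slot V' I), κ g.1 = none → qs D.le g' = g →
            ((s.lab g : G) : G ⧸ V') = nu' g'.1 →
            (s.lift D.le).R g' = ((Rh g.1 : G) : G ⧸ V') := by
          intro g g' h1 h2 h3
          unfold Lab.R
          rw [Lab.lift_lab, h2, h3, hnu_none g'.1 (by
            have := congrArg Prod.fst h2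
            simp only [qs_fst] at this
            rw [hq, this]; exact h1)]
          have h4 : q g'.1 = g.1 := congrArg Prod.fst h2
          rw [h4, sub_add_cancel]
        rcases s.loops h with ⟨a, b, hab, hd, hA, hs⟩ | ⟨a, b, c, hab, hac, hbc, hd, hs⟩
        · left
          obtain ⟨ha1, ha2⟩ := (hd a).2 (Or.inl rfl)
          obtain ⟨hb1, hb2⟩ := (hd b).2 (Or.inr rfl)
          obtain ⟨a', ha', ha3, ha4⟩ := hmem a ha1 ha2
          obtain ⟨b', hb', hb3, hb4⟩ := hmem b hb1 hb2
          refine ⟨a', b', ?_, ?_, ?_, ?_⟩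
          · rintro rfl
            exact hab (ha'.symm.trans hb')
          · intro g'
            constructor
            · rintro ⟨hg', hg''⟩
              rcases (hd (qs D.le g')).1 ⟨hg'.1, hpowsame hg''⟩ with e | e
              · left; exact (ha4 g').1 ⟨hg', hg'', e⟩
              · right; exact (hb4 g').1 ⟨hg', hg'', e⟩
            · rintro (rfl | rfl)
              · have := (ha4 g').2 rfl; exact ⟨this.1, this.2.1⟩
              · have := (hb4 g').2 rfl; exact ⟨this.1, this.2.1⟩
          · intro hbal
            have e0 : s.Del b.1 - s.Del a.1 = 0 := by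
              rw [s.delodd trivial, s.delodd trivial, sub_self]
            have hA := hA hbal
            rw [e0] at hA
            rw [sub_self]
            apply Lab.arc_open D hA ha' hb'
            · rw [s.toLab.W_sameCycle ha2]; exact hW
            · rw [hR' a a' (hnone a ha1 ha2) ha' ha3, hR' b b' (hnone b hb1 hb2) hb' hb3]
              -- equality of the centres
              have h1 : s.nu a.1 + (a.1 + a.1) = s.nu b.1 + (b.1 + b.1) := by
                have h2 := hA.R_eq
                rw [QuotientAddGroup.mk_zero, add_zero] at h2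
                unfold Lab.R at h2
                rw [s.desnu a ha1, s.desnu b hb1] at h2
                exact h2.symm
              simp only [Rh, h1]
          · intro _
            have := hs trivial
            rw [← ha', ← hb'] at this
            exact this
        · right
          obtain ⟨ha1, ha2⟩ := (hd a).2 (Or.inl rfl)
          obtain ⟨hb1, hb2⟩ := (hd b).2 (Or.inr (Or.inl rfl))
          obtain ⟨hc1, hc2⟩ := (hd c).2 (Or.inr (Or.inr rfl))
          obtain ⟨a', ha', ha3, ha4⟩ := hmem a ha1 ha2
          obtain ⟨b', hb', hb3, hb4⟩ := hmem b hb1 hb2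
          obtain ⟨c', hc', hc3, hc4⟩ := hmem c hc1 hc2
          refine ⟨a', b', c', ?_, ?_, ?_, ?_, ?_⟩
          · intro e
            apply hab
            rw [← ha', ← hb', qs_fst, qs_fst, e]
          · intro e
            apply hac
            rw [← ha', ← hc', qs_fst, qs_fst, e]
          · intro e
            apply hbc
            rw [← hb', ← hc', qs_fst, qs_fst, e]
          · intro g'
            constructor
            · rintro ⟨hg', hg''⟩
              rcases (hd (qs D.le g')).1 ⟨hg'.1, hpowsame hg''⟩ with e | e | e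
              · left; exact (ha4 g').1 ⟨hg', hg'', e⟩
              · right; left; exact (hb4 g').1 ⟨hg', hg'', e⟩
              · right; right; exact (hc4 g').1 ⟨hg', hg'', e⟩
            · rintro (rfl | rfl | rfl)
              · have := (ha4 g').2 rfl; exact ⟨this.1, this.2.1⟩
              · have := (hb4 g').2 rfl; exact ⟨this.1, this.2.1⟩
              · have := (hc4 g').2 rfl; exact ⟨this.1, this.2.1⟩
          · intro _
            have := hs trivial
            rw [← ha', ← hb', ← hc'] at this
            exact this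
  · rintro g' ⟨hg, -⟩
    exact hg
  · exact hqnu
  · intro g' _
    rfl

end C90
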