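import Pool.Agent.C90.TwoStep

set_option linter.unusedSectionVars false

/-!
# The two rounds (MP_c90cf1_co, 2-step lemma)

Author: helper71.
-/

namespace C90.TwoStep

open Finset Relation

variable {X L H : Type*} [Fintype X] [DecidableEq X] [Fintype L] [DecidableEq L]
  [Fintype H] [DecidableEq H]

/-- loops of kind `E` in round 1 -/
def E1 (l : H → L) (c : L → ZMod 2) (a : L) : Prop :=
  (univ.filter fun h => l h = a).card = 3 ∧ c a = 1

/-- ends that are active in round 2 -/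
def Act (v : H → X) (l : H → L) (c : L → ZMod 2) (J1 : Finset H) (T1 : X → Prop) (h : H) : Prop :=
  T1 (v h) ∧ (Trans l (E1 l c) J1 (l h) → ∃ k, l k = l h ∧ T1 (v k) ∧ k ∉ J1)

/-- loops of kind `E` in round 2 -/
def E2 (v : H → X) (l : H → L) (c : L → ZMod 2) (T1 : X → Prop) (a : L) : Prop :=
  (univ.filter fun h => l h = a).card = 3 ∧ c a = 0 ∧ ∀ h, l h = a → T1 (v h)

/-- the outcome of the two rounds -/
structure Rounds (v : H → X) (l : H → L) (c : L → ZMod 2) (J1 : Finset H) (T1 : X → Prop)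
    (A2 J2 : Finset H) (T2 : X → Prop) : Prop where
  one1 : ∀ a, ¬ E1 l c a → cnt l J1 a ≤ 1
  two1 : ∀ a, E1 l c a → cnt l J1 a ≤ 2
  s1 : ∀ h, h ∉ J1 → T1 (v h) → Trans l (E1 l c) J1 (l h) → ∀ k ∈ J1, l k = l h → T1 (v k)
  a1 : ∀ h, ¬ E1 l c (l h) → cnt l J1 (l h) = 0 → ¬ T1 (v h)
  b1 : ∀ h, h ∉ J1 → Bad l (E1 l c) J1 (l h) → ¬ T1 (v h)
  c1 : ∀ h h', h ≠ h' → l h = l h' → E1 l c (l h) → cnt l J1 (l h) = 0 → T1 (v h) → ¬ T1 (v h')
  act : ∀ h, h ∈ A2 ↔ Act v l c J1 T1 h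
  sub2 : J2 ⊆ A2
  one2 : ∀ a, ¬ E2 v l c T1 a → cnt l J2 a ≤ 1
  two2 : ∀ a, E2 v l c T1 a → cnt l J2 a ≤ 2
  s2 : ∀ h ∈ A2, h ∉ J2 → T2 (v h) → Trans l (E2 v l c T1) J2 (l h) →
    ∀ k ∈ J2, l k = l h → T2 (v k)
  a2 : ∀ h ∈ A2, ¬ E2 v l c T1 (l h) → cnt l J2 (l h) = 0 → ¬ T2 (v h)
  b2 : ∀ h ∈ A2, h ∉ J2 → Bad l (E2 v l c T1) J2 (l h) → ¬ T2 (v h)
  c2 : ∀ h ∈ A2, ∀ h' ∈ A2, h ≠ h' → l h = l h' → E2 v l c T1 (l h) → cnt l J2 (l h) = 0 →
    T2 (v h) → ¬ T2 (v h')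

variable {v : H → X} {l : H → L} {c : L → ZMod 2} {J1 : Finset H} {T1 : X → Prop}
  {A2 J2 : Finset H} {T2 : X → Prop}

section three

variable {a : L} {p q r : H}

open Classical in
lemma Rounds.hypO3 (R : Rounds v l c J1 T1 A2 J2 T2) (hpq : p ≠ q) (hpr : p ≠ r) (hqr : q ≠ r)
    (hf : ∀ h, l h = a ↔ h = p ∨ h = q ∨ h = r) (hE : ¬ E2 v l c T1 a) :
    hypO (decide (p ∈ A2)) (decide (q ∈ A2)) (decide (r ∈ A2))
      (decide (p ∈ J2)) (decide (q ∈ J2)) (decide (r ∈ J2))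
      (decide (T2 (v p))) (decide (T2 (v q))) (decide (T2 (v r))) = true := by
  have lp : l p = a := (hf p).2 (Or.inl rfl)
  have lq : l q = a := (hf q).2 (Or.inr (Or.inl rfl))
  have lr : l r = a := (hf r).2 (Or.inr (Or.inr rfl))
  refine hypO_of (cnt_three hpq hpr hqr hf J2) (R.one2 a hE) ?_ ?_
  · intro hk hy
    have ht : Trans l (E2 v l c T1) J2 a := Or.inl ⟨hE, hk⟩
    simp only [y3_iff, decide_eq_true_eq, decide_eq_false_iff_not] at hy ⊢
    rcases hy with ⟨h1, h2, h3⟩ | ⟨h1, h2, h3⟩ | ⟨h1, h2, h3⟩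
    · have := R.s2 p h1 h2 h3 (lp ▸ ht)
      exact ⟨fun h => this p h rfl, fun h => this q h (by rw [lq, lp]),
        fun h => this r h (by rw [lr, lp])⟩
    · have := R.s2 q h1 h2 h3 (lq ▸ ht)
      exact ⟨fun h => this p h (by rw [lp, lq]), fun h => this q h rfl,
        fun h => this r h (by rw [lr, lq])⟩
    · have := R.s2 r h1 h2 h3 (lr ▸ ht)
      exact ⟨fun h => this p h (by rw [lp, lr]), fun h => this q h (by rw [lq, lr]),
        fun h => this r h rfl⟩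
  · intro hk
    simp only [decide_eq_true_eq]
    exact ⟨fun h => R.a2 p h.1 (lp ▸ hE) (lp ▸ hk) h.2, fun h => R.a2 q h.1 (lq ▸ hE) (lq ▸ hk) h.2,
      fun h => R.a2 r h.1 (lr ▸ hE) (lr ▸ hk) h.2⟩

open Classical in
lemma Rounds.hypE3 (R : Rounds v l c J1 T1 A2 J2 T2) (hpq : p ≠ q) (hpr : p ≠ r) (hqr : q ≠ r)
    (hf : ∀ h, l h = a ↔ h = p ∨ h = q ∨ h = r) (hE : E2 v l c T1 a) :
    hypE (decide (p ∈ A2)) (decide (q ∈ A2)) (decide (r ∈ A2))
      (decide (p ∈ J2)) (decide (q ∈ J2)) (decide (r ∈ J2))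
      (decide (T2 (v p))) (decide (T2 (v q))) (decide (T2 (v r))) = true := by
  have lp : l p = a := (hf p).2 (Or.inl rfl)
  have lq : l q = a := (hf q).2 (Or.inr (Or.inl rfl))
  have lr : l r = a := (hf r).2 (Or.inr (Or.inr rfl))
  refine hypE_of (cnt_three hpq hpr hqr hf J2) (R.two2 a hE) ?_ ?_ ?_
  · intro hk hy
    have ht : Trans l (E2 v l c T1) J2 a := Or.inr ⟨hE, hk⟩
    simp only [y3_iff, decide_eq_true_eq, decide_eq_false_iff_not] at hy ⊢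
    rcases hy with ⟨h1, h2, h3⟩ | ⟨h1, h2, h3⟩ | ⟨h1, h2, h3⟩
    · have := R.s2 p h1 h2 h3 (lp ▸ ht)
      exact ⟨fun h => this p h rfl, fun h => this q h (by rw [lq, lp]),
        fun h => this r h (by rw [lr, lp])⟩
    · have := R.s2 q h1 h2 h3 (lq ▸ ht)
      exact ⟨fun h => this p h (by rw [lp, lq]), fun h => this q h rfl,
        fun h => this r h (by rw [lr, lq])⟩
    · have := R.s2 r h1 h2 h3 (lr ▸ ht)
      exact ⟨fun h => this p h (by rw [lp, lr]), fun h => this q h (by rw [lq, lr]),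
        fun h => this r h rfl⟩
  · intro hk
    simp only [decide_eq_true_eq]
    refine ⟨fun h => ?_, fun h => ?_, fun h => ?_⟩
    · exact R.c2 p h.1 q h.2.2.1 hpq (by rw [lp, lq]) (lp ▸ hE) (lp ▸ hk) h.2.1 h.2.2.2
    · exact R.c2 p h.1 r h.2.2.1 hpr (by rw [lp, lr]) (lp ▸ hE) (lp ▸ hk) h.2.1 h.2.2.2
    · exact R.c2 q h.1 r h.2.2.1 hqr (by rw [lq, lr]) (lq ▸ hE) (lq ▸ hk) h.2.1 h.2.2.2
  · intro hk
    have hb : Bad l (E2 v l c T1) J2 a := ⟨hE, hk⟩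
    rw [← Bool.not_eq_true, y3_iff]
    simp only [decide_eq_true_eq, decide_eq_false_iff_not]
    rintro (⟨h1, h2, h3⟩ | ⟨h1, h2, h3⟩ | ⟨h1, h2, h3⟩)
    · exact R.b2 p h1 h2 (lp ▸ hb) h3
    · exact R.b2 q h1 h2 (lq ▸ hb) h3
    · exact R.b2 r h1 h2 (lr ▸ hb) h3

open Classical in
lemma Rounds.ac3 (R : Rounds v l c J1 T1 A2 J2 T2)
    (hf : ∀ h, l h = a ↔ h = p ∨ h = q ∨ h = r) {e n : ℕ}
    (he : Trans l (E1 l c) J1 a ↔ n = e) (s : H) (hs : l s = a) :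
    ac e n (x3 (decide (T1 (v p))) (decide (T1 (v q))) (decide (T1 (v r)))
      (decide (p ∈ J1)) (decide (q ∈ J1)) (decide (r ∈ J1))) (decide (T1 (v s))) =
      decide (s ∈ A2) := by
  rw [Bool.eq_iff_iff, ac_iff, decide_eq_true_eq, decide_eq_true_eq, R.act s, Act, hs, he, x3_iff]
  simp only [decide_eq_true_eq, decide_eq_false_iff_not]
  have : (T1 (v p) ∧ p ∉ J1 ∨ T1 (v q) ∧ q ∉ J1 ∨ T1 (v r) ∧ r ∉ J1) ↔
      ∃ k, l k = a ∧ T1 (v k) ∧ k ∉ J1 := by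
    constructor
    · rintro (h | h | h)
      · exact ⟨p, (hf p).2 (Or.inl rfl), h⟩
      · exact ⟨q, (hf q).2 (Or.inr (Or.inl rfl)), h⟩
      · exact ⟨r, (hf r).2 (Or.inr (Or.inr rfl)), h⟩
    · rintro ⟨k, hk, h⟩
      rcases (hf k).1 hk with rfl | rfl | rfl
      · exact Or.inl h
      · exact Or.inr (Or.inl h)
      · exact Or.inr (Or.inr h)
  rw [this]

open Classical in
lemma Rounds.con0 (R : Rounds v l c J1 T1 A2 J2 T2) (hpq : p ≠ q) (hpr : p ≠ r) (hqr : q ≠ r)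
    (hf : ∀ h, l h = a ↔ h = p ∨ h = q ∨ h = r)
    (h3 : (univ.filter fun h => l h = a).card = 3) (hc : c a = 0) :
    con0 (decide (T1 (v p))) (decide (T1 (v q))) (decide (T1 (v r)))
      (decide (p ∈ J1)) (decide (q ∈ J1)) (decide (r ∈ J1))
      (decide (p ∈ J2)) (decide (q ∈ J2)) (decide (r ∈ J2))
      (decide (T2 (v p))) (decide (T2 (v q))) (decide (T2 (v r))) = true := by
  have lp : l p = a := (hf p).2 (Or.inl rfl)
  have lq : l q = a := (hf q).2 (Or.inr (Or.inl rfl))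
  have lr : l r = a := (hf r).2 (Or.inr (Or.inr rfl))
  have hE1 : ¬ E1 l c a := fun h => by
    have := h.2
    rw [hc] at this
    exact absurd this (by decide)
  have hn := cnt_three hpq hpr hqr hf J1
  have htr : Trans l (E1 l c) J1 a ↔ cnt l J1 a = 1 := by
    constructor
    · rintro (⟨_, h⟩ | ⟨h, _⟩)
      · exact h
      · exact absurd h hE1
    · intro h; exact Or.inl ⟨hE1, h⟩
  refine (im_iff _ _).1 (chk0_true _ _ _ _ _ _ _ _ _ _ _ _) ?_
  unfold hyp0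
  simp only
  rw [← hn, R.ac3 hf htr p lp, R.ac3 hf htr q lq, R.ac3 hf htr r lr]
  simp only [Bool.and_eq_true, im_iff, Nat.ble_eq, beq_iff_eq, im3_iff, decide_eq_true_eq]
  refine ⟨⟨⟨⟨⟨R.one1 a hE1, ?_⟩, ?_⟩, fun h => R.sub2 h, fun h => R.sub2 h, fun h => R.sub2 h⟩,
    ?_⟩, ?_⟩
  · intro h0
    have e1 := R.a1 p (lp ▸ hE1) (lp ▸ h0)
    have e2 := R.a1 q (lq ▸ hE1) (lq ▸ h0)
    have e3 := R.a1 r (lr ▸ hE1) (lr ▸ h0)
    simp [e1, e2, e3]
  · intro h1 hx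
    have ht := htr.2 h1
    simp only [x3_iff, decide_eq_true_eq, decide_eq_false_iff_not] at hx
    rcases hx with ⟨h1, h2⟩ | ⟨h1, h2⟩ | ⟨h1, h2⟩
    · have := R.s1 p h2 h1 (lp ▸ ht)
      exact ⟨fun h => this p h rfl, fun h => this q h (by rw [lq, lp]),
        fun h => this r h (by rw [lr, lp])⟩
    · have := R.s1 q h2 h1 (lq ▸ ht)
      exact ⟨fun h => this p h (by rw [lp, lq]), fun h => this q h rfl,
        fun h => this r h (by rw [lr, lq])⟩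
    · have := R.s1 r h2 h1 (lr ▸ ht)
      exact ⟨fun h => this p h (by rw [lp, lr]), fun h => this q h (by rw [lq, lr]),
        fun h => this r h rfl⟩
  · rintro ⟨⟨h1, h2⟩, h4⟩
    apply R.hypE3 hpq hpr hqr hf
    refine ⟨h3, hc, fun h hh => ?_⟩
    rcases (hf h).1 hh with rfl | rfl | rfl <;> assumption
  · intro hne
    apply R.hypO3 hpq hpr hqr hf
    intro hE
    simp [hE.2.2 p lp, hE.2.2 q lq, hE.2.2 r lr] at hne

open Classical in
lemma Rounds.con1 (R : Rounds v l c J1 T1 A2 J2 T2) (hpq : p ≠ q) (hpr : p ≠ r) (hqr : q ≠ r)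
    (hf : ∀ h, l h = a ↔ h = p ∨ h = q ∨ h = r)
    (h3 : (univ.filter fun h => l h = a).card = 3) (hc : c a = 1) :
    con1 (decide (T1 (v p))) (decide (T1 (v q))) (decide (T1 (v r)))
      (decide (p ∈ J1)) (decide (q ∈ J1)) (decide (r ∈ J1))
      (decide (p ∈ J2)) (decide (q ∈ J2)) (decide (r ∈ J2))
      (decide (T2 (v p))) (decide (T2 (v q))) (decide (T2 (v r))) = true := by
  have lp : l p = a := (hf p).2 (Or.inl rfl)
  have lq : l q = a := (hf q).2 (Or.inr (Or.inl rfl))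
  have lr : l r = a := (hf r).2 (Or.inr (Or.inr rfl))
  have hE1 : E1 l c a := ⟨h3, hc⟩
  have hn := cnt_three hpq hpr hqr hf J1
  have htr : Trans l (E1 l c) J1 a ↔ cnt l J1 a = 2 := by
    constructor
    · rintro (⟨h, _⟩ | ⟨_, h⟩)
      · exact absurd hE1 h
      · exact h
    · intro h; exact Or.inr ⟨hE1, h⟩
  refine (im_iff _ _).1 (chk1_true _ _ _ _ _ _ _ _ _ _ _ _) ?_
  unfold hyp1
  simp only
  rw [← hn, R.ac3 hf htr p lp, R.ac3 hf htr q lq, R.ac3 hf htr r lr]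
  simp only [Bool.and_eq_true, im_iff, Nat.ble_eq, beq_iff_eq, im3_iff, decide_eq_true_eq]
  refine ⟨⟨⟨⟨⟨R.two1 a hE1, ?_⟩, ?_⟩, ?_⟩, fun h => R.sub2 h, fun h => R.sub2 h,
    fun h => R.sub2 h⟩, ?_⟩
  · intro h0
    have e1 := R.c1 p q hpq (by rw [lp, lq]) (lp ▸ hE1) (lp ▸ h0)
    have e2 := R.c1 p r hpr (by rw [lp, lr]) (lp ▸ hE1) (lp ▸ h0)
    have e3 := R.c1 q r hqr (by rw [lq, lr]) (lq ▸ hE1) (lq ▸ h0)
    by_cases h1 : T1 (v p) <;> by_cases h2 : T1 (v q) <;> by_cases h4 : T1 (v r) <;>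
      simp [h1, h2, h4, two3] at e1 e2 e3 ⊢
  · intro h1
    have hb : Bad l (E1 l c) J1 a := ⟨hE1, h1⟩
    rw [Bool.not_eq_true', ← Bool.not_eq_true, x3_iff]
    simp only [decide_eq_true_eq, decide_eq_false_iff_not]
    rintro (⟨h1, h2⟩ | ⟨h1, h2⟩ | ⟨h1, h2⟩)
    · exact R.b1 p h2 (lp ▸ hb) h1
    · exact R.b1 q h2 (lq ▸ hb) h1
    · exact R.b1 r h2 (lr ▸ hb) h1
  · intro h1 hx
    have ht := htr.2 h1
    simp only [x3_iff, decide_eq_true_eq, decide_eq_false_iff_not] at hx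
    rcases hx with ⟨h1, h2⟩ | ⟨h1, h2⟩ | ⟨h1, h2⟩
    · have := R.s1 p h2 h1 (lp ▸ ht)
      exact ⟨fun h => this p h rfl, fun h => this q h (by rw [lq, lp]),
        fun h => this r h (by rw [lr, lp])⟩
    · have := R.s1 q h2 h1 (lq ▸ ht)
      exact ⟨fun h => this p h (by rw [lp, lq]), fun h => this q h rfl,
        fun h => this r h (by rw [lr, lq])⟩
    · have := R.s1 r h2 h1 (lr ▸ ht)
      exact ⟨fun h => this p h (by rw [lp, lr]), fun h => this q h (by rw [lq, lr]),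
        fun h => this r h rfl⟩
  · apply R.hypO3 hpq hpr hqr hf
    intro hE
    have := hE.2.1
    rw [hc] at this
    exact absurd this (by decide)

end three

section two

variable {a : L} {p q : H}

open Classical in
lemma Rounds.ac2 (R : Rounds v l c J1 T1 A2 J2 T2)
    (hf : ∀ h, l h = a ↔ h = p ∨ h = q) {e n : ℕ}
    (he : Trans l (E1 l c) J1 a ↔ n = e) (s : H) (hs : l s = a) :
    ac e n (x2 (decide (T1 (v p))) (decide (T1 (v q)))
      (decide (p ∈ J1)) (decide (q ∈ J1))) (decide (T1 (v s))) =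
      decide (s ∈ A2) := by
  rw [Bool.eq_iff_iff, ac_iff, decide_eq_true_eq, decide_eq_true_eq, R.act s, Act, hs, he, x2_iff]
  simp only [decide_eq_true_eq, decide_eq_false_iff_not]
  have : (T1 (v p) ∧ p ∉ J1 ∨ T1 (v q) ∧ q ∉ J1) ↔
      ∃ k, l k = a ∧ T1 (v k) ∧ k ∉ J1 := by
    constructor
    · rintro (h | h)
      · exact ⟨p, (hf p).2 (Or.inl rfl), h⟩
      · exact ⟨q, (hf q).2 (Or.inr rfl), h⟩
    · rintro ⟨k, hk, h⟩
      rcases (hf k).1 hk with rfl | rfl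
      · exact Or.inl h
      · exact Or.inr h
  rw [this]

open Classical in
lemma Rounds.con2 (R : Rounds v l c J1 T1 A2 J2 T2) (hpq : p ≠ q)
    (hf : ∀ h, l h = a ↔ h = p ∨ h = q)
    (h2 : (univ.filter fun h => l h = a).card = 2) :
    con2 (decide (T1 (v p))) (decide (T1 (v q)))
      (decide (p ∈ J1)) (decide (q ∈ J1))
      (decide (p ∈ J2)) (decide (q ∈ J2))
      (decide (T2 (v p))) (decide (T2 (v q))) = true := by
  have lp : l p = a := (hf p).2 (Or.inl rfl)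
  have lq : l q = a := (hf q).2 (Or.inr rfl)
  have hE1 : ¬ E1 l c a := fun h => by
    have := h.1
    omega
  have hE2 : ¬ E2 v l c T1 a := fun h => by
    have := h.1
    omega
  have hn := cnt_two hpq hf J1
  have htr : Trans l (E1 l c) J1 a ↔ cnt l J1 a = 1 := by
    constructor
    · rintro (⟨_, h⟩ | ⟨h, _⟩)
      · exact h
      · exact absurd h hE1
    · intro h; exact Or.inl ⟨hE1, h⟩
  refine (im_iff _ _).1 (chk2_true _ _ _ _ _ _ _ _) ?_
  unfold hyp2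
  simp only
  rw [← hn, R.ac2 hf htr p lp, R.ac2 hf htr q lq]
  simp only [Bool.and_eq_true, im_iff, Nat.ble_eq, beq_iff_eq, im2_iff, decide_eq_true_eq]
  refine ⟨⟨⟨⟨R.one1 a hE1, ?_⟩, ?_⟩, fun h => R.sub2 h, fun h => R.sub2 h⟩, ?_⟩
  · intro h0
    have e1 := R.a1 p (lp ▸ hE1) (lp ▸ h0)
    have e2 := R.a1 q (lq ▸ hE1) (lq ▸ h0)
    simp [e1, e2]
  · intro h1 hx
    have ht := htr.2 h1
    simp only [x2_iff, decide_eq_true_eq, decide_eq_false_iff_not] at hx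
    rcases hx with ⟨h1, h2⟩ | ⟨h1, h2⟩
    · have := R.s1 p h2 h1 (lp ▸ ht)
      exact ⟨fun h => this p h rfl, fun h => this q h (by rw [lq, lp])⟩
    · have := R.s1 q h2 h1 (lq ▸ ht)
      exact ⟨fun h => this p h (by rw [lp, lq]), fun h => this q h rfl⟩
  · refine hypD_of (cnt_two hpq hf J2) (R.one2 a hE2) ?_ ?_
    · intro hk hy
      have ht : Trans l (E2 v l c T1) J2 a := Or.inl ⟨hE2, hk⟩
      simp only [y2_iff, decide_eq_true_eq, decide_eq_false_iff_not] at hy ⊢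
      rcases hy with ⟨h1, h2, h3⟩ | ⟨h1, h2, h3⟩
      · have := R.s2 p h1 h2 h3 (lp ▸ ht)
        exact ⟨fun h => this p h rfl, fun h => this q h (by rw [lq, lp])⟩
      · have := R.s2 q h1 h2 h3 (lq ▸ ht)
        exact ⟨fun h => this p h (by rw [lp, lq]), fun h => this q h rfl⟩
    · intro hk
      simp only [decide_eq_true_eq]
      exact ⟨fun h => R.a2 p h.1 (lp ▸ hE2) (lp ▸ hk) h.2,
        fun h => R.a2 q h.1 (lq ▸ hE2) (lq ▸ hk) h.2⟩

end two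

end C90.TwoStep
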