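import Mathlib

/-!
# Slots of a periodic 1-factorisation (MP_c90cf1_co)

`V` is a subgroup of the finite abelian group `G`.  A slot at level `V` is a pair `(x, k)` with
`x ∈ G ⧸ V` and `k = (i, s) ∈ I × Bool`; colour `i`, `s = true`: outgoing, `s = false`: incoming.
A labelling `L` gives every slot an (exact) label in `G` such that for every `k` the map
`x ↦ x + [label]` is injective.  `L.σ` is the permutation of the slots: next slot along the
2-factor of colour `i`.
-/

namespace C90

open Finset

variable {G : Type*} [AddCommGroup G] {I : Type*}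

/-- slots at level `V` -/
abbrev Slot (V : AddSubgroup G) (I : Type*) := (G ⧸ V) × (I × Bool)

/-- a labelling at level `V` -/
structure Lab (V : AddSubgroup G) (I : Type*) where
  lab : Slot V I → G
  inj : ∀ k, Function.Injective (fun x : G ⧸ V => x + ((lab (x, k) : G) : G ⧸ V))

variable {V : AddSubgroup G}

namespace Lab

variable (L : Lab V I)

/-- signed label -/
def val (h : Slot V I) : G := if h.2.2 = true then L.lab h else - L.lab h

/-- start of the edge of the slot (in the direction of travel) -/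
def tail (h : Slot V I) : G ⧸ V :=
  if h.2.2 = true then h.1 else h.1 + ((L.lab h : G) : G ⧸ V)

/-- end of the edge of the slot (in the direction of travel) -/
def head (h : Slot V I) : G ⧸ V :=
  if h.2.2 = true then h.1 + ((L.lab h : G) : G ⧸ V) else h.1

theorem head_eq (h : Slot V I) : L.head h = L.tail h + ((L.val h : G) : G ⧸ V) := by
  unfold head tail val
  split_ifs <;> simp

/-- the doubled midpoint of the edge of the slot -/
def R (h : Slot V I) : G ⧸ V := ((L.lab h : G) : G ⧸ V) + (h.1 + h.1)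

theorem R_eq (h : Slot V I) : L.R h = L.tail h + L.head h := by
  unfold R head tail
  split_ifs <;> abel

variable [Finite G] [Finite I]

/-- `(x, k) ↦ (tail, k)` as a permutation -/
noncomputable def tailPerm : Equiv.Perm (Slot V I) :=
  Equiv.ofBijective (fun h => (L.tail h, h.2)) (by
    rw [← Finite.injective_iff_bijective]
    rintro ⟨x, k⟩ ⟨y, k'⟩ h
    simp only [Prod.mk.injEq] at h
    obtain ⟨h1, rfl⟩ := h
    unfold tail at h1
    split_ifs at h1 with hk
    · simpa using h1
    · have := L.inj k h1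
      simpa using this)

/-- `(x, k) ↦ (head, k)` as a permutation -/
noncomputable def headPerm : Equiv.Perm (Slot V I) :=
  Equiv.ofBijective (fun h => (L.head h, h.2)) (by
    rw [← Finite.injective_iff_bijective]
    rintro ⟨x, k⟩ ⟨y, k'⟩ h
    simp only [Prod.mk.injEq] at h
    obtain ⟨h1, rfl⟩ := h
    unfold head at h1
    split_ifs at h1 with hk
    · have := L.inj k h1
      simpa using this
    · simpa using h1)

/-- flip the direction -/
def flipPerm : Equiv.Perm (Slot V I) where
  toFun h := (h.1, (h.2.1, !h.2.2))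
  invFun h := (h.1, (h.2.1, !h.2.2))
  left_inv h := by simp
  right_inv h := by simp

/-- next slot along the 2-factor -/
noncomputable def σ : Equiv.Perm (Slot V I) :=
  (L.headPerm.trans flipPerm).trans L.tailPerm.symm

theorem σ_spec (h : Slot V I) : L.tailPerm (L.σ h) = (L.head h, (h.2.1, !h.2.2)) := by
  simp only [σ, Equiv.trans_apply, Equiv.apply_symm_apply]
  rfl

theorem σ_snd (h : Slot V I) : (L.σ h).2 = (h.2.1, !h.2.2) := by
  have := congrArg Prod.snd (L.σ_spec h)
  exact this

theorem tail_σ (h : Slot V I) : L.tail (L.σ h) = L.tail h + ((L.val h : G) : G ⧸ V) := by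
  have := congrArg Prod.fst (L.σ_spec h)
  rw [← head_eq]
  exact this

theorem ext_tail {g h : Slot V I} (h1 : L.tail g = L.tail h) (h2 : g.2 = h.2) : g = h := by
  apply L.tailPerm.injective
  exact Prod.ext h1 h2

theorem σ_unique {g h : Slot V I} (h1 : L.tail g = L.tail h + ((L.val h : G) : G ⧸ V))
    (h2 : g.2 = (h.2.1, !h.2.2)) : L.σ h = g := by
  apply L.ext_tail
  · rw [tail_σ, h1]
  · rw [σ_snd, h2]

theorem R_σ (h : Slot V I) :
    L.R (L.σ h) = L.R h + ((L.val h : G) : G ⧸ V) + ((L.val (L.σ h) : G) : G ⧸ V) := by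
  rw [R_eq, R_eq, head_eq, head_eq, tail_σ]
  abel

/-- initial sums of the signed labels along the 2-factor -/
noncomputable def S (h : Slot V I) (n : ℕ) : G := ∑ j ∈ range n, L.val ((L.σ ^ j) h)

/-- length of the cycle through `h` -/
noncomputable def N (h : Slot V I) : ℕ := Function.minimalPeriod L.σ h

/-- total signed sum (holonomy) of the cycle through `h` -/
noncomputable def W (h : Slot V I) : G := L.S h (L.N h)

@[simp] theorem S_zero (h : Slot V I) : L.S h 0 = 0 := by simp [S]

theorem S_succ (h : Slot V I) (n : ℕ) : L.S h (n + 1) = L.S h n + L.val ((L.σ ^ n) h) := by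
  simp [S, sum_range_succ]

theorem S_succ' (h : Slot V I) (n : ℕ) : L.S h (n + 1) = L.val h + L.S (L.σ h) n := by
  rw [S, sum_range_succ', S]
  rw [add_comm]
  congr 1

theorem S_add (h : Slot V I) (m n : ℕ) : L.S h (m + n) = L.S h m + L.S ((L.σ ^ m) h) n := by
  induction n with
  | zero => simp
  | succ n ih =>
    rw [← add_assoc, S_succ, ih, S_succ, add_assoc]
    congr 3
    rw [← Equiv.Perm.mul_apply, ← pow_add, add_comm]

theorem tail_pow (h : Slot V I) (n : ℕ) :
    L.tail ((L.σ ^ n) h) = L.tail h + ((L.S h n : G) : G ⧸ V) := by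
  induction n with
  | zero => simp
  | succ n ih =>
    rw [pow_succ', Equiv.Perm.mul_apply, tail_σ, ih, S_succ, QuotientAddGroup.mk_add, add_assoc]

theorem pow_snd_fst (h : Slot V I) (n : ℕ) : ((L.σ ^ n) h).2.1 = h.2.1 := by
  induction n with
  | zero => simp
  | succ n ih =>
    rw [pow_succ', Equiv.Perm.mul_apply, σ_snd, ih]

theorem pow_N (h : Slot V I) : (L.σ ^ L.N h) h = h := by
  rw [← Equiv.Perm.iterate_eq_pow]
  exact Function.iterate_minimalPeriod

theorem N_pos (h : Slot V I) : 0 < L.N h := by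
  apply Function.minimalPeriod_pos_of_mem_periodicPts
  have := (isOfFinOrder_of_finite L.σ)
  obtain ⟨n, hn, h1⟩ := this.exists_pow_eq_one
  refine ⟨n, hn, ?_⟩
  rw [Function.IsPeriodicPt, Function.IsFixedPt, Equiv.Perm.iterate_eq_pow, h1]
  rfl

theorem pow_eq_iff (h : Slot V I) (n : ℕ) : (L.σ ^ n) h = h ↔ L.N h ∣ n := by
  rw [← Equiv.Perm.iterate_eq_pow]
  exact Function.isPeriodicPt_iff_minimalPeriod_dvd

theorem N_σ (h : Slot V I) : L.N (L.σ h) = L.N h := by
  apply Nat.dvd_antisymm
  · rw [← pow_eq_iff, ← Equiv.Perm.mul_apply, ← pow_succ, pow_succ', Equiv.Perm.mul_apply, pow_N]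
  · rw [← pow_eq_iff]
    have := L.pow_N (L.σ h)
    rw [← Equiv.Perm.mul_apply, ← pow_succ, pow_succ', Equiv.Perm.mul_apply] at this
    exact L.σ.injective this

theorem N_pow (h : Slot V I) (n : ℕ) : L.N ((L.σ ^ n) h) = L.N h := by
  induction n with
  | zero => simp
  | succ n ih => rw [pow_succ', Equiv.Perm.mul_apply, N_σ, ih]

theorem W_σ (h : Slot V I) : L.W (L.σ h) = L.W h := by
  unfold W
  rw [N_σ]
  have h1 := L.S_succ' h (L.N h)
  have h2 := L.S_succ h (L.N h)
  rw [pow_N] at h2
  rw [h2, add_comm] at h1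
  exact (add_left_cancel h1).symm

theorem W_pow (h : Slot V I) (n : ℕ) : L.W ((L.σ ^ n) h) = L.W h := by
  induction n with
  | zero => simp
  | succ n ih => rw [pow_succ', Equiv.Perm.mul_apply, W_σ, ih]

theorem sameCycle_iff (h g : Slot V I) :
    L.σ.SameCycle h g ↔ ∃ n, n < L.N h ∧ (L.σ ^ n) h = g := by
  constructor
  · intro hc
    obtain ⟨n, hn⟩ := hc.exists_nat_pow_eq
    refine ⟨n % L.N h, Nat.mod_lt _ (L.N_pos h), ?_⟩
    conv_rhs => rw [← hn, ← Nat.mod_add_div n (L.N h)]
    rw [pow_add, Equiv.Perm.mul_apply]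
    congr 1
    symm
    rw [pow_eq_iff]
    exact Dvd.intro _ rfl
  · rintro ⟨n, -, hn⟩
    exact ⟨n, by simpa using hn⟩

theorem N_sameCycle {h g : Slot V I} (hc : L.σ.SameCycle h g) : L.N g = L.N h := by
  obtain ⟨n, -, rfl⟩ := (L.sameCycle_iff h g).1 hc
  exact L.N_pow h n

theorem W_sameCycle {h g : Slot V I} (hc : L.σ.SameCycle h g) : L.W g = L.W h := by
  obtain ⟨n, -, rfl⟩ := (L.sameCycle_iff h g).1 hc
  exact L.W_pow h n

/-- powers below the period are distinct -/
theorem pow_inj {h : Slot V I} {m n : ℕ} (hm : m < L.N h) (hn : n < L.N h)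
    (e : (L.σ ^ m) h = (L.σ ^ n) h) : m = n := by
  wlog hmn : m ≤ n generalizing m n
  · exact (this hn hm e.symm (by omega)).symm
  obtain ⟨k, rfl⟩ := Nat.exists_eq_add_of_le hmn
  rw [pow_add, Equiv.Perm.mul_apply] at e
  have e' := (L.σ ^ m).injective e
  have := (L.pow_eq_iff h k).1 e'.symm
  have := Nat.eq_zero_of_dvd_of_lt this (by omega)
  omega

/-- the holonomy lies in `V` -/
theorem W_mem (h : Slot V I) : L.W h ∈ V := by
  have h1 := L.tail_pow h (L.N h)
  rw [pow_N] at h1
  have : ((L.S h (L.N h) : G) : G ⧸ V) = 0 := by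
    have := h1.symm
    rwa [add_eq_left] at this
  exact (QuotientAddGroup.eq_zero_iff _).1 this

/-- sum over one period as a sum over the cycle -/
theorem sum_period {M : Type*} [AddCommMonoid M] [Fintype (Slot V I)] (h : Slot V I)
    (F : Slot V I → M) [DecidablePred (L.σ.SameCycle h)] :
    ∑ j ∈ range (L.N h), F ((L.σ ^ j) h) = ∑ g ∈ univ.filter (L.σ.SameCycle h), F g := by
  apply Finset.sum_bij (fun j _ => (L.σ ^ j) h)
  · intro j _
    simp only [mem_filter, mem_univ, true_and]
    exact ⟨j, by simp⟩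
  · intro a ha b hb e
    exact L.pow_inj (mem_range.1 ha) (mem_range.1 hb) e
  · intro g hg
    simp only [mem_filter, mem_univ, true_and] at hg
    obtain ⟨n, hn, e⟩ := (L.sameCycle_iff h g).1 hg
    exact ⟨n, mem_range.2 hn, e⟩
  · intros; rfl

end Lab

end C90
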