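import Pool.Agent.C90.Lift

/-!
# States (MP_c90cf1_co)

A state at level `V`: a labelling, a special coset `nu x` at every vertex `x`, a set `Des` of
designated slots whose labels lie in the special coset, and a potential `Del`.  Every cycle has
exactly two designated slots (an edge, if `bal` holds balanced with respect to `Del`) or exactly
three designated slots at different vertices (a triple).  In the odd phase (`odd`) edges have
different signs, triples have equal signs and `Del = 0`; signs are relative to an orientation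
`eta` of the vertices.
-/

namespace C90

open Finset

variable {G : Type*} [AddCommGroup G] {I : Type*} {V V' : AddSubgroup G} [Finite G] [Finite I]

/-- positions of two different slots of one cycle -/
def Lab.Pos (L : Lab V I) (a b : Slot V I) (m n : ℕ) : Prop :=
  (L.σ ^ (m + 1)) a = b ∧ (L.σ ^ (n + 1)) b = a ∧ m + n + 2 = L.N a

/-- the two arcs between `a` and `b` differ by `d` -/
def Lab.Arc (L : Lab V I) (a b : Slot V I) (d : G) : Prop :=
  ∃ m n, L.Pos a b m n ∧ L.S (L.σ a) m - L.S (L.σ b) n = d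

/-- states -/
structure St (V : AddSubgroup G) (lab0 : I × Bool → G) (odd bal : Prop) extends Lab V I where
  perm : ∀ x : G ⧸ V, ∃ r : Equiv.Perm (I × Bool), ∀ k, lab (x, k) = lab0 (r k)
  nu : G ⧸ V → G ⧸ V
  nuinj : Function.Injective (fun x => x + nu x)
  Des : Set (Slot V I)
  desnu : ∀ h ∈ Des, ((lab h : G) : G ⧸ V) = nu h.1
  Del : G ⧸ V → G
  delodd : odd → ∀ x, Del x = 0
  eta : G ⧸ V → Bool
  loops : ∀ h : Slot V I,
    (∃ a b, a ≠ b ∧ (∀ g, (g ∈ Des ∧ toLab.σ.SameCycle h g) ↔ (g = a ∨ g = b)) ∧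
      (bal → toLab.Arc a b (Del b.1 - Del a.1)) ∧
      (odd → xor a.2.2 (eta a.1) ≠ xor b.2.2 (eta b.1))) ∨
    (∃ a b c, a.1 ≠ b.1 ∧ a.1 ≠ c.1 ∧ b.1 ≠ c.1 ∧
      (∀ g, (g ∈ Des ∧ toLab.σ.SameCycle h g) ↔ (g = a ∨ g = b ∨ g = c)) ∧
      (odd → xor a.2.2 (eta a.1) = xor b.2.2 (eta b.1) ∧
        xor a.2.2 (eta a.1) = xor c.2.2 (eta c.1)))

/-- `s'` refines `s` -/
def Refines {lab0 : I × Bool → G} {odd odd' bal bal' : Prop} (hV : V' ≤ V)
    (s' : St V' lab0 odd' bal') (s : St V lab0 odd bal) : Prop :=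
  (∀ g' ∈ s'.Des, qs hV g' ∈ s.Des) ∧ (∀ x', qm hV (s'.nu x') = s.nu (qm hV x')) ∧
    (∀ g', qs hV g' ∉ s.Des → s'.lab g' = s.lab (qs hV g'))

namespace Lab

variable (L : Lab V I)

theorem Pos.symm {L : Lab V I} {a b : Slot V I} {m n : ℕ} (h : L.Pos a b m n) :
    L.Pos b a n m := by
  obtain ⟨h1, h2, h3⟩ := h
  refine ⟨h2, h1, ?_⟩
  rw [← h1, N_pow]; omega

theorem Arc.symm {L : Lab V I} {a b : Slot V I} {d : G} (h : L.Arc a b d) : L.Arc b a (-d) := by
  obtain ⟨m, n, h1, h2⟩ := h
  exact ⟨n, m, h1.symm, by rw [← h2]; abel⟩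

theorem Pos.unique {L : Lab V I} {a b : Slot V I} {m n m' n' : ℕ} (h : L.Pos a b m n)
    (h' : L.Pos a b m' n') : m = m' ∧ n = n' := by
  obtain ⟨h1, -, h3⟩ := h
  obtain ⟨h1', -, h3'⟩ := h'
  have := L.pow_inj (by omega) (by omega) (h1.trans h1'.symm)
  omega

theorem Arc.unique {L : Lab V I} {a b : Slot V I} {d d' : G} (h : L.Arc a b d)
    (h' : L.Arc a b d') : d = d' := by
  obtain ⟨m, n, h1, h2⟩ := h
  obtain ⟨m', n', h1', h2'⟩ := h'
  obtain ⟨rfl, rfl⟩ := h1.unique h1'
  rw [← h2, ← h2']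

/-- two different slots of one cycle have positions -/
theorem exists_pos {a b : Slot V I} (hab : a ≠ b) (hc : L.σ.SameCycle a b) :
    ∃ m n, L.Pos a b m n := by
  obtain ⟨k, hk, e⟩ := (L.sameCycle_iff a b).1 hc
  have hk0 : k ≠ 0 := by
    rintro rfl
    exact hab (by simpa using e)
  refine ⟨k - 1, L.N a - k - 1, ?_, ?_, by omega⟩
  · rw [Nat.sub_add_cancel (by omega)]; exact e
  · rw [Nat.sub_add_cancel (by omega), ← e, ← Equiv.Perm.mul_apply, ← pow_add,
      Nat.sub_add_cancel (by omega), pow_N]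

theorem Pos.W_eq {L : Lab V I} {a b : Slot V I} {m n : ℕ} (h : L.Pos a b m n) :
    L.W a = L.val a + L.S (L.σ a) m + L.val b + L.S (L.σ b) n := by
  obtain ⟨h1, h2, h3⟩ := h
  have : L.N a = (m + 1) + (n + 1) := by omega
  rw [W, this, S_add, h1, S_succ', S_succ']
  abel

/-- the balance identity in any cover -/
theorem Pos.R_lift {L : Lab V I} (hV : V' ≤ V) {a b : Slot V I} {m n : ℕ} (h : L.Pos a b m n)
    (t : ℕ) {a' : Slot V' I} (ha : qs hV a' = a) :
    (L.lift hV).R (((L.lift hV).σ ^ (m + 1 + t * L.N a)) a') =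
      (L.lift hV).R a' + (((2 * t + 1) • L.W a + (L.S (L.σ a) m - L.S (L.σ b) n) : G) : G ⧸ V') := by
  have key : ∀ (M : Lab V' I) (x : Slot V' I) (k : ℕ),
      M.R ((M.σ ^ (k + 1)) x) = M.R x + ((M.val x + 2 • M.S (M.σ x) k + M.val ((M.σ ^ (k+1)) x) : G)
        : G ⧸ V') := by
    intro M x k
    induction k with
    | zero =>
      simp only [zero_add, pow_one, S_zero, smul_zero, add_zero]
      rw [R_σ, QuotientAddGroup.mk_add, add_assoc]
    | succ k ih =>
      rw [pow_succ', Equiv.Perm.mul_apply, R_σ, ih, S_succ]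
      have : (M.σ ^ k) (M.σ x) = (M.σ ^ (k+1)) x := by
        rw [pow_succ, Equiv.Perm.mul_apply]
      rw [this, add_assoc, add_assoc, ← QuotientAddGroup.mk_add, ← QuotientAddGroup.mk_add]
      congr 2
      abel
  have e1 : m + 1 + t * L.N a = (m + t * L.N a) + 1 := by ring
  rw [e1, key]
  congr 2
  rw [lift_val, ha, lift_S, qs_σ, ha, lift_val, qs_pow, ha]
  have e2 : (L.σ ^ (m + t * L.N a + 1)) a = b := by
    have : m + t * L.N a + 1 = (m + 1) + t * L.N a := by ring
    rw [this, pow_add, Equiv.Perm.mul_apply, (L.pow_eq_iff a (t * L.N a)).2 (Dvd.intro_left _ rfl)]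
    exact h.1
  rw [e2, ← L.N_σ a, S_add_mul_N, W_σ]
  have hW := h.W_eq
  have hW' : L.S (L.σ b) n = L.W a - L.val a - L.S (L.σ a) m - L.val b := by
    rw [hW]; abel
  rw [hW', two_mul, add_smul, add_smul, one_smul, two_smul]
  abel

/-- slots strictly between `a` and `b` are different from `a` and `b` -/
theorem Pos.between {L : Lab V I} {a b : Slot V I} {m n : ℕ} (h : L.Pos a b m n) {j : ℕ}
    (hj : j < m) : (L.σ ^ j) (L.σ a) ≠ a ∧ (L.σ ^ j) (L.σ a) ≠ b := by
  obtain ⟨h1, h2, h3⟩ := h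
  have e : (L.σ ^ j) (L.σ a) = (L.σ ^ (j+1)) a := by rw [pow_succ, Equiv.Perm.mul_apply]
  rw [e]
  constructor
  · intro e'
    have := L.pow_inj (h := a) (m := j + 1) (n := 0) (by omega) (by omega) (by simpa using e')
    omega
  · intro e'
    rw [← h1] at e'
    have := L.pow_inj (h := a) (by omega) (by omega) e'
    omega

theorem σ_congr {L L' : Lab V I}
    (e : ∀ h, ((L'.lab h : G) : G ⧸ V) = ((L.lab h : G) : G ⧸ V)) : L'.σ = L.σ := by
  ext1 h
  have ht : ∀ g, L'.tail g = L.tail g := by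
    intro g
    unfold tail
    rw [e g]
  have hv : ((L'.val h : G) : G ⧸ V) = ((L.val h : G) : G ⧸ V) := by
    unfold val
    split_ifs
    · exact e h
    · rw [QuotientAddGroup.mk_neg, QuotientAddGroup.mk_neg, e h]
  apply L'.σ_unique
  · rw [ht, ht, hv, tail_σ]
  · exact L.σ_snd h

end Lab

section relabel

open scoped Classical

variable {lab0 : I × Bool → G} {odd bal : Prop} (s : St V lab0 odd bal) (w : Equiv.Perm s.Des)
  (hw : ∀ h : s.Des, (w h).1.1 = h.1.1)

/-- new labels after permuting the designated labels -/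
noncomputable def relab (h : Slot V I) : G := s.lab (Equiv.Perm.ofSubtype w h)

theorem relab_of_mem (h : s.Des) : relab s w h.1 = s.lab (w h).1 := by
  unfold relab
  rw [Equiv.Perm.ofSubtype_apply_of_mem w h.2]

theorem relab_of_not_mem {h : Slot V I} (hh : h ∉ s.Des) : relab s w h = s.lab h := by
  unfold relab
  rw [Equiv.Perm.ofSubtype_apply_of_not_mem w hh]

include hw in
theorem ofSubtype_fst (h : Slot V I) : (Equiv.Perm.ofSubtype w h).1 = h.1 := by
  by_cases hh : h ∈ s.Des
  · rw [Equiv.Perm.ofSubtype_apply_of_mem w hh]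
    exact hw ⟨h, hh⟩
  · rw [Equiv.Perm.ofSubtype_apply_of_not_mem w hh]

include hw in
theorem relab_mk (h : Slot V I) : ((relab s w h : G) : G ⧸ V) = ((s.lab h : G) : G ⧸ V) := by
  by_cases hh : h ∈ s.Des
  · have h1 := relab_of_mem s w ⟨h, hh⟩
    simp only at h1
    rw [h1, s.desnu _ (w ⟨h, hh⟩).2, hw, s.desnu h hh]
  · rw [relab_of_not_mem s w hh]

/-- the labelling after relabelling -/
noncomputable def relabLab : Lab V I where
  lab := relab s w
  inj k := by
    have := s.inj k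
    intro x y h
    apply this
    simp only at h ⊢
    rw [relab_mk s w hw, relab_mk s w hw] at h
    exact h

theorem relabLab_σ : (relabLab s w hw).σ = s.σ :=
  Lab.σ_congr (fun h => relab_mk s w hw h)

theorem relabLab_N (h : Slot V I) : (relabLab s w hw).N h = s.N h := by
  unfold Lab.N
  rw [relabLab_σ]

theorem relabLab_val {h : Slot V I} (hh : h ∉ s.Des) : (relabLab s w hw).val h = s.val h := by
  unfold Lab.val
  have : (relabLab s w hw).lab h = s.lab h := relab_of_not_mem s w hh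
  rw [this]

theorem relabLab_arc {a b h : Slot V I} {d : G}
    (hd : ∀ g, (g ∈ s.Des ∧ s.σ.SameCycle h g) ↔ (g = a ∨ g = b))
    (hA : s.Arc a b d) : (relabLab s w hw).Arc a b d := by
  obtain ⟨m, n, hp, e⟩ := hA
  have key : ∀ {a b : Slot V I} {m n : ℕ}, s.Pos a b m n →
      (∀ g, (g ∈ s.Des ∧ s.σ.SameCycle h g) ↔ (g = a ∨ g = b)) →
      (relabLab s w hw).S ((relabLab s w hw).σ a) m = s.S (s.σ a) m := by
    intro a b m n hp hd
    unfold Lab.S
    apply sum_congr rfl
    intro j hj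
    rw [relabLab_σ]
    apply relabLab_val
    intro hmem
    have hs : s.σ.SameCycle h ((s.σ ^ j) (s.σ a)) := by
      have h1 := ((hd a).2 (Or.inl rfl)).2
      have h2 : s.σ.SameCycle a ((s.σ ^ j) (s.σ a)) :=
        ⟨(j + 1 : ℕ), by rw [zpow_natCast, pow_succ, Equiv.Perm.mul_apply]⟩
      exact h1.trans h2
    have h3 := (hd _).1 ⟨hmem, hs⟩
    have h4 := hp.between (mem_range.1 hj)
    rcases h3 with h3 | h3
    · exact h4.1 h3
    · exact h4.2 h3
  refine ⟨m, n, ?_, ?_⟩
  · obtain ⟨h1, h2, h3⟩ := hp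
    refine ⟨?_, ?_, ?_⟩
    · rw [relabLab_σ]; exact h1
    · rw [relabLab_σ]; exact h2
    · rw [relabLab_N]; exact h3
  · rw [key hp hd, key hp.symm (fun g => by rw [hd g, or_comm])]
    exact e

/-- the state after relabelling -/
noncomputable def St.relabel : St V lab0 odd bal where
  toLab := relabLab s w hw
  perm x := by
    obtain ⟨r, hr⟩ := s.perm x
    have hinj : Function.Injective
        (fun k : I × Bool => (Equiv.Perm.ofSubtype w ((x, k) : Slot V I)).2) := by
      intro k k' e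
      have e1 : Equiv.Perm.ofSubtype w ((x, k) : Slot V I) =
          Equiv.Perm.ofSubtype w ((x, k') : Slot V I) := by
        apply Prod.ext _ e
        rw [ofSubtype_fst s w hw, ofSubtype_fst s w hw]
      have := (Equiv.Perm.ofSubtype w).injective e1
      exact (Prod.mk.inj this).2
    refine ⟨(Equiv.ofBijective _ (Finite.injective_iff_bijective.1 hinj)).trans r, fun k => ?_⟩
    change relab s w (x, k) = _
    unfold relab
    have : Equiv.Perm.ofSubtype w ((x, k) : Slot V I) =
        (x, (Equiv.Perm.ofSubtype w ((x, k) : Slot V I)).2) :=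
      Prod.ext (ofSubtype_fst s w hw _) rfl
    rw [this, hr]
    rfl
  nu := s.nu
  nuinj := s.nuinj
  Des := s.Des
  desnu h hh := by
    rw [← s.desnu h hh]
    exact relab_mk s w hw h
  Del := s.Del
  delodd := s.delodd
  eta := s.eta
  loops h := by
    rcases s.loops h with ⟨a, b, h1, h2, h3, h4⟩ | ⟨a, b, c, h1, h2, h3, h4, h5⟩
    · left
      refine ⟨a, b, h1, ?_, fun hb => relabLab_arc s w hw h2 (h3 hb), h4⟩
      rw [relabLab_σ]; exact h2
    · right
      refine ⟨a, b, c, h1, h2, h3, ?_, h5⟩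
      rw [relabLab_σ]; exact h4

@[simp] theorem relabel_nu : (s.relabel w hw).nu = s.nu := rfl
@[simp] theorem relabel_Des : (s.relabel w hw).Des = s.Des := rfl
@[simp] theorem relabel_Del : (s.relabel w hw).Del = s.Del := rfl
@[simp] theorem relabel_eta : (s.relabel w hw).eta = s.eta := rfl
theorem relabel_σ : (s.relabel w hw).σ = s.σ := relabLab_σ s w hw
theorem relabel_lab_mem (h : s.Des) : (s.relabel w hw).lab h.1 = s.lab (w h).1 :=
  relab_of_mem s w h
theorem relabel_lab_not_mem {h : Slot V I} (hh : h ∉ s.Des) :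
    (s.relabel w hw).lab h = s.lab h := relab_of_not_mem s w hh

end relabel

end C90
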