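import Pool.Agent.C90.Arcs

/-!
# The lift of index two (MP_c90cf1_co)
-/

namespace C90

open Finset

variable {G : Type*} [AddCommGroup G] {I : Type*} {V V' : AddSubgroup G} [Finite G] [Finite I]

theorem zmod_two (z : ZMod 2) : z = 0 ∨ z = 1 := by
  revert z; decide

/-- From a state at level `V` whose labels satisfy the conclusion of the two-step lemma one gets a
state at level `V'`, `[V : V'] = 2`. -/
theorem two_lift {lab0 : I × Bool → G} (s : St V lab0 False True)
    (D : Ind V V' 2) (r : G ⧸ V → G) (hr : ∀ x, ((r x : G) : G ⧸ V) = s.nu x)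
    (t : G ⧸ V → ZMod 2)
    (ho : ∀ h, s.W h ∉ V' → ∃ g ∈ s.Des, s.σ.SameCycle h g ∧ D.f (s.lab g - r g.1) = t g.1)
    (hc2 : ∀ h, s.W h ∈ V' → ∀ a b, a ≠ b →
      (∀ g, (g ∈ s.Des ∧ s.σ.SameCycle h g) ↔ (g = a ∨ g = b)) →
      D.f (s.lab a - r a.1) = t a.1 ∧ D.f (s.lab b - r b.1) = t b.1)
    (hc3 : ∀ h, s.W h ∈ V' → ∃ a b, a ≠ b ∧ a ∈ s.Des ∧ b ∈ s.Des ∧ s.σ.SameCycle h a ∧
      s.σ.SameCycle h b ∧ D.f (s.lab a - r a.1) = t a.1 ∧ D.f (s.lab b - r b.1) = t b.1)
    (δ : G ⧸ V → G)
    (hd2 : ∀ h, s.W h ∈ V' → ∀ a b, a ≠ b →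
      (∀ g, (g ∈ s.Des ∧ s.σ.SameCycle h g) ↔ (g = a ∨ g = b)) → δ a.1 = δ b.1)
    (hd3 : ∀ h, s.W h ∈ V' → ∀ a b c, a.1 ≠ b.1 → a.1 ≠ c.1 → b.1 ≠ c.1 →
      (∀ g, (g ∈ s.Des ∧ s.σ.SameCycle h g) ↔ (g = a ∨ g = b ∨ g = c)) →
      D.f (s.lab a - r a.1) = t a.1 → D.f (s.lab b - r b.1) = t b.1 →
      D.f (s.lab c - r c.1) ≠ t c.1 → ∀ d, s.Arc a b d →
      δ b.1 - δ a.1 = d - (s.Del b.1 - s.Del a.1)) :
    ∃ s' : St V' lab0 False True, Refines D.le s' s := by
  classical
  have : Fact (Nat.Prime 2) := ⟨Nat.prime_two⟩
  set q := qm D.le with hq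
  set P : Slot V I → Prop := fun g => g ∈ s.Des ∧ D.f (s.lab g - r g.1) = t g.1 with hP
  obtain ⟨T, hT1, hT2⟩ := s.toLab.exists_choice P
  have hrep : ∀ c : ZMod 2, ∃ a ∈ V, D.f a = c := fun c => D.exists_rep c
  choose rep hrepV hrepf using hrep
  have hlr : ∀ g ∈ s.Des, s.lab g - r g.1 ∈ V := by
    intro g hg
    rw [← QuotientAddGroup.eq_zero_iff (N := V), QuotientAddGroup.mk_sub, s.desnu g hg, hr,
      sub_self]
  let nu' : G ⧸ V' → G ⧸ V' := fun x' => ((r (q x') + rep (t (q x')) : G) : G ⧸ V')
  have hqnu : ∀ x', q (nu' x') = s.nu (q x') := by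
    intro x'
    simp only [nu']
    rw [hq, qm_mk, QuotientAddGroup.mk_add, hr,
        (QuotientAddGroup.eq_zero_iff (rep _)).2 (hrepV _), add_zero]
  let Des' : Set (Slot V' I) := {g' | P (qs D.le g') ∧
    (s.W (qs D.le g') ∉ V' → qs D.le g' = T (qs D.le g'))}
  have hlabmk : ∀ g' : Slot V' I, P (qs D.le g') →
      ((s.lab (qs D.le g') : G) : G ⧸ V') = nu' g'.1 := by
    intro g' hg'
    have h1 := hg'.2
    have h2 := hrepf (D.f (s.lab (qs D.le g') - r (qs D.le g').1))
    rw [D.eq_iff (hrepV _) (hlr _ hg'.1)] at h2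
    rw [eq_comm, ← sub_eq_zero, ← QuotientAddGroup.mk_sub, QuotientAddGroup.eq_zero_iff]
    rw [h1] at h2
    have h3 : r (q g'.1) + rep (t (q g'.1)) - s.lab (qs D.le g') =
      rep (t (qs D.le g').1) - (s.lab (qs D.le g') - r (qs D.le g').1) := by
      simp only [qs_fst]; rw [hq]; abel
    rw [h3]; exact h2
  have hpowsame : ∀ {h' : Slot V' I} {g : Slot V' I}, (s.lift D.le).σ.SameCycle h' g →
      s.σ.SameCycle (qs D.le h') (qs D.le g) := fun hh => s.toLab.sameCycle_qs D.le hh
  refine ⟨{
    toLab := s.lift D.le
    perm := fun x => ?_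
    nu := nu'
    nuinj := ?_
    Des := Des'
    desnu := ?_
    Del := fun x' => s.Del (q x') + δ (q x')
    delodd := fun h => h.elim
    eta := fun x' => s.eta (q x')
    loops := ?_ }, ?_, ?_, ?_⟩
  · obtain ⟨ρ, hρ⟩ := s.perm (q x)
    exact ⟨ρ, fun k => hρ k⟩
  · intro x' y' e
    simp only at e
    have h1 : q x' = q y' := by
      apply s.nuinj
      simp only
      rw [← hqnu, ← hqnu, ← map_add, ← map_add, e]
    simp only [nu'] at e
    rw [h1] at e
    exact add_right_cancel e
  · rintro g' ⟨hg, -⟩
    exact hlabmk g' hg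
  · intro h'
    set h := qs D.le h' with hh
    by_cases hW : s.W h ∈ V'
    · -- closed
      -- an edge upstairs over the tokens `a`, `b`
      have key : ∀ a b : Slot V I, a ≠ b → (∀ g, (P g ∧ s.σ.SameCycle h g) ↔ (g = a ∨ g = b)) →
          (∀ d, s.Arc a b d → δ b.1 - δ a.1 = d - (s.Del b.1 - s.Del a.1)) →
          (∃ a' b', a' ≠ b' ∧
            (∀ g', (g' ∈ Des' ∧ (s.lift D.le).σ.SameCycle h' g') ↔ (g' = a' ∨ g' = b')) ∧
            (True → (s.lift D.le).Arc a' b' ((s.Del (q b'.1) + δ (q b'.1)) -
              (s.Del (q a'.1) + δ (q a'.1)))) ∧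
            (False → xor a'.2.2 (s.eta (q a'.1)) ≠ xor b'.2.2 (s.eta (q b'.1)))) := by
        intro a b hab hd hδ
        obtain ⟨⟨-, -⟩, hsa⟩ := (hd a).2 (Or.inl rfl)
        obtain ⟨⟨-, -⟩, hsb⟩ := (hd b).2 (Or.inr rfl)
        obtain ⟨a', ha1', ha'⟩ := s.toLab.exists_lift D.le h' hsa
        obtain ⟨b', hb1', hb'⟩ := s.toLab.exists_lift D.le h' hsb
        refine ⟨a', b', ?_, ?_, ?_, fun h => h.elim⟩
        · rintro rfl
          exact hab (ha'.symm.trans hb')
        · intro g'
          constructor
          · rintro ⟨hg', hg''⟩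
            rcases (hd (qs D.le g')).1 ⟨hg'.1, hpowsame hg''⟩ with e | e
            · left; exact s.toLab.eq_of_closed D.le hW hg'' ha1' (e.trans ha'.symm)
            · right; exact s.toLab.eq_of_closed D.le hW hg'' hb1' (e.trans hb'.symm)
          · have key : ∀ (x : Slot V I) (x' : Slot V' I), (x = a ∨ x = b) → qs D.le x' = x →
                (s.lift D.le).σ.SameCycle h' x' → x' ∈ Des' ∧ (s.lift D.le).σ.SameCycle h' x' := by
              intro x x' hx hxx' hx'
              obtain ⟨h1, h2⟩ := (hd x).2 hx
              refine ⟨⟨by rw [hxx']; exact h1, fun h3 => absurd ?_ h3⟩, hx'⟩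
              rw [hxx', s.toLab.W_sameCycle h2]
              exact hW
            rintro (rfl | rfl)
            · exact key a _ (Or.inl rfl) ha' ha1'
            · exact key b _ (Or.inr rfl) hb' hb1'
        · intro _
          obtain ⟨m, n, hp⟩ := s.toLab.exists_pos hab (hsa.symm.trans hsb)
          have hA : s.Arc a b (s.S (s.σ a) m - s.S (s.σ b) n) := ⟨m, n, hp, rfl⟩
          have h1 := hδ _ hA
          have h2 : q a'.1 = a.1 := congrArg Prod.fst ha'
          have h3 : q b'.1 = b.1 := congrArg Prod.fst hb'
          rw [h2, h3]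
          have h4 : s.Del b.1 + δ b.1 - (s.Del a.1 + δ a.1) = s.S (s.σ a) m - s.S (s.σ b) n := by
            have : s.Del b.1 + δ b.1 - (s.Del a.1 + δ a.1) = (δ b.1 - δ a.1) +
              (s.Del b.1 - s.Del a.1) := by abel
            rw [this, h1]; abel
          rw [h4]
          apply hA.lift_closed D.le ha' hb' _ (ha1'.symm.trans hb1')
          rw [s.toLab.W_sameCycle hsa]
          exact hW
      rcases s.loops h with ⟨a, b, hab, hd, hA, -⟩ | ⟨a, b, c, hab, hac, hbc, hd, -⟩
      · left
        obtain ⟨ta, tb⟩ := hc2 h hW a b hab hd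
        apply key a b hab
        · intro g
          constructor
          · rintro ⟨h1, h2⟩
            exact (hd g).1 ⟨h1.1, h2⟩
          · intro h1
            obtain ⟨h2, h3⟩ := (hd g).2 h1
            refine ⟨⟨h2, ?_⟩, h3⟩
            rcases h1 with rfl | rfl
            · exact ta
            · exact tb
        · intro d hd'
          rw [← (hA trivial).unique hd', hd2 h hW a b hab hd, sub_self, sub_self]
      · by_cases tall : D.f (s.lab a - r a.1) = t a.1 ∧ D.f (s.lab b - r b.1) = t b.1 ∧
          D.f (s.lab c - r c.1) = t c.1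
        · -- three tokens
          right
          obtain ⟨ta, tb, tc⟩ := tall
          obtain ⟨a', ha1', ha'⟩ := s.toLab.exists_lift D.le h' ((hd a).2 (Or.inl rfl)).2
          obtain ⟨b', hb1', hb'⟩ := s.toLab.exists_lift D.le h' ((hd b).2 (Or.inr (Or.inl rfl))).2
          obtain ⟨c', hc1', hc'⟩ := s.toLab.exists_lift D.le h' ((hd c).2 (Or.inr (Or.inr rfl))).2
          refine ⟨a', b', c', ?_, ?_, ?_, ?_, fun h => h.elim⟩
          · intro e
            apply hab
            rw [← ha', ← hb', qs_fst, qs_fst, e]
          · intro e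
            apply hac
            rw [← ha', ← hc', qs_fst, qs_fst, e]
          · intro e
            apply hbc
            rw [← hb', ← hc', qs_fst, qs_fst, e]
          · intro g'
            constructor
            · rintro ⟨hg', hg''⟩
              rcases (hd (qs D.le g')).1 ⟨hg'.1.1, hpowsame hg''⟩ with e | e | e
              · left; exact s.toLab.eq_of_closed D.le hW hg'' ha1' (e.trans ha'.symm)
              · right; left; exact s.toLab.eq_of_closed D.le hW hg'' hb1' (e.trans hb'.symm)
              · right; right; exact s.toLab.eq_of_closed D.le hW hg'' hc1' (e.trans hc'.symm)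
            · have key : ∀ (x : Slot V I) (x' : Slot V' I), (x = a ∨ x = b ∨ x = c) →
                  qs D.le x' = x →
                  (s.lift D.le).σ.SameCycle h' x' →
                  x' ∈ Des' ∧ (s.lift D.le).σ.SameCycle h' x' := by
                intro x x' hx hxx' hx'
                obtain ⟨h1, h2⟩ := (hd x).2 hx
                have h4 : P x := by
                  refine ⟨h1, ?_⟩
                  rcases hx with rfl | rfl | rfl
                  · exact ta
                  · exact tb
                  · exact tc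
                refine ⟨⟨by rw [hxx']; exact h4, fun h3 => absurd ?_ h3⟩, hx'⟩
                rw [hxx', s.toLab.W_sameCycle h2]
                exact hW
              rintro (rfl | rfl | rfl)
              · exact key a _ (Or.inl rfl) ha' ha1'
              · exact key b _ (Or.inr (Or.inl rfl)) hb' hb1'
              · exact key c _ (Or.inr (Or.inr rfl)) hc' hc1'
        · -- exactly two tokens
          left
          have key2 : ∀ a b c : Slot V I, a.1 ≠ b.1 → a.1 ≠ c.1 → b.1 ≠ c.1 →
              (∀ g, (g ∈ s.Des ∧ s.σ.SameCycle h g) ↔ (g = a ∨ g = b ∨ g = c)) →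
              D.f (s.lab a - r a.1) = t a.1 → D.f (s.lab b - r b.1) = t b.1 →
              D.f (s.lab c - r c.1) ≠ t c.1 →
              (∃ a' b', a' ≠ b' ∧
                (∀ g', (g' ∈ Des' ∧ (s.lift D.le).σ.SameCycle h' g') ↔ (g' = a' ∨ g' = b')) ∧
                (True → (s.lift D.le).Arc a' b' ((s.Del (q b'.1) + δ (q b'.1)) -
                  (s.Del (q a'.1) + δ (q a'.1)))) ∧
                (False → xor a'.2.2 (s.eta (q a'.1)) ≠ xor b'.2.2 (s.eta (q b'.1)))) := by
            intro a b c hab hac hbc hd ta tb tc
            apply key a b (fun e => hab (congrArg Prod.fst e))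
            · intro g
              constructor
              · rintro ⟨h1, h2⟩
                rcases (hd g).1 ⟨h1.1, h2⟩ with rfl | rfl | rfl
                · left; rfl
                · right; rfl
                · exact absurd h1.2 tc
              · rintro (rfl | rfl)
                · obtain ⟨h2, h3⟩ := (hd g).2 (Or.inl rfl)
                  exact ⟨⟨h2, ta⟩, h3⟩
                · obtain ⟨h2, h3⟩ := (hd g).2 (Or.inr (Or.inl rfl))
                  exact ⟨⟨h2, tb⟩, h3⟩
            · exact hd3 h hW a b c hab hac hbc hd ta tb tc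
          obtain ⟨x, y, hxy, hx1, hy1, hx2, hy2, hx3, hy3⟩ := hc3 h hW
          have hx := (hd x).1 ⟨hx1, hx2⟩
          have hy := (hd y).1 ⟨hy1, hy2⟩
          by_cases ta : D.f (s.lab a - r a.1) = t a.1
          · by_cases tb : D.f (s.lab b - r b.1) = t b.1
            · have tc : D.f (s.lab c - r c.1) ≠ t c.1 := fun tc => tall ⟨ta, tb, tc⟩
              exact key2 a b c hab hac hbc hd ta tb tc
            · have tc : D.f (s.lab c - r c.1) = t c.1 := by
                rcases hx with rfl | rfl | rfl
                · rcases hy with rfl | rfl | rfl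
                  · exact absurd rfl hxy
                  · exact absurd hy3 tb
                  · exact hy3
                · exact absurd hx3 tb
                · exact hx3
              apply key2 a c b hac hab (Ne.symm hbc) _ ta tc tb
              intro g
              rw [hd g]; tauto
          · have tb : D.f (s.lab b - r b.1) = t b.1 := by
              rcases hx with rfl | rfl | rfl
              · exact absurd hx3 ta
              · exact hx3
              · rcases hy with rfl | rfl | rfl
                · exact absurd hy3 ta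
                · exact hy3
                · exact absurd rfl hxy
            have tc : D.f (s.lab c - r c.1) = t c.1 := by
              rcases hx with rfl | rfl | rfl
              · exact absurd hx3 ta
              · rcases hy with rfl | rfl | rfl
                · exact absurd hy3 ta
                · exact absurd rfl hxy
                · exact hy3
              · exact hx3
            apply key2 b c a hbc (Ne.symm hab) (Ne.symm hac) _ tb tc ta
            intro g
            rw [hd g]; tauto
    · -- open
      left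
      have hex : ∃ g, s.σ.SameCycle h g ∧ P g := by
        obtain ⟨g, h1, h2, h3⟩ := ho h hW
        exact ⟨g, h2, h1, h3⟩
      obtain ⟨ht1, ht2⟩ := hT2 h hex
      set a' : Slot V' I := (((((T h).1.out : G)) : G ⧸ V'), (T h).2) with ha'
      have hqa : qs D.le a' = T h := Prod.ext (Quotient.out_eq' (T h).1) rfl
      have hWT : s.W (T h) ∉ V' := by
        rw [s.toLab.W_sameCycle ht1]; exact hW
      have hWV := s.toLab.W_mem (T h)
      have hfW : D.f (s.W (T h)) = 1 := by
        have h0 : D.f (s.W (T h)) ≠ 0 := fun h0 => hWT ((D.ker _ hWV).1 h0)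
        exact (zmod_two _).resolve_left h0
      refine ⟨a', tr (s.W (T h)) a', ?_, ?_, ?_, fun h => h.elim⟩
      · intro e
        apply hWT
        have := tr_inj ((tr_zero a').trans e)
        rw [zero_sub] at this
        exact (V'.neg_mem_iff).1 this
      · intro g'
        constructor
        · rintro ⟨hg', hg''⟩
          have h1 := hpowsame hg''
          rw [← hh] at h1
          have h2 := hg'.2 (by rw [s.toLab.W_sameCycle h1]; exact hW)
          rw [← hT1 h _ h1, ← hqa] at h2
          obtain ⟨v, hv, rfl⟩ := exists_tr D.le h2.symm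
          rcases zmod_two (D.f v) with h3 | h3
          · left
            exact tr_eq_self a' ((D.ker v hv).1 h3)
          · right
            apply tr_congr
            rw [← D.eq_iff hv hWV, h3, hfW]
        · intro hg'
          have h1 : qs D.le g' = T h := by
            rcases hg' with rfl | rfl
            · exact hqa
            · rw [qs_tr D.le hWV, hqa]
          have h2 : s.σ.SameCycle h (qs D.le g') := by rw [h1]; exact ht1
          refine ⟨⟨by rw [h1]; exact ht2, fun _ => ?_⟩, ?_⟩
          · rw [← hT1 h _ h2, h1]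
          · exact s.toLab.sameCycle_open D (by rw [← hh]; exact hW) h2
      · intro _
        have h1 : q (tr (s.W (T h)) a').1 = q a'.1 :=
          congrArg Prod.fst (qs_tr D.le hWV a')
        rw [h1, sub_self]
        have h2 := s.toLab.arc_vertical D (a' := a') (by rw [hqa]; exact hWT)
        rw [hqa] at h2
        exact h2
  · rintro g' ⟨hg, -⟩
    exact hg.1
  · exact hqnu
  · intro g' _
    rfl

end C90
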