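import Pool.Agent.C90.TwoStepMain

set_option linter.unusedSectionVars false

/-!
# The 2-step lemma (MP_c90cf1_co): final form

Author: helper71.  `two_step` is helper25's black box of worklog 3135.
-/

namespace C90

open Finset TwoStep

variable {X L H : Type*} [Fintype X] [DecidableEq X] [Fintype L] [DecidableEq L]
  [Fintype H] [DecidableEq H]

/-- the 2-step lemma for label functions -/
theorem two_step_lam {G : Type*} [AddCommGroup G] (v : H → X) (l : H → L) (b0 : H → ZMod 2)
    (c : L → ZMod 2)
    (hyp : ∀ a, ((univ.filter fun h => l h = a).card = 2 ∧ c a = 0) ∨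
      ((univ.filter fun h => l h = a).card = 3 ∧
        ∀ h h', l h = a → l h' = a → v h = v h' → h = h')) :
    ∃ (lam : H → ZMod 2) (s : X → ZMod 2),
      (∀ x, cnt v (univ.filter fun h => b0 h = 1) x =
        cnt v (univ.filter fun h => lam h = 1) x) ∧
      (∀ a, (∑ h with l h = a, lam h) ≠ c a → ∃ h, l h = a ∧ lam h = s (v h)) ∧
      (∀ a, (∑ h with l h = a, lam h) = c a → (univ.filter fun h => l h = a).card = 2 →
        ∀ h, l h = a → lam h = s (v h)) ∧
      (∀ a, (∑ h with l h = a, lam h) = c a →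
        ∃ h h', h ≠ h' ∧ l h = a ∧ l h' = a ∧ lam h = s (v h) ∧ lam h' = s (v h')) ∧
      ∀ g : H → H → G, (∀ h h', g h' h = - g h h') → ∃ δ : X → G,
        (∀ h h', l h = l h' → (univ.filter fun k => l k = l h).card = 2 →
          (∑ k with l k = l h, lam k) = c (l h) → δ (v h) = δ (v h')) ∧
        (∀ h h' k, h ≠ h' → l h = l h' → l k = l h → (∑ k with l k = l h, lam k) = c (l h) →
          lam h = s (v h) → lam h' = s (v h') → lam k ≠ s (v k) →
          δ (v h') - δ (v h) = g h h') := by
  classical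
  obtain ⟨J1, T1, A2, J2, T2, R, hcnt1, hcnt2, hδ1, hδ2⟩ :=
    exists_rounds (G := G) v l b0 c hyp
  set lam : H → ZMod 2 := fun h =>
    zb (lb (decide (T1 (v h))) (decide (h ∈ J1)) (decide (h ∈ J2))) with hlam
  set s : X → ZMod 2 := fun x => zb (decide (T1 x) && !decide (T2 x)) with hs
  have htok : ∀ h, lam h = s (v h) ↔
      tk (decide (T1 (v h))) (decide (h ∈ J1)) (decide (h ∈ J2)) (decide (T2 (v h))) = true :=
    fun h => tk_iff _ _ _ _
  -- the elements of the loops
  have h3el : ∀ a, (univ.filter fun h => l h = a).card = 3 → ∃ p q r, p ≠ q ∧ p ≠ r ∧ q ≠ r ∧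
      (∀ h, l h = a ↔ h = p ∨ h = q ∨ h = r) ∧
      (∑ h with l h = a, lam h) = lam p + (lam q + lam r) := by
    intro a ha
    obtain ⟨p, q, r, hpq, hpr, hqr, hS⟩ := card_eq_three.1 ha
    refine ⟨p, q, r, hpq, hpr, hqr, fun h => ?_, ?_⟩
    · have : h ∈ (univ.filter fun h => l h = a) ↔ h ∈ ({p, q, r} : Finset H) := by rw [hS]
      simpa using this
    · rw [hS, sum_insert (by simp [hpq, hpr]), sum_insert (by simp [hqr]), sum_singleton]
  have h2el : ∀ a, (univ.filter fun h => l h = a).card = 2 → ∃ p q, p ≠ q ∧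
      (∀ h, l h = a ↔ h = p ∨ h = q) ∧
      (∑ h with l h = a, lam h) = lam p + lam q := by
    intro a ha
    obtain ⟨p, q, hpq, hS⟩ := card_eq_two.1 ha
    refine ⟨p, q, hpq, fun h => ?_, ?_⟩
    · have : h ∈ (univ.filter fun h => l h = a) ↔ h ∈ ({p, q} : Finset H) := by rw [hS]
      simpa using this
    · rw [hS, sum_insert (by simp [hpq]), sum_singleton]
  have hc01 : ∀ a, c a = 0 ∨ c a = 1 := by
    intro a
    generalize c a = z
    revert z; decide
  refine ⟨lam, s, ?_, ?_, ?_, ?_, ?_⟩
  · -- counts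
    intro x
    by_cases hx : T1 x
    · have e1 := cnt_univ_split v b0 x
      have e2 := hcnt2 x hx
      have e3 := cnt_sdiff v (subset_univ J2) x
      have e4 : cnt v (univ.filter fun h => lam h = 1) x = cnt v (univ \ J2) x := by
        apply cnt_congr
        intro h hh
        simp only [mem_filter, mem_univ, true_and, mem_sdiff, hlam, zb_one, hh, lb,
          decide_eq_true hx, cond_true, Bool.not_eq_true', decide_eq_false_iff_not]
      omega
    · rw [← hcnt1 x hx]
      apply cnt_congr
      intro h hh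
      simp only [mem_filter, mem_univ, true_and, hlam, zb_one, hh, lb,
        decide_eq_false hx, cond_false, decide_eq_true_eq]
  · -- open loops
    intro a ha
    rcases hyp a with ⟨h2, hc⟩ | ⟨h3, _⟩
    · obtain ⟨p, q, hpq, hf, hsum⟩ := h2el a h2
      have hcon := R.con2 hpq hf h2
      unfold con2 at hcon
      simp only [Bool.and_eq_true, im_iff] at hcon
      rw [hsum, hc] at ha
      have hcl : cl2 (lb (decide (T1 (v p))) (decide (p ∈ J1)) (decide (p ∈ J2)))
          (lb (decide (T1 (v q))) (decide (q ∈ J1)) (decide (q ∈ J2))) = false := by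
        rw [← Bool.not_eq_true, ← zb_cl2]
        exact ha
      have h5 := hcon.1.1 (by rw [hcl]; rfl)
      rw [Bool.or_eq_true] at h5
      rcases h5 with h5 | h5
      · exact ⟨p, (hf p).2 (Or.inl rfl), (htok p).2 h5⟩
      · exact ⟨q, (hf q).2 (Or.inr rfl), (htok q).2 h5⟩
    · obtain ⟨p, q, r, hpq, hpr, hqr, hf, hsum⟩ := h3el a h3
      rw [hsum] at ha
      have h5 : (tk (decide (T1 (v p))) (decide (p ∈ J1)) (decide (p ∈ J2)) (decide (T2 (v p))) ||
          tk (decide (T1 (v q))) (decide (q ∈ J1)) (decide (q ∈ J2)) (decide (T2 (v q))) ||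
          tk (decide (T1 (v r))) (decide (r ∈ J1)) (decide (r ∈ J2)) (decide (T2 (v r)))) =
            true := by
        rcases hc01 a with hc | hc
        · have hcon := R.con0 hpq hpr hqr hf h3 hc
          unfold con0 at hcon
          simp only [Bool.and_eq_true, im_iff] at hcon
          rw [hc] at ha
          apply hcon.1.1
          rw [Bool.not_eq_true', ← Bool.not_eq_true, ← zb_cl3]
          exact ha
        · have hcon := R.con1 hpq hpr hqr hf h3 hc
          unfold con1 at hcon
          simp only [Bool.and_eq_true, im_iff] at hcon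
          rw [hc] at ha
          apply hcon.1.1
          rw [Bool.not_not, ← Bool.not_eq_false, ← zb_cl3']
          exact ha
      rw [Bool.or_eq_true, Bool.or_eq_true] at h5
      rcases h5 with (h5 | h5) | h5
      · exact ⟨p, (hf p).2 (Or.inl rfl), (htok p).2 h5⟩
      · exact ⟨q, (hf q).2 (Or.inr (Or.inl rfl)), (htok q).2 h5⟩
      · exact ⟨r, (hf r).2 (Or.inr (Or.inr rfl)), (htok r).2 h5⟩
  · -- closed loops with two ends
    intro a ha h2 h hl
    have hc : c a = 0 := by
      rcases hyp a with ⟨_, hc⟩ | ⟨h3, _⟩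
      · exact hc
      · omega
    obtain ⟨p, q, hpq, hf, hsum⟩ := h2el a h2
    have hcon := R.con2 hpq hf h2
    unfold con2 at hcon
    simp only [Bool.and_eq_true, im_iff] at hcon
    rw [hsum, hc] at ha
    have h5 := hcon.1.2 ((zb_cl2 _ _).1 ha)
    rcases (hf h).1 hl with rfl | rfl
    · exact (htok _).2 h5.1
    · exact (htok _).2 h5.2
  · -- closed loops: two tokens
    intro a ha
    rcases hyp a with ⟨h2, hc⟩ | ⟨h3, _⟩
    · obtain ⟨p, q, hpq, hf, hsum⟩ := h2el a h2
      have hcon := R.con2 hpq hf h2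
      unfold con2 at hcon
      simp only [Bool.and_eq_true, im_iff] at hcon
      rw [hsum, hc] at ha
      have h5 := hcon.1.2 ((zb_cl2 _ _).1 ha)
      exact ⟨p, q, hpq, (hf p).2 (Or.inl rfl), (hf q).2 (Or.inr rfl), (htok _).2 h5.1,
        (htok _).2 h5.2⟩
    · obtain ⟨p, q, r, hpq, hpr, hqr, hf, hsum⟩ := h3el a h3
      rw [hsum] at ha
      have h5 : two3
          (tk (decide (T1 (v p))) (decide (p ∈ J1)) (decide (p ∈ J2)) (decide (T2 (v p))))
          (tk (decide (T1 (v q))) (decide (q ∈ J1)) (decide (q ∈ J2)) (decide (T2 (v q))))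
          (tk (decide (T1 (v r))) (decide (r ∈ J1)) (decide (r ∈ J2)) (decide (T2 (v r)))) =
            true := by
        rcases hc01 a with hc | hc
        · have hcon := R.con0 hpq hpr hqr hf h3 hc
          unfold con0 at hcon
          simp only [Bool.and_eq_true, im_iff] at hcon
          rw [hc] at ha
          exact hcon.1.2 ((zb_cl3 _ _ _).1 ha)
        · have hcon := R.con1 hpq hpr hqr hf h3 hc
          unfold con1 at hcon
          simp only [Bool.and_eq_true, im_iff] at hcon
          rw [hc] at ha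
          apply hcon.1.2
          rw [Bool.not_eq_true']
          exact (zb_cl3' _ _ _).1 ha
      have lp := (hf p).2 (Or.inl rfl)
      have lq := (hf q).2 (Or.inr (Or.inl rfl))
      have lr := (hf r).2 (Or.inr (Or.inr rfl))
      unfold two3 at h5
      simp only [Bool.or_eq_true, Bool.and_eq_true] at h5
      rcases h5 with (⟨h5, h6⟩ | ⟨h5, h6⟩) | ⟨h5, h6⟩
      · exact ⟨p, q, hpq, lp, lq, (htok _).2 h5, (htok _).2 h6⟩
      · exact ⟨p, r, hpr, lp, lr, (htok _).2 h5, (htok _).2 h6⟩
      · exact ⟨q, r, hqr, lq, lr, (htok _).2 h5, (htok _).2 h6⟩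
  · -- potentials
    intro g hg
    obtain ⟨δ1, hδ1a, hδ1b⟩ := hδ1 g hg
    obtain ⟨δ2, hδ2a, hδ2b⟩ := hδ2 g hg
    refine ⟨fun x => if T1 x then δ2 x else δ1 x, ?_, ?_⟩
    · intro h h' hl h2 ha
      have hc : c (l h) = 0 := by
        rcases hyp (l h) with ⟨_, hc⟩ | ⟨h3, _⟩
        · exact hc
        · omega
      obtain ⟨p, q, hpq, hf, hsum⟩ := h2el (l h) h2
      have hcon := R.con2 hpq hf h2
      unfold con2 at hcon
      simp only [Bool.and_eq_true, im_iff] at hcon
      rw [hsum, hc] at ha
      have h5 := hcon.2 ((zb_cl2 _ _).1 ha)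
      have hE1 : ¬ E1 l c (l h) := fun h => by
        have := h.1
        omega
      have htr : Trans l (E1 l c) J1 (l h) ↔ cnt l J1 (l h) = 1 := by
        constructor
        · rintro (⟨_, h⟩ | ⟨h, _⟩)
          · exact h
          · exact absurd h hE1
        · intro h; exact Or.inl ⟨hE1, h⟩
      have lp := (hf p).2 (Or.inl rfl)
      have lq := (hf q).2 (Or.inr rfl)
      rw [← cnt_two hpq hf J1, ← cnt_two hpq hf J2, R.ac2 hf htr p lp, R.ac2 hf htr q lq] at h5
      simp only [Bool.or_eq_true, Bool.and_eq_true, Bool.not_eq_true', decide_eq_false_iff_not,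
        decide_eq_true_eq, beq_iff_eq] at h5
      have hall : (∀ k, l k = l h → ¬ T1 (v k)) ∧ cnt l J1 (l h) = 0 ∨
          (∀ k, l k = l h → k ∈ A2) ∧ cnt l J2 (l h) = 0 := by
        rcases h5 with ⟨⟨h6, h7⟩, h8⟩ | ⟨⟨h6, h7⟩, h8⟩
        · left
          refine ⟨fun k hk => ?_, h8⟩
          rcases (hf k).1 hk with rfl | rfl <;> assumption
        · right
          refine ⟨fun k hk => ?_, h8⟩
          rcases (hf k).1 hk with rfl | rfl <;> assumption
      rcases hall with ⟨h6, h7⟩ | ⟨h6, h7⟩
      · simp only [if_neg (h6 h rfl), if_neg (h6 h' hl.symm)]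
        exact hδ1a h h' h2 hl h7
      · have t1 := ((R.act h).1 (h6 h rfl)).1
        have t2 := ((R.act h').1 (h6 h' hl.symm)).1
        simp only [if_pos t1, if_pos t2]
        exact hδ2a h (h6 h rfl) h' (h6 h' hl.symm) h2 hl h7
    · intro h h' k hne hl hk ha ht ht' hnt
      -- the loop has three ends
      have h3 : (univ.filter fun k => l k = l h).card = 3 := by
        rcases hyp (l h) with ⟨h2, hc⟩ | ⟨h3, _⟩
        · exfalso
          obtain ⟨p, q, hpq, hf, hsum⟩ := h2el (l h) h2
          have hcon := R.con2 hpq hf h2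
          unfold con2 at hcon
          simp only [Bool.and_eq_true, im_iff] at hcon
          rw [hsum, hc] at ha
          have h5 := hcon.1.2 ((zb_cl2 _ _).1 ha)
          apply hnt
          rcases (hf k).1 hk with rfl | rfl
          · exact (htok _).2 h5.1
          · exact (htok _).2 h5.2
        · exact h3
      obtain ⟨p, q, r, hpq, hpr, hqr, hf, hsum⟩ := h3el (l h) h3
      rw [hsum] at ha
      have lp := (hf p).2 (Or.inl rfl)
      have lq := (hf q).2 (Or.inr (Or.inl rfl))
      have lr := (hf r).2 (Or.inr (Or.inr rfl))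
      have hnall : ¬ ((tk (decide (T1 (v p))) (decide (p ∈ J1)) (decide (p ∈ J2))
            (decide (T2 (v p))) &&
          tk (decide (T1 (v q))) (decide (q ∈ J1)) (decide (q ∈ J2)) (decide (T2 (v q))) &&
          tk (decide (T1 (v r))) (decide (r ∈ J1)) (decide (r ∈ J2)) (decide (T2 (v r)))) =
            true) := by
        rw [Bool.and_eq_true, Bool.and_eq_true]
        rintro ⟨⟨h5, h6⟩, h7⟩
        apply hnt
        rcases (hf k).1 hk with rfl | rfl | rfl
        · exact (htok _).2 h5
        · exact (htok _).2 h6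
        · exact (htok _).2 h7
      rcases hc01 (l h) with hc | hc
      · have hcon := R.con0 hpq hpr hqr hf h3 hc
        unfold con0 at hcon
        simp only [Bool.and_eq_true, im_iff] at hcon
        rw [hc] at ha
        have h5 := hcon.2 ((zb_cl3 _ _ _).1 ha) (by rw [Bool.not_eq_true', ← Bool.not_eq_true]; exact hnall)
        have hE1 : ¬ E1 l c (l h) := fun h => by
          have := h.2
          rw [hc] at this
          exact absurd this (by decide)
        have htr : Trans l (E1 l c) J1 (l h) ↔ cnt l J1 (l h) = 1 := by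
          constructor
          · rintro (⟨_, h⟩ | ⟨h, _⟩)
            · exact h
            · exact absurd h hE1
          · intro h; exact Or.inl ⟨hE1, h⟩
        rw [← cnt_three hpq hpr hqr hf J1, ← cnt_three hpq hpr hqr hf J2, R.ac3 hf htr p lp,
          R.ac3 hf htr q lq, R.ac3 hf htr r lr] at h5
        obtain ⟨⟨⟨⟨⟨⟨⟨⟨⟨a1, a2⟩, a3⟩, hk1⟩, b1⟩, b2⟩, b3⟩, k1⟩, k2⟩, k3⟩ := h5
        have hA : ∀ k, l k = l h → k ∈ A2 := by
          intro k hk
          rcases (hf k).1 hk with rfl | rfl | rfl
          · simpa using a1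
          · simpa using a2
          · simpa using a3
        have hT : ∀ k, l k = l h → T1 (v k) := fun k hk => ((R.act k).1 (hA k hk)).1
        have hJT : ∀ k, l k = l h → k ∈ J2 → ¬ T2 (v k) := by
          intro k hk hkJ
          rcases (hf k).1 hk with rfl | rfl | rfl
          · simpa [hkJ] using b1
          · simpa [hkJ] using b2
          · simpa [hkJ] using b3
        have hJ : ∀ k, l k = l h → (lam k = s (v k) ↔ k ∉ J2) := by
          intro k hk
          rw [htok]
          rcases (hf k).1 hk with rfl | rfl | rfl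
          · rw [beq_iff_eq.1 k1]; simp
          · rw [beq_iff_eq.1 k2]; simp
          · rw [beq_iff_eq.1 k3]; simp
        have t1 := hT h rfl
        have t2 := hT h' hl.symm
        simp only [if_pos t1, if_pos t2]
        refine hδ2b h (hA h rfl) h' (hA h' hl.symm) ((hJ h rfl).1 ht) ((hJ h' hl.symm).1 ht') hne
          hl ⟨⟨h3, hc, hT⟩, by simpa using hk1⟩ fun j hj hlj => hJT j hlj hj
      · have hcon := R.con1 hpq hpr hqr hf h3 hc
        unfold con1 at hcon
        simp only [Bool.and_eq_true, im_iff] at hcon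
        rw [hc] at ha
        have h5 := hcon.2 (by rw [Bool.not_eq_true']; exact (zb_cl3' _ _ _).1 ha)
          (by rw [Bool.not_eq_true', ← Bool.not_eq_true]; exact hnall)
        rw [← cnt_three hpq hpr hqr hf J1] at h5
        obtain ⟨⟨⟨⟨⟨⟨a1, a2⟩, a3⟩, hk1⟩, k1⟩, k2⟩, k3⟩ := h5
        have hT : ∀ k, l k = l h → ¬ T1 (v k) := by
          intro k hk
          rcases (hf k).1 hk with rfl | rfl | rfl
          · simpa using a1
          · simpa using a2
          · simpa using a3
        have hJ : ∀ k, l k = l h → (lam k = s (v k) ↔ k ∉ J1) := by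
          intro k hk
          rw [htok]
          rcases (hf k).1 hk with rfl | rfl | rfl
          · rw [beq_iff_eq.1 k1]; simp
          · rw [beq_iff_eq.1 k2]; simp
          · rw [beq_iff_eq.1 k3]; simp
        have t1 := hT h rfl
        have t2 := hT h' hl.symm
        simp only [if_neg t1, if_neg t2]
        refine hδ1b h h' ((hJ h rfl).1 ht) ((hJ h' hl.symm).1 ht') hne
          hl ⟨⟨h3, hc⟩, by simpa using hk1⟩ fun j _ hlj => hT j hlj

/-- **The 2-step lemma** (helper25's interface, worklog 3135 of MP_c90cf1_co). -/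
theorem two_step {G : Type*} [AddCommGroup G] (v : H → X) (l : H → L) (b0 : H → ZMod 2)
    (c : L → ZMod 2)
    (hyp : ∀ a, ((univ.filter fun h => l h = a).card = 2 ∧ c a = 0) ∨
      ((univ.filter fun h => l h = a).card = 3 ∧
        ∀ h h', l h = a → l h' = a → v h = v h' → h = h')) :
    ∃ (w : Equiv.Perm H) (s : X → ZMod 2), (∀ h, v (w h) = v h) ∧
      (∀ a, (∑ h with l h = a, b0 (w h)) ≠ c a → ∃ h, l h = a ∧ b0 (w h) = s (v h)) ∧
      (∀ a, (∑ h with l h = a, b0 (w h)) = c a → (univ.filter fun h => l h = a).card = 2 →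
        ∀ h, l h = a → b0 (w h) = s (v h)) ∧
      (∀ a, (∑ h with l h = a, b0 (w h)) = c a →
        ∃ h h', h ≠ h' ∧ l h = a ∧ l h' = a ∧ b0 (w h) = s (v h) ∧ b0 (w h') = s (v h')) ∧
      ∀ g : H → H → G, (∀ h h', g h' h = - g h h') → ∃ δ : X → G,
        (∀ h h', l h = l h' → (univ.filter fun k => l k = l h).card = 2 →
          (∑ k with l k = l h, b0 (w k)) = c (l h) → δ (v h) = δ (v h')) ∧
        (∀ h h' k, h ≠ h' → l h = l h' → l k = l h →
          (∑ k with l k = l h, b0 (w k)) = c (l h) →
          b0 (w h) = s (v h) → b0 (w h') = s (v h') → b0 (w k) ≠ s (v k) →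
          δ (v h') - δ (v h) = g h h') := by
  obtain ⟨lam, s, hcnt, h1, h2, h3, h4⟩ := two_step_lam (G := G) v l b0 c hyp
  obtain ⟨w, hw1, hw2⟩ := exists_perm v b0 lam hcnt
  refine ⟨w, s, hw1, ?_⟩
  simp only [hw2]
  exact ⟨h1, h2, h3, h4⟩

end C90
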