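import Pool.Agent.C90.OddLift
import Pool.Agent.C90.TwoLift
import Pool.Agent.C90.TwoStepFinal
import Pool.Agent.Helper15.OS.Main

/-!
# The two step theorems for states (MP_c90cf1_co)
-/

namespace C90

open Finset
open scoped Classical

variable {G : Type*} [AddCommGroup G] {I : Type*} {V V' : AddSubgroup G} [Finite G] [Finite I]

theorem Refines.of_relabel {lab0 : I × Bool → G} {odd odd' bal bal' : Prop} {hV : V' ≤ V}
    {s : St V lab0 odd bal} {w : Equiv.Perm s.Des} {hw : ∀ h : s.Des, (w h).1.1 = h.1.1}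
    {s' : St V' lab0 odd' bal'} (h : Refines hV s' (s.relabel w hw)) : Refines hV s' s := by
  obtain ⟨h1, h2, h3⟩ := h
  refine ⟨h1, h2, fun g' hg' => ?_⟩
  rw [h3 g' hg']
  exact relabel_lab_not_mem s w hw hg'

/-- change of the holonomy under relabelling -/
theorem f_W_relabel {lab0 : I × Bool → G} {odd bal : Prop} (s : St V lab0 odd bal)
    (w : Equiv.Perm s.Des) (hw : ∀ h : s.Des, (w h).1.1 = h.1.1) {p : ℕ} (D : Ind V V' p)
    (r : G ⧸ V → G) (hr : ∀ x, ((r x : G) : G ⧸ V) = s.nu x) [Fintype s.Des] (h : Slot V I) :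
    D.f ((s.relabel w hw).W h) = D.f (s.W h) + ∑ g : s.Des,
      if s.σ.SameCycle h g.1 then (if g.1.2.2 = true then (1 : ZMod p) else -1) *
        (D.f (s.lab (w g).1 - r g.1.1) - D.f (s.lab g.1 - r g.1.1)) else 0 := by
  have : Fintype (Slot V I) := Fintype.ofFinite _
  set s' := s.relabel w hw with hs'
  have hσ : s'.σ = s.σ := relabel_σ s w hw
  have hN : s'.N h = s.N h := by unfold Lab.N; rw [hσ]
  have hlr : ∀ g ∈ s.Des, s.lab g - r g.1 ∈ V := by
    intro g hg
    rw [← QuotientAddGroup.eq_zero_iff (N := V), QuotientAddGroup.mk_sub, s.desnu g hg, hr,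
      sub_self]
  have hval0 : ∀ g, g ∉ s.Des → s'.val g - s.val g = 0 := by
    intro g hg
    unfold Lab.val
    rw [relabel_lab_not_mem s w hw hg, sub_self]
  have hvalD : ∀ g : s.Des, s'.val g.1 - s.val g.1 = if g.1.2.2 = true then
      (s.lab (w g).1 - r g.1.1) - (s.lab g.1 - r g.1.1) else
      -((s.lab (w g).1 - r g.1.1) - (s.lab g.1 - r g.1.1)) := by
    intro g
    unfold Lab.val
    rw [relabel_lab_mem s w hw g]
    split_ifs <;> abel
  have hwr : ∀ g : s.Des, s.lab (w g).1 - r g.1.1 ∈ V := by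
    intro g
    have := hlr _ (w g).2
    rw [hw] at this
    exact this
  have hvalV : ∀ g, s'.val g - s.val g ∈ V := by
    intro g
    by_cases hg : g ∈ s.Des
    · rw [hvalD ⟨g, hg⟩]
      split_ifs
      · exact V.sub_mem (hwr _) (hlr _ hg)
      · exact V.neg_mem (V.sub_mem (hwr _) (hlr _ hg))
    · rw [hval0 g hg]; exact V.zero_mem
  have hfval : ∀ g : s.Des, D.f (s'.val g.1 - s.val g.1) =
      (if g.1.2.2 = true then (1 : ZMod p) else -1) *
        (D.f (s.lab (w g).1 - r g.1.1) - D.f (s.lab g.1 - r g.1.1)) := by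
    intro g
    rw [hvalD g]
    split_ifs
    · rw [D.sub (hwr g) (hlr _ g.2), one_mul]
    · rw [D.neg (V.sub_mem (hwr g) (hlr _ g.2)), D.sub (hwr g) (hlr _ g.2)]; ring
  have hW : s'.W h = s.W h + ∑ g ∈ univ.filter (s.σ.SameCycle h), (s'.val g - s.val g) := by
    have h1 := s.toLab.sum_period h s'.val
    have h2 := s.toLab.sum_period h s.val
    have h3 : s'.W h = ∑ j ∈ range (s.N h), s'.val ((s.σ ^ j) h) := by
      unfold Lab.W Lab.S
      rw [hN, hσ]
    rw [h3, h1, sum_sub_distrib, ← h2]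
    unfold Lab.W Lab.S
    abel
  rw [hW, D.add _ (s.W_mem h) _ (V.sum_mem fun g _ => hvalV g),
    D.sum _ _ (fun g _ => hvalV g)]
  congr 1
  have e1 : ∑ g ∈ univ.filter (s.σ.SameCycle h), D.f (s'.val g - s.val g) =
      ∑ g : Slot V I, if s.σ.SameCycle h g then D.f (s'.val g - s.val g) else 0 := by
    rw [sum_filter]
  rw [e1]
  have e2 : ∑ g : Slot V I, (if s.σ.SameCycle h g then D.f (s'.val g - s.val g) else 0) =
      ∑ g ∈ univ.filter (fun g => g ∈ s.Des),
        (if s.σ.SameCycle h g then D.f (s'.val g - s.val g) else 0) := by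
    symm
    apply sum_subset (filter_subset _ _)
    intro g _ hg
    simp only [mem_filter, mem_univ, true_and] at hg
    rw [hval0 g hg, D.zero]
    simp
  have e3 : ∑ g ∈ univ.filter (fun g => g ∈ s.Des),
        (if s.σ.SameCycle h g then D.f (s'.val g - s.val g) else 0) =
      ∑ g : s.Des, (if s.σ.SameCycle h g.1 then D.f (s'.val g.1 - s.val g.1) else 0) :=
    Finset.sum_subtype (p := fun g => g ∈ s.Des) _ (by simp) _
  rw [e2, e3]
  apply sum_congr rfl
  intro g _
  rw [hfval g]
  by_cases hh : s.σ.SameCycle h g.1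
  · rw [if_pos hh, if_pos hh]
  · rw [if_neg hh, if_neg hh]

theorem sign_aux (x y : Bool) (h : x ≠ y) :
    (if x = true then (1 : ℤ) else -1) + (if y = true then (1 : ℤ) else -1) = 0 := by
  revert x y; decide

/-- the odd step for states -/
theorem odd_step {lab0 : I × Bool → G} {bal : Prop} (s : St V lab0 True bal) {p : ℕ}
    [Fact p.Prime] (hp2 : p ≠ 2) (D : Ind V V' p) :
    ∃ s' : St V' lab0 True bal, Refines D.le s' s := by
  have hpp : p.Prime := Fact.out
  have : Fintype s.Des := Fintype.ofFinite _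
  let st := Equiv.Perm.SameCycle.setoid s.σ
  have : Finite (Quotient st) := Quotient.finite st
  have : Fintype (Quotient st) := Fintype.ofFinite _
  let qt : Slot V I → Quotient st := Quotient.mk st
  have hqt : ∀ h g, qt h = qt g ↔ s.σ.SameCycle h g := fun h g => Quotient.eq
  have hqo : ∀ (l : Quotient st) (g : Slot V I), qt g = l ↔ s.σ.SameCycle l.out g := by
    intro l g
    rw [← hqt]
    have : qt l.out = l := Quotient.out_eq l
    rw [this, eq_comm]
  let r : G ⧸ V → G := fun x => (s.nu x).out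
  have hr : ∀ x, ((r x : G) : G ⧸ V) = s.nu x := fun x => Quotient.out_eq' (s.nu x)
  let ε : G ⧸ V → ZMod p := fun x => if s.eta x = true then -1 else 1
  have hεε : ∀ x, ε x * ε x = 1 := by
    intro x; simp only [ε]; split_ifs <;> ring
  let b0 : s.Des → ZMod p := fun h => ε h.1.1 * D.f (s.lab h.1 - r h.1.1)
  let sg : s.Des → ℤ := fun h => if xor h.1.2.2 (s.eta h.1.1) = true then 1 else -1
  have hsg : ∀ (h : s.Des) (z : ZMod p), sg h • (ε h.1.1 * z) =
      (if h.1.2.2 = true then (1 : ZMod p) else -1) * z := by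
    intro h z
    simp only [sg, ε]
    rcases h.1.2.2 with _ | _ <;> rcases s.eta h.1.1 with _ | _ <;> simp
  let S : Pool.Agent.Helper15.OS.Sys (ZMod p) (G ⧸ V) s.Des (Quotient st) :=
    { vx := fun h => h.1.1
      lp := fun h => qt h.1
      sg := sg
      c := fun l => (∑ h : s.Des, if qt h.1 = l then sg h • b0 h else 0) - D.f (s.W l.out) }
  have hGood : Pool.Agent.Helper15.OS.Good S := by
    refine ⟨fun h => ?_, fun l => ?_, fun a ha => ?_⟩
    · simp only [S, sg]; split_ifs
      · left; rfl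
      · right; rfl
    · rcases s.loops l.out with ⟨a, b, hab, hd, -, hs⟩ | ⟨a, b, c, hab, hac, hbc, hd, hs⟩
      · left
        refine ⟨⟨a, ((hd a).2 (Or.inl rfl)).1⟩, ⟨b, ((hd b).2 (Or.inr rfl)).1⟩, ?_, ?_, ?_⟩
        · intro e; exact hab (congrArg Subtype.val e)
        · exact sign_aux _ _ (hs trivial)
        · intro h
          simp only [S]
          rw [hqo]
          constructor
          · intro h1
            rcases (hd h.1).1 ⟨h.2, h1⟩ with e | e
            · left; exact Subtype.ext e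
            · right; exact Subtype.ext e
          · rintro (rfl | rfl)
            · exact ((hd a).2 (Or.inl rfl)).2
            · exact ((hd b).2 (Or.inr rfl)).2
      · right
        refine ⟨⟨a, ((hd a).2 (Or.inl rfl)).1⟩, ⟨b, ((hd b).2 (Or.inr (Or.inl rfl))).1⟩,
          ⟨c, ((hd c).2 (Or.inr (Or.inr rfl))).1⟩, hab, hac, hbc, ?_, ?_, ?_⟩
        · have h1 := (hs trivial).1
          simp only [S, sg]
          rw [h1]
        · have h1 := (hs trivial).1
          have h2 := (hs trivial).2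
          simp only [S, sg]
          rw [← h1, h2]
        · intro h
          simp only [S]
          rw [hqo]
          constructor
          · intro h1
            rcases (hd h.1).1 ⟨h.2, h1⟩ with e | e | e
            · left; exact Subtype.ext e
            · right; left; exact Subtype.ext e
            · right; right; exact Subtype.ext e
          · rintro (rfl | rfl | rfl)
            · exact ((hd a).2 (Or.inl rfl)).2
            · exact ((hd b).2 (Or.inr (Or.inl rfl))).2
            · exact ((hd c).2 (Or.inr (Or.inr rfl))).2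
    · have h1 : (2 : ZMod p) * a = 0 := by rw [two_mul]; exact ha
      rcases mul_eq_zero.1 h1 with h2 | h2
      · exfalso
        have : ((2 : ℕ) : ZMod p) = 0 := by exact_mod_cast h2
        rw [ZMod.natCast_eq_zero_iff] at this
        exact hp2 ((Nat.prime_dvd_prime_iff_eq hpp Nat.prime_two).1 this)
      · exact h2
  obtain ⟨w, κ, hw, hκ1, hκ2⟩ := Pool.Agent.Helper15.OS.oddStep S hGood b0
  have hw' : ∀ h : s.Des, (w h).1.1 = h.1.1 := hw
  set s1 := s.relabel w hw' with hs1
  have hσ : s1.σ = s.σ := relabel_σ s w hw'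
  have hdev : ∀ l, Pool.Agent.Helper15.OS.dev S (b0 ∘ w) l = D.f (s1.W l.out) := by
    intro l
    rw [hs1, f_W_relabel s w hw' D r hr]
    unfold Pool.Agent.Helper15.OS.dev
    simp only [S]
    have e1 : ∑ g : s.Des, (if s.σ.SameCycle l.out g.1 then
        (if g.1.2.2 = true then (1 : ZMod p) else -1) *
        (D.f (s.lab (w g).1 - r g.1.1) - D.f (s.lab g.1 - r g.1.1)) else 0) =
      (∑ h : s.Des, if qt h.1 = l then sg h • (b0 ∘ w) h else 0) -
        ∑ h : s.Des, if qt h.1 = l then sg h • b0 h else 0 := by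
      rw [← sum_sub_distrib]
      apply sum_congr rfl
      intro g _
      by_cases hh : s.σ.SameCycle l.out g.1
      · have h1 : qt g.1 = l := (hqo l g.1).2 hh
        rw [if_pos hh, if_pos h1, if_pos h1]
        simp only [Function.comp_apply, b0]
        rw [hw' g, hsg, hsg, mul_sub]
      · have h1 : ¬ qt g.1 = l := fun h => hh ((hqo l g.1).1 h)
        rw [if_neg hh, if_neg h1, if_neg h1, sub_zero]
    rw [e1]
    abel
  have hWl : ∀ h, D.f (s1.W (qt h).out) = D.f (s1.W h) := by
    intro h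
    have h1 : s.σ.SameCycle (qt h).out h := (hqo (qt h) h).1 rfl
    rw [← hσ] at h1
    rw [s1.toLab.W_sameCycle h1]
  have hfin : ∃ s' : St V' lab0 True bal, Refines D.le s' s1 := by
    apply odd_lift s1 hp2 D r (fun x => hr x) (fun x => (κ x).map fun c => ε x * c)
    · intro h hh g hg hgs
      rw [hσ] at hgs
      have h1 := hκ1 (qt h) (by rw [hdev, hWl]; exact (D.ker _ (s1.W_mem h)).2 hh) ⟨g, hg⟩
        ((hqt g h).2 hgs.symm)
      have h1' : κ g.1 = some (b0 (w ⟨g, hg⟩)) := h1
      rw [h1', Option.map_some]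
      simp only [b0]
      rw [hw' ⟨g, hg⟩, ← mul_assoc, hεε, one_mul]
      have h2 : s1.lab g = s.lab (w ⟨g, hg⟩).1 := relabel_lab_mem s w hw' ⟨g, hg⟩
      rw [h2]
    · intro h hh
      have h0 : Pool.Agent.Helper15.OS.dev S (b0 ∘ w) (qt h) ≠ 0 := by
        rw [hdev, hWl]
        exact fun h0 => hh ((D.ker _ (s1.W_mem h)).1 h0)
      rcases hκ2 (qt h) h0 with ⟨g, hg1, hg2⟩ | h1
      · left
        refine ⟨g.1, g.2, ?_, ?_⟩
        · rw [hσ]; exact (hqt h g.1).1 hg1.symm
        · have h1' : κ g.1.1 = some (b0 (w g)) := hg2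
          rw [h1', Option.map_some]
          simp only [b0]
          rw [hw' g, ← mul_assoc, hεε, one_mul]
          have h2 : s1.lab g.1 = s.lab (w g).1 := relabel_lab_mem s w hw' g
          rw [h2]
      · right
        intro g hg hgs
        rw [hσ] at hgs
        have h1' : κ g.1 = none := h1 ⟨g, hg⟩ ((hqt g h).2 hgs.symm)
        rw [h1', Option.map_none]
  obtain ⟨s', hs'⟩ := hfin
  exact ⟨s', hs'.of_relabel⟩

/-- the reference class of a vertex in a step of index two -/
noncomputable def refTwo {lab0 : I × Bool → G} {odd bal : Prop} (s : St V lab0 odd bal)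
    (x : G ⧸ V) : G :=
  (s.nu x + (x + x) - ((s.Del x : G) : G ⧸ V)).out - (x.out + x.out) + s.Del x

theorem refTwo_mk {lab0 : I × Bool → G} {odd bal : Prop} (s : St V lab0 odd bal) (x : G ⧸ V) :
    ((refTwo s x : G) : G ⧸ V) = s.nu x := by
  unfold refTwo
  rw [QuotientAddGroup.mk_add, QuotientAddGroup.mk_sub, QuotientAddGroup.mk_add]
  have h1 : (((s.nu x + (x + x) - ((s.Del x : G) : G ⧸ V)).out : G) : G ⧸ V) =
    s.nu x + (x + x) - ((s.Del x : G) : G ⧸ V) := Quotient.out_eq' _
  have h2 : ((x.out : G) : G ⧸ V) = x := Quotient.out_eq' x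
  rw [h1, h2]
  abel

/-- balanced edges: the cycle is closed iff the two names agree -/
theorem f_W_balanced {lab0 : I × Bool → G} {odd bal : Prop} (s : St V lab0 odd bal)
    (D : Ind V V' 2) {a b : Slot V I} (ha : a ∈ s.Des) (hb : b ∈ s.Des)
    (hA : s.Arc a b (s.Del b.1 - s.Del a.1)) :
    D.f (s.W a) = D.f (s.lab b - refTwo s b.1) - D.f (s.lab a - refTwo s a.1) := by
  have hlr : ∀ g ∈ s.Des, s.lab g - refTwo s g.1 ∈ V := by
    intro g hg
    rw [← QuotientAddGroup.eq_zero_iff (N := V), QuotientAddGroup.mk_sub, s.desnu g hg,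
      refTwo_mk, sub_self]
  have hc : s.nu a.1 + (a.1 + a.1) - ((s.Del a.1 : G) : G ⧸ V) =
      s.nu b.1 + (b.1 + b.1) - ((s.Del b.1 : G) : G ⧸ V) := by
    have h2 := hA.R_eq
    unfold Lab.R at h2
    rw [s.desnu a ha, s.desnu b hb, QuotientAddGroup.mk_sub] at h2
    rw [h2]; abel
  obtain ⟨m, n, hp, e⟩ := hA
  set a' : Slot V' I := (((a.1.out : G) : G ⧸ V'), a.2) with ha'
  have hqa : qs D.le a' = a := Prod.ext (Quotient.out_eq' a.1) rfl
  have h1 := hp.R_lift D.le 0 hqa
  rw [zero_mul, add_zero, e] at h1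
  set b'' := ((s.lift D.le).σ ^ (m + 1)) a' with hb''
  have hqb : qs D.le b'' = b := by
    rw [hb'', Lab.qs_pow, hqa]; exact hp.1
  have hqb2 : qs (I := I) D.le ((((b.1.out : G) : G ⧸ V'), b.2) : Slot V' I) = b :=
    Prod.ext (Quotient.out_eq' b.1) rfl
  obtain ⟨v, hv, ev⟩ := exists_tr D.le (hqb2.trans hqb.symm)
  have h3 : b''.1 = ((b.1.out + v : G) : G ⧸ V') := by
    rw [ev]; rfl
  have h4 : a'.1 = ((a.1.out : G) : G ⧸ V') := rfl
  unfold Lab.R at h1
  rw [Lab.lift_lab, Lab.lift_lab, hqa, hqb, h3, h4] at h1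
  have h5 : (s.lab b + ((b.1.out + v) + (b.1.out + v))) -
      (s.lab a + (a.1.out + a.1.out) + ((2 * 0 + 1) • s.W a + (s.Del b.1 - s.Del a.1))) ∈ V' := by
    rw [← QuotientAddGroup.eq_zero_iff (N := V'), QuotientAddGroup.mk_sub, sub_eq_zero]
    exact h1
  have h6 : (s.lab b + ((b.1.out + v) + (b.1.out + v))) -
      (s.lab a + (a.1.out + a.1.out) + ((2 * 0 + 1) • s.W a + (s.Del b.1 - s.Del a.1))) =
      (s.lab b - refTwo s b.1) - (s.lab a - refTwo s a.1) - s.W a + (v + v) := by
    have h7 : (2 * 0 + 1) • s.W a = s.W a := by simp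
    unfold refTwo
    rw [hc, h7]
    abel
  rw [h6, ← D.ker _ (V.add_mem (V.sub_mem (V.sub_mem (hlr b hb) (hlr a ha)) (s.W_mem a))
    (V.add_mem hv hv)), D.add _ (V.sub_mem (V.sub_mem (hlr b hb) (hlr a ha)) (s.W_mem a)) _
    (V.add_mem hv hv), D.sub (V.sub_mem (hlr b hb) (hlr a ha)) (s.W_mem a),
    D.sub (hlr b hb) (hlr a ha), D.add v hv v hv] at h5
  have h8 : D.f v + D.f v = 0 := by
    rcases zmod_two (D.f v) with h | h <;> rw [h] <;> decide
  rw [h8, add_zero, sub_eq_zero] at h5
  exact h5.symm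

/-- the step of index two for states -/
theorem two_step_state {lab0 : I × Bool → G} (s : St V lab0 False True) (D : Ind V V' 2) :
    ∃ s' : St V' lab0 False True, Refines D.le s' s := by
  have : Fintype s.Des := Fintype.ofFinite _
  let st := Equiv.Perm.SameCycle.setoid s.σ
  have : Finite (Quotient st) := Quotient.finite st
  have : Fintype (Quotient st) := Fintype.ofFinite _
  have : Fintype (G ⧸ V) := Fintype.ofFinite _
  let qt : Slot V I → Quotient st := Quotient.mk st
  have hqt : ∀ h g, qt h = qt g ↔ s.σ.SameCycle h g := fun h g => Quotient.eq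
  have hqo : ∀ (l : Quotient st) (g : Slot V I), qt g = l ↔ s.σ.SameCycle l.out g := by
    intro l g
    rw [← hqt]
    have : qt l.out = l := Quotient.out_eq l
    rw [this, eq_comm]
  let r : G ⧸ V → G := refTwo s
  have hr : ∀ x, ((r x : G) : G ⧸ V) = s.nu x := refTwo_mk s
  let v : s.Des → G ⧸ V := fun h => h.1.1
  let lp : s.Des → Quotient st := fun h => qt h.1
  let b0 : s.Des → ZMod 2 := fun h => D.f (s.lab h.1 - r h.1.1)
  let c : Quotient st → ZMod 2 := fun l => (∑ h with lp h = l, b0 h) - D.f (s.W l.out)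
  -- two or three ends
  have hends2 : ∀ (l : Quotient st) (a b : s.Des), a ≠ b →
      (∀ g, (g ∈ s.Des ∧ s.σ.SameCycle l.out g) ↔ (g = a.1 ∨ g = b.1)) →
      univ.filter (fun h => lp h = l) = {a, b} := by
    intro l a b hab hd
    ext h
    simp only [mem_filter, mem_univ, true_and, mem_insert, mem_singleton, lp]
    rw [hqo]
    constructor
    · intro h1
      rcases (hd h.1).1 ⟨h.2, h1⟩ with e | e
      · left; exact Subtype.ext e
      · right; exact Subtype.ext e
    · rintro (rfl | rfl)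
      · exact ((hd _).2 (Or.inl rfl)).2
      · exact ((hd _).2 (Or.inr rfl)).2
  have hends3 : ∀ (l : Quotient st) (a b c : s.Des),
      (∀ g, (g ∈ s.Des ∧ s.σ.SameCycle l.out g) ↔ (g = a.1 ∨ g = b.1 ∨ g = c.1)) →
      univ.filter (fun h => lp h = l) = {a, b, c} := by
    intro l a b c hd
    ext h
    simp only [mem_filter, mem_univ, true_and, mem_insert, mem_singleton, lp]
    rw [hqo]
    constructor
    · intro h1
      rcases (hd h.1).1 ⟨h.2, h1⟩ with e | e | e
      · left; exact Subtype.ext e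
      · right; left; exact Subtype.ext e
      · right; right; exact Subtype.ext e
    · rintro (rfl | rfl | rfl)
      · exact ((hd _).2 (Or.inl rfl)).2
      · exact ((hd _).2 (Or.inr (Or.inl rfl))).2
      · exact ((hd _).2 (Or.inr (Or.inr rfl))).2
  have hyp : ∀ l, ((univ.filter fun h => lp h = l).card = 2 ∧ c l = 0) ∨
      ((univ.filter fun h => lp h = l).card = 3 ∧
        ∀ h h', lp h = l → lp h' = l → v h = v h' → h = h') := by
    intro l
    rcases s.loops l.out with ⟨a, b, hab, hd, hA, -⟩ | ⟨a, b, c, hab, hac, hbc, hd, -⟩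
    · left
      have ha := (hd a).2 (Or.inl rfl)
      have hb := (hd b).2 (Or.inr rfl)
      have h1 := hends2 l ⟨a, ha.1⟩ ⟨b, hb.1⟩ (fun e => hab (congrArg Subtype.val e)) hd
      refine ⟨?_, ?_⟩
      · rw [h1]
        exact card_pair (fun e => hab (congrArg Subtype.val e))
      · have h2 := f_W_balanced s D ha.1 hb.1 (hA trivial)
        simp only [c]
        rw [h1, sum_pair (fun e => hab (congrArg Subtype.val e))]
        have h3 : s.W l.out = s.W a := (s.toLab.W_sameCycle ha.2).symm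
        rw [h3, h2]
        simp only [b0, r]
        have key : ∀ x y : ZMod 2, x + y - (y - x) = 0 := by decide
        exact key _ _
    · right
      have ha := (hd a).2 (Or.inl rfl)
      have hb := (hd b).2 (Or.inr (Or.inl rfl))
      have hc := (hd c).2 (Or.inr (Or.inr rfl))
      have h1 := hends3 l ⟨a, ha.1⟩ ⟨b, hb.1⟩ ⟨c, hc.1⟩ hd
      refine ⟨?_, ?_⟩
      · rw [h1]
        apply card_eq_three.2
        exact ⟨_, _, _, fun e => hab (congrArg (fun z : s.Des => z.1.1) e),
          fun e => hac (congrArg (fun z : s.Des => z.1.1) e),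
          fun e => hbc (congrArg (fun z : s.Des => z.1.1) e), rfl⟩
      · intro h h' hh hh' e
        have h2 : h ∈ univ.filter (fun h => lp h = l) := by simp [hh]
        have h3 : h' ∈ univ.filter (fun h => lp h = l) := by simp [hh']
        rw [h1] at h2 h3
        simp only [mem_insert, mem_singleton] at h2 h3
        have e' : h.1.1 = h'.1.1 := e
        rcases h2 with rfl | rfl | rfl <;> rcases h3 with rfl | rfl | rfl
        · rfl
        · exact absurd e' hab
        · exact absurd e' hac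
        · exact absurd e'.symm hab
        · rfl
        · exact absurd e' hbc
        · exact absurd e'.symm hac
        · exact absurd e'.symm hbc
        · rfl
  obtain ⟨w, t, hw, h1, h2, h3, h4⟩ := two_step (G := G) v lp b0 c hyp
  have hw' : ∀ h : s.Des, (w h).1.1 = h.1.1 := hw
  set s1 := s.relabel w hw' with hs1
  have hσ : s1.σ = s.σ := relabel_σ s w hw'
  have hfW : ∀ l : Quotient st, D.f (s1.W l.out) = (∑ h with lp h = l, b0 (w h)) - c l := by
    intro l
    rw [hs1, f_W_relabel s w hw' D r hr]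
    simp only [c]
    have e1 : ∑ g : s.Des, (if s.σ.SameCycle l.out g.1 then
        (if g.1.2.2 = true then (1 : ZMod 2) else -1) *
        (D.f (s.lab (w g).1 - r g.1.1) - D.f (s.lab g.1 - r g.1.1)) else 0) =
      (∑ h with lp h = l, b0 (w h)) - ∑ h with lp h = l, b0 h := by
      rw [← sum_sub_distrib, sum_filter]
      apply sum_congr rfl
      intro g _
      by_cases hh : s.σ.SameCycle l.out g.1
      · have h1 : lp g = l := (hqo l g.1).2 hh
        rw [if_pos hh, if_pos h1]
        simp only [b0]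
        rw [hw' g]
        have h5 : (if g.1.2.2 = true then (1 : ZMod 2) else -1) = 1 := by
          split_ifs
          · rfl
          · decide
        rw [h5, one_mul]
      · have h1 : ¬ lp g = l := fun h => hh ((hqo l g.1).1 h)
        rw [if_neg hh, if_neg h1]
    rw [e1]
    abel
  have hWl : ∀ h, D.f (s1.W (qt h).out) = D.f (s1.W h) := by
    intro h
    have h1 : s.σ.SameCycle (qt h).out h := (hqo (qt h) h).1 rfl
    rw [← hσ] at h1
    rw [s1.toLab.W_sameCycle h1]
  have hclosed : ∀ h, s1.W h ∈ V' ↔ (∑ g with lp g = qt h, b0 (w g)) = c (qt h) := by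
    intro h
    rw [← D.ker _ (s1.W_mem h), ← hWl, hfW, sub_eq_zero]
  have hlab : ∀ g : s.Des, D.f (s1.lab g.1 - r g.1.1) = b0 (w g) := by
    intro g
    have : s1.lab g.1 = s.lab (w g).1 := relabel_lab_mem s w hw' g
    rw [this]
    simp only [b0]
    rw [hw' g]
  -- the differences of the arcs
  let ad : s.Des → s.Des → G := fun a b =>
    if hx : ∃ d, s1.Arc a.1 b.1 d then hx.choose - (s.Del b.1.1 - s.Del a.1.1) else 0
  have had : ∀ (a b : s.Des) (d : G), s1.Arc a.1 b.1 d →
      ad a b = d - (s.Del b.1.1 - s.Del a.1.1) := by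
    intro a b d hd
    have hx : ∃ d, s1.Arc a.1 b.1 d := ⟨d, hd⟩
    simp only [ad]
    rw [dif_pos hx, hx.choose_spec.unique hd]
  have hanti : ∀ a b, ad b a = - ad a b := by
    intro a b
    by_cases hx : ∃ d, s1.Arc a.1 b.1 d
    · obtain ⟨d, hd⟩ := hx
      rw [had a b d hd, had b a _ hd.symm]; abel
    · have hy : ¬ ∃ d, s1.Arc b.1 a.1 d := by
        rintro ⟨d, hd⟩
        exact hx ⟨_, hd.symm⟩
      simp only [ad]
      rw [dif_neg hx, dif_neg hy, neg_zero]
  obtain ⟨δ, hδ1, hδ2⟩ := h4 ad hanti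
  have hcyc : ∀ (h : Slot V I) (l : s.Des), lp l = qt h ↔ s1.σ.SameCycle h l.1 := by
    intro h l
    rw [hσ]
    simp only [lp]
    rw [hqt]
    exact ⟨fun h => h.symm, fun h => h.symm⟩
  have hiff : ∀ h : Slot V I, ∀ g, s1.σ.SameCycle (qt h).out g ↔ s1.σ.SameCycle h g := by
    intro h g
    have h1 : s1.σ.SameCycle (qt h).out h := by rw [hσ]; exact (hqo (qt h) h).1 rfl
    exact ⟨fun h2 => h1.symm.trans h2, fun h2 => h1.trans h2⟩
  have hfin : ∃ s' : St V' lab0 False True, Refines D.le s' s1 := by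
    apply two_lift s1 D r (fun x => hr x) t _ _ _ δ
    · -- hd2
      intro h hh a b hab hd
      have ha := (hd a).2 (Or.inl rfl)
      have hb := (hd b).2 (Or.inr rfl)
      have e1 : lp ⟨a, ha.1⟩ = qt h := (hcyc h ⟨a, ha.1⟩).2 ha.2
      have e2 : lp ⟨b, hb.1⟩ = qt h := (hcyc h ⟨b, hb.1⟩).2 hb.2
      have e3 : univ.filter (fun k => lp k = lp ⟨a, ha.1⟩) =
          {(⟨a, ha.1⟩ : s.Des), ⟨b, hb.1⟩} := by
        rw [e1]
        apply hends2 (qt h) ⟨a, ha.1⟩ ⟨b, hb.1⟩ (fun e => hab (congrArg Subtype.val e))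
        intro g
        rw [← hd g, ← hσ, hiff]
        exact Iff.rfl
      apply hδ1 ⟨a, ha.1⟩ ⟨b, hb.1⟩ (e1.trans e2.symm)
      · rw [e3]
        exact card_pair (fun e => hab (congrArg Subtype.val e))
      · rw [e1]; exact (hclosed h).1 hh
    · -- hd3
      intro h hh a b cc hab hac hbc hd ta tb tc d hA
      have ha := (hd a).2 (Or.inl rfl)
      have hb := (hd b).2 (Or.inr (Or.inl rfl))
      have hc := (hd cc).2 (Or.inr (Or.inr rfl))
      have e1 : lp ⟨a, ha.1⟩ = qt h := (hcyc h ⟨a, ha.1⟩).2 ha.2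
      have e2 : lp ⟨b, hb.1⟩ = qt h := (hcyc h ⟨b, hb.1⟩).2 hb.2
      have e3 : lp ⟨cc, hc.1⟩ = qt h := (hcyc h ⟨cc, hc.1⟩).2 hc.2
      have h5 := hδ2 ⟨a, ha.1⟩ ⟨b, hb.1⟩ ⟨cc, hc.1⟩ (fun e => hab (congrArg (fun z : s.Des => z.1.1) e))
        (e1.trans e2.symm) (e3.trans e1.symm) (by rw [e1]; exact (hclosed h).1 hh)
        (by rw [← hlab]; exact ta) (by rw [← hlab]; exact tb) (by rw [← hlab]; exact tc)
      rw [had ⟨a, ha.1⟩ ⟨b, hb.1⟩ d hA] at h5
      exact h5
    · -- ho
      intro h hh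
      obtain ⟨g, hg1, hg2⟩ := h1 (qt h) (fun e => hh ((hclosed h).2 e))
      refine ⟨g.1, g.2, (hcyc h g).1 hg1, ?_⟩
      rw [hlab]; exact hg2
    · -- hc2
      intro h hh a b hab hd
      have ha := (hd a).2 (Or.inl rfl)
      have hb := (hd b).2 (Or.inr rfl)
      have e1 : lp ⟨a, ha.1⟩ = qt h := (hcyc h ⟨a, ha.1⟩).2 ha.2
      have e2 : lp ⟨b, hb.1⟩ = qt h := (hcyc h ⟨b, hb.1⟩).2 hb.2
      have e3 : univ.filter (fun k => lp k = qt h) =
          {(⟨a, ha.1⟩ : s.Des), ⟨b, hb.1⟩} := by
        apply hends2 (qt h) ⟨a, ha.1⟩ ⟨b, hb.1⟩ (fun e => hab (congrArg Subtype.val e))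
        intro g
        rw [← hd g, ← hσ, hiff]
        exact Iff.rfl
      have h5 := h2 (qt h) ((hclosed h).1 hh) (by
        rw [e3]; exact card_pair (fun e => hab (congrArg Subtype.val e)))
      refine ⟨?_, ?_⟩
      · have := h5 ⟨a, ha.1⟩ e1
        rw [← hlab] at this
        exact this
      · have := h5 ⟨b, hb.1⟩ e2
        rw [← hlab] at this
        exact this
    · -- hc3
      intro h hh
      obtain ⟨x, y, hxy, hx1, hy1, hx2, hy2⟩ := h3 (qt h) ((hclosed h).1 hh)
      refine ⟨x.1, y.1, fun e => hxy (Subtype.ext e), x.2, y.2, (hcyc h x).1 hx1,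
        (hcyc h y).1 hy1, ?_, ?_⟩
      · rw [hlab]; exact hx2
      · rw [hlab]; exact hy2
  obtain ⟨s', hs'⟩ := hfin
  exact ⟨s', hs'.of_relabel⟩

end C90
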