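import Pool.Agent.C90.ExchMain
import Pool.Agent.C90.BoolCheck

set_option linter.unusedSectionVars false

/-!
# The 2-step lemma (MP_c90cf1_co)

Author: helper71.  Proof in two rounds of the exchange lemma.
-/

namespace C90.TwoStep

open Finset Relation

variable {X L H : Type*} [Fintype X] [DecidableEq X] [Fintype L] [DecidableEq L]
  [Fintype H] [DecidableEq H]

/-- a permutation of the ends realising prescribed labels -/
lemma exists_perm (v : H → X) (b lam : H → ZMod 2)
    (h : ∀ x, cnt v (univ.filter fun h => b h = 1) x = cnt v (univ.filter fun h => lam h = 1) x) :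
    ∃ w : Equiv.Perm H, (∀ h, v (w h) = v h) ∧ ∀ h, b (w h) = lam h := by
  classical
  have key : ∀ p : X × ZMod 2, Fintype.card {h // (v h, lam h) = p} =
      Fintype.card {h // (v h, b h) = p} := by
    rintro ⟨x, y⟩
    have h1 : (univ.filter fun h => (v h, lam h) = (x, (1 : ZMod 2))).card =
        (univ.filter fun h => (v h, b h) = (x, (1 : ZMod 2))).card := by
      have := h x
      unfold cnt at this
      rw [filter_filter, filter_filter] at this
      simp only [Prod.mk.injEq]
      rw [filter_congr (q := fun h => lam h = 1 ∧ v h = x) (by simp [and_comm]),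
        filter_congr (p := fun h => v h = x ∧ b h = 1) (q := fun h => b h = 1 ∧ v h = x)
          (by simp [and_comm])]
      exact this.symm
    have htot : ∀ c : H → ZMod 2, (univ.filter fun h => (v h, c h) = (x, (0 : ZMod 2))).card +
        (univ.filter fun h => (v h, c h) = (x, (1 : ZMod 2))).card =
        (univ.filter fun h => v h = x).card := by
      intro c
      rw [← card_union_of_disjoint]
      · congr 1
        ext h
        simp only [mem_union, mem_filter, mem_univ, true_and, Prod.mk.injEq]
        constructor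
        · rintro (⟨h1, _⟩ | ⟨h1, _⟩) <;> exact h1
        · intro h1
          have : c h = 0 ∨ c h = 1 := by
            generalize c h = z
            revert z; decide
          tauto
      · rw [disjoint_left]
        intro h h1 h2
        simp only [mem_filter, mem_univ, true_and, Prod.mk.injEq] at h1 h2
        rw [h1.2] at h2
        exact absurd h2.2 (by decide)
    rw [Fintype.card_subtype, Fintype.card_subtype]
    have hy : y = 0 ∨ y = 1 := by revert y; decide
    rcases hy with rfl | rfl
    · have e1 := htot b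
      have e2 := htot lam
      omega
    · exact h1
  refine ⟨Equiv.ofFiberEquiv (f := fun h => (v h, lam h)) (g := fun h => (v h, b h))
    (fun p => Fintype.equivOfCardEq (key p)), fun x => ?_, fun x => ?_⟩
  · have := Equiv.ofFiberEquiv_map (f := fun h => (v h, lam h)) (g := fun h => (v h, b h))
      (fun p => Fintype.equivOfCardEq (key p)) x
    exact (Prod.ext_iff.1 this).1
  · have := Equiv.ofFiberEquiv_map (f := fun h => (v h, lam h)) (g := fun h => (v h, b h))
      (fun p => Fintype.equivOfCardEq (key p)) x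
    exact (Prod.ext_iff.1 this).2

lemma cnt_three {l : H → L} {a : L} {p q r : H} (hpq : p ≠ q) (hpr : p ≠ r) (hqr : q ≠ r)
    (hf : ∀ h, l h = a ↔ h = p ∨ h = q ∨ h = r) (J : Finset H) :
    cnt l J a = n3 (decide (p ∈ J)) (decide (q ∈ J)) (decide (r ∈ J)) := by
  unfold cnt n3
  have : (J.filter fun h => l h = a) = ({p, q, r} : Finset H).filter fun h => h ∈ J := by
    ext h
    simp only [mem_filter, mem_insert, mem_singleton, hf]
    tauto
  rw [this, card_filter, sum_insert (by simp [hpq, hpr]), sum_insert (by simp [hqr]),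
    sum_singleton, ← add_assoc]
  by_cases h1 : p ∈ J <;> by_cases h2 : q ∈ J <;> by_cases h3 : r ∈ J <;> simp [h1, h2, h3]

lemma cnt_two {l : H → L} {a : L} {p q : H} (hpq : p ≠ q)
    (hf : ∀ h, l h = a ↔ h = p ∨ h = q) (J : Finset H) :
    cnt l J a = n2 (decide (p ∈ J)) (decide (q ∈ J)) := by
  unfold cnt n2
  have : (J.filter fun h => l h = a) = ({p, q} : Finset H).filter fun h => h ∈ J := by
    ext h
    simp only [mem_filter, mem_insert, mem_singleton, hf]
    tauto
  rw [this, card_filter, sum_insert (by simp [hpq]), sum_singleton]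
  by_cases h1 : p ∈ J <;> by_cases h2 : q ∈ J <;> simp [h1, h2]

/-- Boolean label to `ZMod 2` -/
def zb (b : Bool) : ZMod 2 := bif b then 1 else 0

lemma zb_cl3 : ∀ a b c : Bool, zb a + (zb b + zb c) = 0 ↔ cl3 a b c = true := by decide
lemma zb_cl3' : ∀ a b c : Bool, zb a + (zb b + zb c) = 1 ↔ cl3 a b c = false := by decide
lemma zb_cl2 : ∀ a b : Bool, zb a + zb b = 0 ↔ cl2 a b = true := by decide
lemma zb_one : ∀ a : Bool, zb a = 1 ↔ a = true := by decide

lemma im_iff (a b : Bool) : im a b = true ↔ (a = true → b = true) := by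
  cases a <;> cases b <;> simp [im]

/-- label and type determine a token -/
lemma tk_iff : ∀ i j m t : Bool, (zb (lb i j m) = zb (i && !t)) ↔ tk i j m t = true := by decide

lemma im3_iff (a b c a' b' c' : Bool) : im3 a b c a' b' c' = true ↔
    (a = true → a' = true) ∧ (b = true → b' = true) ∧ (c = true → c' = true) := by
  simp only [im3, Bool.and_eq_true, im_iff, and_assoc]

lemma im2_iff (a b a' b' : Bool) : im2 a b a' b' = true ↔
    (a = true → a' = true) ∧ (b = true → b' = true) := by
  simp only [im2, Bool.and_eq_true, im_iff]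

lemma ac_iff (e n : ℕ) (x i : Bool) : ac e n x i = true ↔ i = true ∧ (n = e → x = true) := by
  unfold ac
  by_cases h : n = e
  · simp [h]
  · simp [h]

/-- facts of round 2 on a loop of kind `O`, in Boolean form -/
lemma hypO_of {ap aq ar mp mq mr tp tq tr : Bool} {k : ℕ} (hk : k = n3 mp mq mr)
    (h1 : k ≤ 1)
    (h2 : k = 1 → y3 ap aq ar mp mq mr tp tq tr = true →
      (mp = true → tp = true) ∧ (mq = true → tq = true) ∧ (mr = true → tr = true))
    (h3 : k = 0 → ¬ (ap = true ∧ tp = true) ∧ ¬ (aq = true ∧ tq = true) ∧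
      ¬ (ar = true ∧ tr = true)) : hypO ap aq ar mp mq mr tp tq tr = true := by
  subst hk
  unfold hypO
  simp only [Bool.and_eq_true, im_iff, Nat.ble_eq, beq_iff_eq, im3_iff]
  refine ⟨⟨h1, h2⟩, fun h => ?_⟩
  have := h3 h
  revert this
  cases ap <;> cases aq <;> cases ar <;> cases tp <;> cases tq <;> cases tr <;> simp

/-- facts of round 2 on a loop with two ends, in Boolean form -/
lemma hypD_of {ap aq mp mq tp tq : Bool} {k : ℕ} (hk : k = n2 mp mq)
    (h1 : k ≤ 1)
    (h2 : k = 1 → y2 ap aq mp mq tp tq = true →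
      (mp = true → tp = true) ∧ (mq = true → tq = true))
    (h3 : k = 0 → ¬ (ap = true ∧ tp = true) ∧ ¬ (aq = true ∧ tq = true)) :
    hypD ap aq mp mq tp tq = true := by
  subst hk
  unfold hypD
  simp only [Bool.and_eq_true, im_iff, Nat.ble_eq, beq_iff_eq, im2_iff]
  refine ⟨⟨h1, h2⟩, fun h => ?_⟩
  have := h3 h
  revert this
  cases ap <;> cases aq <;> cases tp <;> cases tq <;> simp

/-- facts of round 2 on a loop of kind `E`, in Boolean form -/
lemma hypE_of {ap aq ar mp mq mr tp tq tr : Bool} {k : ℕ} (hk : k = n3 mp mq mr)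
    (h1 : k ≤ 2)
    (h2 : k = 2 → y3 ap aq ar mp mq mr tp tq tr = true →
      (mp = true → tp = true) ∧ (mq = true → tq = true) ∧ (mr = true → tr = true))
    (h3 : k = 0 → ¬ (ap = true ∧ tp = true ∧ aq = true ∧ tq = true) ∧
      ¬ (ap = true ∧ tp = true ∧ ar = true ∧ tr = true) ∧
      ¬ (aq = true ∧ tq = true ∧ ar = true ∧ tr = true))
    (h4 : k = 1 → y3 ap aq ar mp mq mr tp tq tr = false) :
    hypE ap aq ar mp mq mr tp tq tr = true := by
  subst hk
  unfold hypE
  simp only [Bool.and_eq_true, im_iff, Nat.ble_eq, beq_iff_eq, im3_iff]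
  refine ⟨⟨⟨h1, h2⟩, fun h => ?_⟩, fun h => ?_⟩
  · have := h3 h
    revert this
    cases ap <;> cases aq <;> cases ar <;> cases tp <;> cases tq <;> cases tr <;> simp [two3]
  · rw [h4 h]; rfl

lemma y3_iff (ap aq ar mp mq mr tp tq tr : Bool) : y3 ap aq ar mp mq mr tp tq tr = true ↔
    (ap = true ∧ mp = false ∧ tp = true) ∨ (aq = true ∧ mq = false ∧ tq = true) ∨
      (ar = true ∧ mr = false ∧ tr = true) := by
  unfold y3
  simp only [Bool.or_eq_true, Bool.and_eq_true, Bool.not_eq_true', or_assoc, and_assoc]

lemma y2_iff (ap aq mp mq tp tq : Bool) : y2 ap aq mp mq tp tq = true ↔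
    (ap = true ∧ mp = false ∧ tp = true) ∨ (aq = true ∧ mq = false ∧ tq = true) := by
  unfold y2
  simp only [Bool.or_eq_true, Bool.and_eq_true, Bool.not_eq_true', and_assoc]

lemma x3_iff (ip iq ir jp jq jr : Bool) : x3 ip iq ir jp jq jr = true ↔
    (ip = true ∧ jp = false) ∨ (iq = true ∧ jq = false) ∨ (ir = true ∧ jr = false) := by
  unfold x3
  simp only [Bool.or_eq_true, Bool.and_eq_true, Bool.not_eq_true', or_assoc]

lemma x2_iff (ip iq jp jq : Bool) : x2 ip iq jp jq = true ↔
    (ip = true ∧ jp = false) ∨ (iq = true ∧ jq = false) := by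
  unfold x2
  simp only [Bool.or_eq_true, Bool.and_eq_true, Bool.not_eq_true']

end C90.TwoStep
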