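import Mathlib

/-!
# Statement of the two-step lemma (MP_c90cf1_co)
-/

namespace C90

open Finset
open scoped Classical

/-- the two ends of an edge -/
def EdgeEnds {H L : Type*} (l : H → L) (a : L) (h1 h2 : H) : Prop :=
  h1 ≠ h2 ∧ ∀ h, l h = a ↔ h = h1 ∨ h = h2

/-- the three ends of a triple, at three vertices -/
def TripleEnds {X H L : Type*} (v : H → X) (l : H → L) (a : L) (h1 h2 h3 : H) : Prop :=
  v h1 ≠ v h2 ∧ v h1 ≠ v h3 ∧ v h2 ≠ v h3 ∧ ∀ h, l h = a ↔ h = h1 ∨ h = h2 ∨ h = h3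

/-- `a` is closed for the labels `b` -/
def ClosedFor {H L : Type*} [Fintype H] (l : H → L) (c : L → ZMod 2) (b : H → ZMod 2) (a : L) :
    Prop := (∑ h : H, if l h = a then b h else 0) = c a

/-- statement of the two-step lemma for the coefficient group `G` -/
def TwoStepStatement (G : Type*) [AddCommGroup G] : Prop :=
  ∀ (X H L : Type) [Fintype X] [Fintype H] [Fintype L] (v : H → X) (l : H → L)
    (b0 : H → ZMod 2) (c : L → ZMod 2),
    (∀ a, ((∃ h1 h2, EdgeEnds l a h1 h2) ∧ c a = 0) ∨ ∃ h1 h2 h3, TripleEnds v l a h1 h2 h3) →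
    ∃ (w : Equiv.Perm H) (t : X → ZMod 2), (∀ h, v (w h) = v h) ∧
      (∀ a, ¬ ClosedFor l c (b0 ∘ w) a → ∃ h, l h = a ∧ b0 (w h) = t (v h)) ∧
      (∀ a, ClosedFor l c (b0 ∘ w) a → ∀ h1 h2, EdgeEnds l a h1 h2 →
        b0 (w h1) = t (v h1) ∧ b0 (w h2) = t (v h2)) ∧
      (∀ a, ClosedFor l c (b0 ∘ w) a → ∃ h1 h2, h1 ≠ h2 ∧ l h1 = a ∧ l h2 = a ∧
        b0 (w h1) = t (v h1) ∧ b0 (w h2) = t (v h2)) ∧
      (∀ g : H → H → G, (∀ h h', g h' h = - g h h') → ∃ δ : X → G,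
        (∀ a, ClosedFor l c (b0 ∘ w) a → ∀ h1 h2, EdgeEnds l a h1 h2 → δ (v h1) = δ (v h2)) ∧
        (∀ a, ClosedFor l c (b0 ∘ w) a → ∀ h1 h2 h3, TripleEnds v l a h1 h2 h3 →
          b0 (w h1) = t (v h1) → b0 (w h2) = t (v h2) → b0 (w h3) ≠ t (v h3) →
          δ (v h2) - δ (v h1) = g h1 h2))

end C90
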