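import Pool.Agent.C90.TwoStepFinal
import Pool.Agent.C90.TwoStepStatement
import Pool.Agent.CA.Defs

/-!
# The 2-step lemma (MP_c90cf1_co): the two interfaces

Author: helper71.
-/

namespace C90

open Finset
open scoped Classical

theorem twoStepStatement (G : Type*) [AddCommGroup G] : TwoStepStatement G := by
  intro X H L _ _ _ v l b0 c hyp
  have hfil : ∀ a (f : H → ZMod 2), (∑ h : H, if l h = a then f h else 0) =
      ∑ h with l h = a, f h := by
    intro a f
    rw [sum_filter]
  have hcard2 : ∀ a h1 h2, EdgeEnds l a h1 h2 → (univ.filter fun h => l h = a).card = 2 := by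
    rintro a h1 h2 ⟨hne, he⟩
    have : (univ.filter fun h => l h = a) = {h1, h2} := by
      ext h
      simp [he]
    rw [this, card_pair hne]
  have hcard3 : ∀ a h1 h2 h3, TripleEnds v l a h1 h2 h3 →
      (univ.filter fun h => l h = a).card = 3 := by
    rintro a h1 h2 h3 ⟨n1, n2, n3, he⟩
    have : (univ.filter fun h => l h = a) = {h1, h2, h3} := by
      ext h
      simp [he]
    rw [this, card_eq_three]
    exact ⟨h1, h2, h3, fun h => n1 (by rw [h]), fun h => n2 (by rw [h]),
      fun h => n3 (by rw [h]), rfl⟩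
  obtain ⟨w, s, hw, c1, c2, c3, c4⟩ := two_step (G := G) v l b0 c (by
    intro a
    rcases hyp a with ⟨⟨h1, h2, he⟩, hc⟩ | ⟨h1, h2, h3, he⟩
    · exact Or.inl ⟨hcard2 a h1 h2 he, hc⟩
    · right
      refine ⟨hcard3 a h1 h2 h3 he, ?_⟩
      obtain ⟨n1, n2, n3, he⟩ := he
      intro h h' hh hh' hv
      rcases (he h).1 hh with rfl | rfl | rfl <;> rcases (he h').1 hh' with rfl | rfl | rfl
      · rfl
      · exact absurd hv n1
      · exact absurd hv n2
      · exact absurd hv.symm n1
      · rfl
      · exact absurd hv n3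
      · exact absurd hv.symm n2
      · exact absurd hv.symm n3
      · rfl)
  have hcl : ∀ a, ClosedFor l c (b0 ∘ w) a ↔ (∑ h with l h = a, b0 (w h)) = c a := by
    intro a
    unfold ClosedFor
    rw [hfil]
    rfl
  refine ⟨w, s, hw, ?_, ?_, ?_, ?_⟩
  · intro a ha
    exact c1 a fun h => ha ((hcl a).2 h)
  · intro a ha h1 h2 he
    have := c2 a ((hcl a).1 ha) (hcard2 a h1 h2 he)
    exact ⟨this h1 ((he.2 h1).2 (Or.inl rfl)), this h2 ((he.2 h2).2 (Or.inr rfl))⟩
  · intro a ha
    exact c3 a ((hcl a).1 ha)
  · intro g hg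
    obtain ⟨δ, d1, d2⟩ := c4 g hg
    refine ⟨δ, ?_, ?_⟩
    · intro a ha h1 h2 he
      have l1 := (he.2 h1).2 (Or.inl rfl)
      have l2 := (he.2 h2).2 (Or.inr rfl)
      refine d1 h1 h2 (by rw [l1, l2]) ?_ ?_
      · rw [l1]; exact hcard2 a h1 h2 he
      · rw [l1]; exact (hcl a).1 ha
    · intro a ha h1 h2 h3 he t1 t2 t3
      obtain ⟨n1, n2, n3, he⟩ := he
      have l1 := (he h1).2 (Or.inl rfl)
      have l2 := (he h2).2 (Or.inr (Or.inl rfl))
      have l3 := (he h3).2 (Or.inr (Or.inr rfl))
      refine d2 h1 h2 h3 (fun h => n1 (by rw [h])) (by rw [l1, l2]) (by rw [l1, l3]) ?_ t1 t2 t3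
      rw [l1]; exact (hcl a).1 ha

end C90

namespace Pool.Agent.CA

open Finset Equiv

theorem twoComb : TwoComb := by
  classical
  intro V Lp H _ _ _ _ v l b₀ c hyp
  haveI := Fintype.ofFinite V
  haveI := Fintype.ofFinite Lp
  have hset : ∀ i, {x | l x = i}.ncard = (univ.filter fun h => l h = i).card := by
    intro i
    rw [← Set.ncard_coe_finset]
    congr 1
    ext x; simp
  obtain ⟨w, s, hw, c1, c2, c3, c4⟩ := C90.two_step (G := H × H → ℤ) v l b₀ c (by
    intro a
    rcases hyp a with ⟨h, h', hne, he, hc⟩ | ⟨h3, hinj⟩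
    · left
      refine ⟨?_, hc⟩
      rw [← hset, he, Set.ncard_pair hne]
    · right
      refine ⟨by rw [← hset]; exact h3, ?_⟩
      intro h h' hh hh' hv
      exact hinj hh hh' hv)
  have hcard : ∀ i, (univ.filter fun h => l h = i).card = 2 ∨
      (univ.filter fun h => l h = i).card = 3 := by
    intro i
    rcases hyp i with ⟨h, h', hne, he, hc⟩ | ⟨h3, hinj⟩
    · left
      rw [← hset, he, Set.ncard_pair hne]
    · right
      rw [← hset]; exact h3
  refine ⟨w, s, hw, ?_, ?_⟩
  · intro i
    refine ⟨fun hi => ?_, ?_⟩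
    · obtain ⟨h, h', hne, hl, hl', ht, ht'⟩ := c3 i hi
      have hsub : ({h, h'} : Set H) ⊆ {h | l h = i ∧ b₀ (w h) = s (v h)} := by
        rintro x (rfl | rfl)
        · exact ⟨hl, ht⟩
        · exact ⟨hl', ht'⟩
      calc 2 = ({h, h'} : Set H).ncard := (Set.ncard_pair hne).symm
        _ ≤ _ := Set.ncard_le_ncard hsub (Set.toFinite _)
    · by_cases hi : ∑ h with l h = i, b₀ (w h) = c i
      · obtain ⟨h, h', hne, hl, hl', ht, ht'⟩ := c3 i hi
        exact ⟨h, hl, ht⟩
      · exact c1 i hi
  · intro A _ d hd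
    -- the universal antisymmetric function
    let e : H × H → (H × H → ℤ) := fun p q => if q = p then 1 else 0
    obtain ⟨δ, d1, d2⟩ := c4 (fun h k => e (h, k) - e (k, h)) (by intro h k; abel)
    -- a linear order on `H`
    let r : H → Fin (Fintype.card H) := Fintype.equivFin H
    have hr : Function.Injective r := (Fintype.equivFin H).injective
    let φ : (H × H → ℤ) →+ A :=
      { toFun := fun F => ∑ p : H × H, F p • (if r p.1 < r p.2 then d p.1 p.2 else 0)
        map_zero' := by simp
        map_add' := by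
          intro F F'
          rw [← sum_add_distrib]
          exact sum_congr rfl fun p _ => by rw [Pi.add_apply, add_smul] }
    have hφe : ∀ p : H × H, φ (e p) = if r p.1 < r p.2 then d p.1 p.2 else 0 := by
      intro p
      have h0 : φ (e p) = ∑ q : H × H, (if q = p then (1 : ℤ) else 0) •
        (if r q.1 < r q.2 then d q.1 q.2 else 0) := rfl
      rw [h0, sum_eq_single p]
      · rw [if_pos rfl, one_smul]
      · intro q _ hq
        rw [if_neg hq, zero_smul]
      · intro hp
        exact absurd (mem_univ p) hp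
    have hφ : ∀ h k, h ≠ k → φ (e (h, k) - e (k, h)) = d h k := by
      intro h k hne
      rw [map_sub, hφe, hφe]
      rcases lt_trichotomy (r h) (r k) with hlt | heq | hgt
      · rw [if_pos hlt, if_neg (not_lt.2 hlt.le), sub_zero]
      · exact absurd (hr heq) hne
      · rw [if_neg (not_lt.2 hgt.le), if_pos hgt, zero_sub]
        exact (hd h k).symm
    refine ⟨fun x => φ (δ x), ?_⟩
    intro i hi h h' hne hset'
    have m1 : h ∈ {x | l x = i ∧ b₀ (w x) = s (v x)} := by rw [hset']; simp
    have m2 : h' ∈ {x | l x = i ∧ b₀ (w x) = s (v x)} := by rw [hset']; simp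
    obtain ⟨l1, t1⟩ := m1
    obtain ⟨l2, t2⟩ := m2
    refine ⟨fun h2 => ?_, fun h3 => ?_⟩
    · rw [hset] at h2
      have := d1 h h' (by rw [l1, l2]) (by rw [l1]; exact h2) (by rw [l1]; exact hi)
      simp only [this]
    · rw [hset] at h3
      -- the third end
      have : ∃ k, l k = i ∧ k ≠ h ∧ k ≠ h' := by
        by_contra hcon
        push Not at hcon
        have hsub : (univ.filter fun x => l x = i) ⊆ {h, h'} := by
          intro x hx
          simp only [mem_filter, mem_univ, true_and] at hx
          simp only [mem_insert, mem_singleton]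
          by_cases hxh : x = h
          · exact Or.inl hxh
          · exact Or.inr (hcon x hx hxh)
        have e1 := card_le_card hsub
        have e2 : ({h, h'} : Finset H).card ≤ 2 := card_le_two
        omega
      obtain ⟨k, lk, kh, kh'⟩ := this
      have tk : b₀ (w k) ≠ s (v k) := by
        intro hk
        have : k ∈ ({h, h'} : Set H) := by
          rw [← hset']; exact ⟨lk, hk⟩
        rcases this with h1 | h1
        · exact kh h1
        · exact kh' h1
      have := d2 h h' k hne (by rw [l1, l2]) (by rw [lk, l1]) (by rw [l1]; exact hi) t1 t2 tk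
      rw [← map_sub, this]
      exact hφ h h' hne

end Pool.Agent.CA
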