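import Pool.Agent.C90.Rounds

set_option linter.unusedSectionVars false

/-!
# The 2-step lemma (MP_c90cf1_co)

Author: helper71.
-/

namespace C90.TwoStep

open Finset Relation

variable {X L H : Type*} [Fintype X] [DecidableEq X] [Fintype L] [DecidableEq L]
  [Fintype H] [DecidableEq H]

lemma cnt_mono {α : Type*} [DecidableEq α] (f : H → α) {J K : Finset H} (h : J ⊆ K) (a : α) :
    cnt f J a ≤ cnt f K a := card_le_card (filter_subset_filter _ h)

lemma cnt_univ_split (v : H → X) (b : H → ZMod 2) (x : X) :
    cnt v (univ.filter fun h => b h = 1) x + cnt v (univ.filter fun h => b h = 0) x =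
      cnt v univ x := by
  have h1 : (univ.filter fun h => b h = 0) = (univ : Finset H) \ univ.filter fun h => b h = 1 := by
    ext h
    simp only [mem_filter, mem_univ, true_and, mem_sdiff]
    generalize b h = z
    revert z; decide
  rw [h1, add_comm]
  exact cnt_sdiff v (subset_univ _) x

/-- existence of the two rounds, with the label counts and the potentials -/
theorem exists_rounds {G : Type*} [AddCommGroup G] (v : H → X) (l : H → L) (b0 : H → ZMod 2)
    (c : L → ZMod 2)
    (hyp : ∀ a, ((univ.filter fun h => l h = a).card = 2 ∧ c a = 0) ∨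
      ((univ.filter fun h => l h = a).card = 3 ∧
        ∀ h h', l h = a → l h' = a → v h = v h' → h = h')) :
    ∃ (J1 : Finset H) (T1 : X → Prop) (A2 J2 : Finset H) (T2 : X → Prop),
      Rounds v l c J1 T1 A2 J2 T2 ∧
      (∀ x, ¬ T1 x → cnt v J1 x = cnt v (univ.filter fun h => b0 h = 1) x) ∧
      (∀ x, T1 x → cnt v J2 x = cnt v (univ.filter fun h => b0 h = 0) x) ∧
      (∀ g : H → H → G, (∀ h k, g k h = - g h k) → ∃ δ : X → G,
        (∀ h k, (univ.filter fun k => l k = l h).card = 2 → l h = l k → cnt l J1 (l h) = 0 →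
          δ (v h) = δ (v k)) ∧
        (∀ h k, h ∉ J1 → k ∉ J1 → h ≠ k → l h = l k → Bad l (E1 l c) J1 (l h) →
          (∀ j ∈ J1, l j = l h → ¬ T1 (v j)) → δ (v k) - δ (v h) = g h k)) ∧
      (∀ g : H → H → G, (∀ h k, g k h = - g h k) → ∃ δ : X → G,
        (∀ h ∈ A2, ∀ k ∈ A2, (univ.filter fun k => l k = l h).card = 2 → l h = l k →
          cnt l J2 (l h) = 0 → δ (v h) = δ (v k)) ∧
        (∀ h ∈ A2, ∀ k ∈ A2, h ∉ J2 → k ∉ J2 → h ≠ k → l h = l k →
          Bad l (E2 v l c T1) J2 (l h) →
          (∀ j ∈ J2, l j = l h → ¬ T2 (v j)) → δ (v k) - δ (v h) = g h k)) := by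
  classical
  have hone : ∀ a, cnt l univ a = (univ.filter fun h => l h = a).card := fun a => rfl
  -- round 1
  obtain ⟨J1, T1, C1, M1, F1, S1, Fa1, Fb1, Fc1, P1⟩ := exch (G := G) v l univ (E1 l c)
    (fun a => (univ.filter fun h => l h = a).card = 2)
    (fun x => cnt v (univ.filter fun h => b0 h = 1) x)
    (fun a ha => ha.1)
    (by
      intro h _ h' _ hE hl hv
      rcases hyp (l h) with h1 | h1
      · have := hE.1; omega
      · exact h1.2 h h' rfl hl.symm hv)
    (by
      intro a ha hE
      have := hE.1; omega)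
  -- round 2
  set A2 : Finset H := univ.filter fun h => Act v l c J1 T1 h with hA2
  have hmemA2 : ∀ h, h ∈ A2 ↔ Act v l c J1 T1 h := fun h => by simp [hA2]
  set u2 : X → ℕ := fun x => if T1 x then cnt v (univ.filter fun h => b0 h = 0) x else 0 with hu2
  have hactE2 : ∀ h, E2 v l c T1 (l h) → h ∈ A2 := by
    intro h hE
    rw [hmemA2]
    refine ⟨hE.2.2 h rfl, fun ht => ?_⟩
    have hcl : cnt l J1 (l h) = 1 := by
      rcases ht with ⟨_, h1⟩ | ⟨h1, _⟩
      · exact h1
      · exfalso
        have := h1.2
        rw [hE.2.1] at this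
        exact absurd this (by decide)
    have h2 : cnt l (univ \ J1) (l h) = 2 := by
      have := cnt_sdiff l (subset_univ J1) (l h)
      rw [hone, hE.1, hcl] at this
      omega
    obtain ⟨k, hk⟩ := card_pos.1 (show 0 < ((univ \ J1).filter fun k => l k = l h).card by
      have : ((univ \ J1).filter fun k => l k = l h).card = 2 := h2
      omega)
    simp only [mem_filter, mem_sdiff, mem_univ, true_and] at hk
    exact ⟨k, hk.2, hE.2.2 k hk.2, hk.1⟩
  obtain ⟨J2, T2, C2, M2, F2, S2, Fa2, Fb2, Fc2, P2⟩ := exch (G := G) v l A2 (E2 v l c T1)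
    (fun a => (univ.filter fun h => l h = a).card = 2) u2
    (by
      intro a ha
      have : A2.filter (fun h => l h = a) = univ.filter fun h => l h = a := by
        ext h
        simp only [mem_filter, mem_univ, true_and]
        constructor
        · rintro ⟨_, h1⟩; exact h1
        · intro h1
          exact ⟨hactE2 h (by rw [h1]; exact ha), h1⟩
      unfold cnt
      rw [this]; exact ha.1)
    (by
      intro h _ h' _ hE hl hv
      rcases hyp (l h) with h1 | h1
      · have := hE.1; omega
      · exact h1.2 h h' rfl hl.symm hv)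
    (by
      intro a ha hE
      have := hE.1; omega)
  -- an exact configuration for round 2
  have hS : ∀ x, ∃ S ⊆ univ.filter (fun h => v h = x ∧ h ∉ J1), S.card = u2 x := by
    intro x
    apply exists_subset_card_eq
    simp only [hu2]
    split_ifs with hx
    · have e1 := cnt_sdiff v (subset_univ J1) x
      have e2 := C1.deg x
      have e3 := cnt_univ_split v b0 x
      have e4 : cnt v (univ \ J1) x = (univ.filter fun h => v h = x ∧ h ∉ J1).card := by
        unfold cnt
        congr 1
        ext h
        simp only [mem_filter, mem_sdiff, mem_univ, true_and]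
        tauto
      omega
    · exact Nat.zero_le _
  choose S hSsub hScard using hS
  set K : Finset H := univ.filter fun h => h ∈ S (v h) with hK
  have hKmem : ∀ h, h ∈ K → T1 (v h) ∧ h ∉ J1 := by
    intro h hh
    simp only [hK, mem_filter, mem_univ, true_and] at hh
    have h1 := hSsub (v h) hh
    simp only [mem_filter, mem_univ, true_and] at h1
    refine ⟨?_, h1⟩
    by_contra hT
    have := hScard (v h)
    simp only [hu2, if_neg hT] at this
    rw [card_eq_zero] at this
    rw [this] at hh
    simp at hh
  have hKcnt : ∀ x, cnt v K x = u2 x := by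
    intro x
    rw [← hScard x]
    unfold cnt
    congr 1
    ext h
    simp only [hK, mem_filter, mem_univ, true_and]
    constructor
    · rintro ⟨h1, rfl⟩; exact h1
    · intro h1
      have h2 := hSsub x h1
      simp only [mem_filter, mem_univ, true_and] at h2
      rw [h2.1]; exact ⟨h1, rfl⟩
  have hKA : K ⊆ A2 := by
    intro h hh
    rw [hmemA2]
    exact ⟨(hKmem h hh).1, fun _ => ⟨h, rfl, hKmem h hh⟩⟩
  -- two non-units inside on a loop
  have htwo : ∀ a, ¬ E2 v l c T1 a → ∀ h ∈ K, ∀ h' ∈ K, l h = a → l h' = a → h = h' := by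
    intro a hE2 h hh h' hh' hl hl'
    by_contra hne
    subst hl
    obtain ⟨hT, hJ⟩ := hKmem h hh
    obtain ⟨hT', hJ'⟩ := hKmem h' hh'
    by_cases hE : E1 l c (l h)
    · have hle := C1.two _ hE
      have hsd := cnt_sdiff l (subset_univ J1) (l h)
      rw [hone, hE.1] at hsd
      interval_cases hcn : cnt l J1 (l h)
      · exact Fc1 h (mem_univ _) h' (mem_univ _) hne hl'.symm hE hcn hT hT'
      · exact Fb1 h (mem_univ _) hJ ⟨hE, hcn⟩ hT
      · exact hne (cnt_eq_one l (show cnt l (univ \ J1) (l h) = 1 by omega)
          (by simp [hJ]) (by simp [hJ']) rfl hl')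
    · have hle := C1.one _ hE
      interval_cases hcn : cnt l J1 (l h)
      · exact Fa1 h (mem_univ _) hE hcn hT
      · have ht : Trans l (E1 l c) J1 (l h) := Or.inl ⟨hE, hcn⟩
        have hcl := S1 h (mem_univ _) hJ hT ht
        have hsd := cnt_sdiff l (subset_univ J1) (l h)
        rw [hone, hcn] at hsd
        rcases hyp (l h) with ⟨h2, _⟩ | ⟨h3, _⟩
        · exact hne (cnt_eq_one l (show cnt l (univ \ J1) (l h) = 1 by omega)
            (by simp [hJ]) (by simp [hJ']) rfl hl')
        · apply hE2
          refine ⟨h3, ?_, ?_⟩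
          · have : c (l h) = 0 ∨ c (l h) = 1 := by
              generalize c (l h) = z
              revert z; decide
            rcases this with h0 | h0
            · exact h0
            · exact absurd ⟨h3, h0⟩ hE
          · intro g hg
            by_cases hgJ : g ∈ J1
            · exact hcl g hgJ hg
            · have h2 : cnt l (univ \ J1) (l h) = 2 := by omega
              by_cases hgh : g = h
              · rw [hgh]; exact hT
              · rcases two_elems h2 (g := h) (g' := h') (h := h) (k := g) (by simp [hJ])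
                  (by simp [hJ']) (by simp [hJ]) (by simp [hgJ]) rfl hl' rfl hg hne
                  (Ne.symm hgh) with ⟨_, h4⟩ | ⟨h4, _⟩
                · rw [h4]; exact hT'
                · exact absurd h4 hne
  have hKcfg : Cfg v l A2 (E2 v l c T1) u2 K := by
    refine ⟨hKA, ?_, ?_, fun x => (hKcnt x).le⟩
    · intro a ha
      unfold cnt
      rw [card_le_one]
      intro h hh h' hh'
      simp only [mem_filter] at hh hh'
      exact htwo a ha h hh.1 h' hh'.1 hh.2 hh'.2
    · intro a ha
      have e0 : cnt l K a ≤ cnt l (univ \ J1) a :=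
        cnt_mono l (fun h hh => by simp [(hKmem h hh).2]) a
      have e1 := cnt_sdiff l (subset_univ J1) a
      rw [hone, ha.1] at e1
      have hE1 : ¬ E1 l c a := fun h => by
        have := h.2
        rw [ha.2.1] at this
        exact absurd this (by decide)
      have e2 : cnt l J1 a ≠ 0 := by
        intro h0
        obtain ⟨h, hh⟩ := card_pos.1 (show 0 < (univ.filter fun h => l h = a).card by
          rw [ha.1]; omega)
        simp only [mem_filter, mem_univ, true_and] at hh
        exact Fa1 h (mem_univ _) (by rw [hh]; exact hE1) (by rw [hh]; exact h0) (ha.2.2 h hh)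
      omega
  have hJ2cnt : ∀ x, cnt v J2 x = u2 x := by
    have h1 := M2 K hKcfg
    rw [← cnt_sum v K, ← cnt_sum v J2] at h1
    intro x
    by_contra hne
    have hlt : cnt v J2 x < u2 x := lt_of_le_of_ne (C2.deg x) hne
    have h2 : ∑ x, cnt v J2 x < ∑ x, cnt v K x := by
      apply sum_lt_sum
      · intro y _
        rw [hKcnt y]; exact C2.deg y
      · exact ⟨x, mem_univ _, by rw [hKcnt x]; exact hlt⟩
    omega
  refine ⟨J1, T1, A2, J2, T2, ?_, ?_, ?_, ?_, ?_⟩
  · exact
      { one1 := C1.one
        two1 := C1.two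
        s1 := fun h => S1 h (mem_univ _)
        a1 := fun h => Fa1 h (mem_univ _)
        b1 := fun h => Fb1 h (mem_univ _)
        c1 := fun h h' => Fc1 h (mem_univ _) h' (mem_univ _)
        act := hmemA2
        sub2 := C2.sub
        one2 := C2.one
        two2 := C2.two
        s2 := S2
        a2 := Fa2
        b2 := Fb2
        c2 := Fc2 }
  · intro x hx
    refine le_antisymm (C1.deg x) ?_
    by_contra hlt
    exact hx (F1 x (not_le.1 hlt))
  · intro x hx
    rw [hJ2cnt x]
    simp only [hu2, if_pos hx]
  · intro g hg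
    obtain ⟨δ, h1, h2⟩ := P1 g hg
    exact ⟨δ, fun h k => h1 h (mem_univ _) k (mem_univ _),
      fun h k => h2 h (mem_univ _) k (mem_univ _)⟩
  · intro g hg
    exact P2 g hg

end C90.TwoStep
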